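import Pool.Agent.Helper29.Smith.TP

/-! The two-port of a minimiser. -/

set_option linter.unusedVariables false
set_option linter.unusedSectionVars false

namespace Pool.Agent.Helper29.Smith

open Pool.Agent.Helper29.Steiner BT

variable {α : Type} {val : α → Set (ℝ × ℝ)}

lemma mg_val {a b : ℝ × ℝ} {z1 z2 : ℝ} (h1 : 0 < z1) (h2 : 0 < z2) :
    (mg a b (z1 / (z1 + z2))).1 = (a.1 / z1 ^ 2 + b.1 / z2 ^ 2) * (pl z1 z2) ^ 2 := by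
  simp only [mg, pl]
  field_simp
  ring

lemma sum_star {A B C : ℝ} (hA : 0 < A) (hB : 0 < B) (hC : 0 < C) :
    A + B = zl A B C ^ 2 + zl A B C * zl B A C + zl B A C ^ 2 := by
  obtain ⟨h1, h2, h3⟩ := sv_zl3 hA hB hC
  conv_lhs => rw [show A + B = sv (zl A B C) (zl B A C) (zl C A B) +
    sv (zl B A C) (zl A B C) (zl C A B) by rw [h1, h2]]
  unfold sv
  ring

lemma mg_cost {a b : ℝ × ℝ} {C : ℝ} (hA : 0 < a.1) (hB : 0 < b.1) (hC : 0 < C) :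
    (mg a b (zl a.1 b.1 C / (zl a.1 b.1 C + zl b.1 a.1 C))).2 =
      (a.2 + zl a.1 b.1 C + a.1 / zl a.1 b.1 C) + (b.2 + zl b.1 a.1 C + b.1 / zl b.1 a.1 C) -
      (1 + (a.1 / zl a.1 b.1 C ^ 2 + b.1 / zl b.1 a.1 C ^ 2)) /
        (1 / zl a.1 b.1 C + 1 / zl b.1 a.1 C) := by
  have h1 := zl_pos hA hB hC
  have h2 := zl_pos hB hA hC
  have h3 := sqrt_cost hA hB hC
  have h4 := sum_star hA hB hC
  simp only [mg]
  unfold w0 at h3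
  rw [h3]
  set x := zl a.1 b.1 C
  set y := zl b.1 a.1 C
  have hb : b.1 = x ^ 2 + x * y + y ^ 2 - a.1 := by linarith
  rw [hb]
  unfold pl
  field_simp
  ring

/-- inverse of a parallel combination -/
lemma inv_pl {x y : ℝ} (hx : 0 < x) (hy : 0 < y) : 1 / x + 1 / y = 1 / pl x y := by
  unfold pl
  field_simp
  ring

/-- conductance after an edge -/
lemma edge_g {ρ l : ℝ} (hρ : 0 < ρ) (hl : 0 < l) :
    1 / (l + ρ) = (1 / ρ) / (1 + l * (1 / ρ)) := by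
  field_simp
  ring

/-- normalised value after an edge -/
lemma edge_s {ρ l s : ℝ} (hρ : 0 < ρ) (hl : 0 < l) :
    s * ρ ^ 2 / (l + ρ) ^ 2 = s / (1 + l * (1 / ρ)) ^ 2 := by
  field_simp
  ring

theorem chain_min (h : Adm val) (X1 X2 : BT α) : ∀ (M : List (BT α)) (Y1 Y2 : BT α)
    (y1 y2 S : ℝ × ℝ) (w : ℝ), y1 ∈ SS val Y1 → y2 ∈ SS val Y2 → w ∈ Set.Icc (0 : ℝ) 1 →
    MP val (chain (node X1 X2) M) S (node Y1 Y2) (mg y1 y2 w) →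
    ∃ x1 ∈ SS val X1, ∃ x2 ∈ SS val X2, ∃ (D : TPD) (p1 p2 p3 r1 r2 r3 : ℝ),
      TP val M D ∧ 0 < p1 ∧ 0 < p2 ∧ 0 < p3 ∧ 0 < r1 ∧ 0 < r2 ∧ 0 < r3 ∧
      r1 = zl y1.1 y2.1 S.1 ∧ r2 = zl y2.1 y1.1 S.1 ∧ r3 = zl S.1 y1.1 y2.1 ∧
      x1.1 = sv p1 p2 p3 ∧ x2.1 = sv p2 p1 p3 ∧ 0 < sv p3 p1 p2 ∧
      1 / p3 = D.tr.H (1 / r1 + 1 / r2) ∧
      sv p3 p1 p2 / p3 ^ 2 = D.tr.S (1 / r1 + 1 / r2) (y1.1 / r1 ^ 2 + y2.1 / r2 ^ 2) ∧
      1 / r3 = D.H (1 / p1 + 1 / p2) ∧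
      S.1 / r3 ^ 2 = D.S (1 / p1 + 1 / p2) (x1.1 / p1 ^ 2 + x2.1 / p2 ^ 2) ∧
      S.2 = D.K (1 / p1 + 1 / p2) (x1.1 / p1 ^ 2 + x2.1 / p2 ^ 2)
          ((x1.2 + p1 + x1.1 / p1) + (x2.2 + p2 + x2.1 / p2)) - (1 + S.1 / r3 ^ 2) / (1 / r3) ∧
      (∃ y t, MP val X1 x1 y t) ∧ (∃ y t, MP val X2 x2 y t) := by
  intro M
  induction M using List.reverseRecOn with
  | nil =>
    intro Y1 Y2 y1 y2 S w hy1 hy2 hw hm
    have hm' : MP val (node X1 X2) S (node Y1 Y2) (mg y1 y2 w) := hm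
    have qy1 := (SS_adm h Y1).2.2 _ hy1
    have qy2 := (SS_adm h Y2).2.2 _ hy2
    have qS := (SS_adm h _).2.2 _ hm'.1
    have qT := (SS_adm h _).2.2 _ hm'.2.1
    have hw' := MP_w h hy1 hy2 hw (MP_symm hm')
    obtain ⟨x1, hx1, x2, hx2, hS, m1, m2⟩ := MP_node h hm'
    have qx1 := (SS_adm h X1).2.2 _ hx1
    have qx2 := (SS_adm h X2).2.2 _ hx2
    obtain ⟨t, ht⟩ : ∃ t, t = mg y1 y2 w := ⟨_, rfl⟩
    rw [← ht] at qT hS
    have hp1 := zl_pos qx1 qx2 qT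
    have hp2 := zl_pos qx2 qx1 qT
    have hp3 := zl_pos qT qx1 qx2
    have hr1 := zl_pos qy1 qy2 qS
    have hr2 := zl_pos qy2 qy1 qS
    have hr3 := zl_pos qS qy1 qy2
    obtain ⟨e1, e2, e3⟩ := sv_zl3 qx1 qx2 qT
    obtain ⟨f1, f2, f3⟩ := sv_zl3 qy1 qy2 qS
    have R1 := sqrt_val qx1 qx2 qT
    have R2 := sqrt_val qy1 qy2 qS
    have c1 := mg_cost qx1 qx2 qT
    have v1 := mg_val (a := x1) (b := x2) hp1 hp2
    have v2 := mg_val (a := y1) (b := y2) hr1 hr2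
    rw [← hS] at c1 v1
    rw [← hw', ← ht] at v2
    have R1' : Real.sqrt (S.1 + t.1) = zl t.1 x1.1 x2.1 + pl (zl x1.1 x2.1 t.1) (zl x2.1 x1.1 t.1) := by
      rw [← R1, hS]; rfl
    have R2' : Real.sqrt (S.1 + t.1) = zl S.1 y1.1 y2.1 + pl (zl y1.1 y2.1 S.1) (zl y2.1 y1.1 S.1) := by
      rw [← R2, add_comm S.1 t.1, ht, hw']; rfl
    have qST : (Real.sqrt (S.1 + t.1)) ^ 2 = S.1 + t.1 := Real.sq_sqrt (by linarith)
    set p1 := zl x1.1 x2.1 t.1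
    set p2 := zl x2.1 x1.1 t.1
    set p3 := zl t.1 x1.1 x2.1
    set r1 := zl y1.1 y2.1 S.1
    set r2 := zl y2.1 y1.1 S.1
    set r3 := zl S.1 y1.1 y2.1
    have hρ1 := pl_pos hp1 hp2
    have hρ2 := pl_pos hr1 hr2
    have hnd : pl r1 r2 < p3 := by
      apply nondeg hp1 hp2 hp3 hr1 hr2 hr3 (by rw [e1]; exact qx1) (by rw [e2]; exact qx2)
        (by rw [f1]; exact qy1) (by rw [f2]; exact qy2) (by rw [← R1', ← R2'])
      rw [e3, f3, ← R1', qST, add_comm]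
    obtain ⟨l, hl⟩ : ∃ l, l = p3 - pl r1 r2 := ⟨_, rfl⟩
    have hl0 : 0 < l := by linarith
    have hp3' : p3 = l + pl r1 r2 := by linarith
    have hr3' : r3 = l + pl p1 p2 := by linarith
    have hg1 : 0 < 1 / p1 + 1 / p2 := by positivity
    have hg2 : 0 < 1 / r1 + 1 / r2 := by positivity
    refine ⟨x1, hx1, x2, hx2, edgeD l, p1, p2, p3, r1, r2, r3, TP_edge hl0, hp1, hp2, hp3, hr1,
      hr2, hr3, rfl, rfl, rfl, e1.symm, e2.symm, by rw [e3]; exact qT, ?_, ?_, ?_, ?_, ?_,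
      ⟨_, _, m1⟩, ⟨_, _, m2⟩⟩
    · rw [edgeD_tr, edgeD_H hl0 hg2, inv_pl hr1 hr2, hp3', edge_g hρ2 hl0]
    · rw [edgeD_tr, edgeD_S hl0 hg2, inv_pl hr1 hr2, e3, v2, hp3', edge_s hρ2 hl0]
    · rw [edgeD_H hl0 hg1, inv_pl hp1 hp2, hr3', edge_g hρ1 hl0]
    · rw [edgeD_S hl0 hg1, inv_pl hp1 hp2, v1, hr3', edge_s hρ1 hl0]
    · rw [edgeD_K hl0 hg1, c1, v1, inv_pl hp1 hp2, hr3']
      field_simp
      ring
  | append_singleton M m ih =>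
    intro Y1 Y2 y1 y2 S w hy1 hy2 hw hm
    rw [chain_snoc] at hm
    have qy1 := (SS_adm h Y1).2.2 _ hy1
    have qy2 := (SS_adm h Y2).2.2 _ hy2
    have qS := (SS_adm h _).2.2 _ hm.1
    have qT := (SS_adm h _).2.2 _ hm.2.1
    have hw' := MP_w h hy1 hy2 hw (MP_symm hm)
    obtain ⟨a, ha, b, hb, hS, m1, m2⟩ := MP_node h hm
    have qa := (SS_adm h _).2.2 _ ha
    have qb := (SS_adm h _).2.2 _ hb
    obtain ⟨x1, hx1, x2, hx2, D, p1, p2, p3, r1', r2', r3', hTP, hp1, hp2, hp3, hr1', hr2', hr3',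
      er1, er2, er3, e1, e2, e3, g1, g2, g3, g4, g5, w1, w2⟩ :=
      ih m (node Y1 Y2) b (mg y1 y2 w) a _ hb hm.2.1 (w0_mem qb qT qa) m1
    obtain ⟨t, ht⟩ : ∃ t, t = mg y1 y2 w := ⟨_, rfl⟩
    rw [← ht] at qT hS er1 er2 er3 g2
    rw [zl_swap] at er1
    rw [zl_swap t.1] at er2
    -- legs at the new node
    have hr1 := zl_pos qy1 qy2 qS
    have hr2 := zl_pos qy2 qy1 qS
    have hr3 := zl_pos qS qy1 qy2
    obtain ⟨f1, f2, f3⟩ := sv_zl3 qy1 qy2 qS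
    obtain ⟨k1, k2, k3⟩ := sv_zl3 qa qb qT
    have R1 := sqrt_val qa qb qT
    have R2 := sqrt_val qy1 qy2 qS
    have c1 := mg_cost qa qb qT
    have v2 := mg_val (a := y1) (b := y2) hr1 hr2
    have v1 := mg_val (a := a) (b := b) (zl_pos qa qb qT) (zl_pos qb qa qT)
    rw [← hS] at c1 v1
    rw [← hw', ← ht] at v2
    have R1' : Real.sqrt (S.1 + t.1) = zl t.1 a.1 b.1 + pl (zl a.1 b.1 t.1) (zl b.1 a.1 t.1) := by
      rw [← R1, hS]; rfl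
    have R2' : Real.sqrt (S.1 + t.1) = zl S.1 y1.1 y2.1 + pl (zl y1.1 y2.1 S.1) (zl y2.1 y1.1 S.1) := by
      rw [← R2, add_comm S.1 t.1, ht, hw']; rfl
    have qST : (Real.sqrt (S.1 + t.1)) ^ 2 = S.1 + t.1 := Real.sq_sqrt (by linarith)
    rw [← er3, ← er1, ← er2] at k1 k2 k3
    rw [← er3, ← er1, ← er2] at R1'
    rw [← er3, ← er1] at c1 v1
    set r1 := zl y1.1 y2.1 S.1
    set r2 := zl y2.1 y1.1 S.1
    set r3 := zl S.1 y1.1 y2.1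
    have hρ1 := pl_pos hr3' hr1'
    have hρ2 := pl_pos hr1 hr2
    have hnd : pl r1 r2 < r2' := by
      apply nondeg hr3' hr1' hr2' hr1 hr2 hr3 (by rw [k1]; exact qa) (by rw [k2]; exact qb)
        (by rw [f1]; exact qy1) (by rw [f2]; exact qy2) (by rw [← R1', ← R2'])
      rw [k3, f3, ← R1', qST, add_comm]
    obtain ⟨l, hl⟩ : ∃ l, l = r2' - pl r1 r2 := ⟨_, rfl⟩
    have hl0 : 0 < l := by linarith
    have hr2'' : r2' = l + pl r1 r2 := by linarith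
    have hr3'' : r3 = l + pl r3' r1' := by linarith
    have hG : 0 < 1 / p1 + 1 / p2 := by positivity
    have hg2 : 0 < 1 / r1 + 1 / r2 := by positivity
    have hgm : 0 < 1 / r1' := by positivity
    have hsm : 0 < b.1 / r1' ^ 2 := by positivity
    have j1 : (1 / r1 + 1 / r2) / (1 + l * (1 / r1 + 1 / r2)) = 1 / r2' := by
      rw [inv_pl hr1 hr2, hr2'', edge_g hρ2 hl0]
    have j2 : (y1.1 / r1 ^ 2 + y2.1 / r2 ^ 2) / (1 + l * (1 / r1 + 1 / r2)) ^ 2 = t.1 / r2' ^ 2 := by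
      rw [inv_pl hr1 hr2, v2, hr2'', edge_s hρ2 hl0]
    refine ⟨x1, hx1, x2, hx2, D.snoc (1 / r1') (b.1 / r1' ^ 2) (b.2 + r1' + b.1 / r1') l,
      p1, p2, p3, r1, r2, r3, TP_snoc hTP (Lg_state h hb hr1') hgm hsm hl0, hp1, hp2, hp3, hr1,
      hr2, hr3, rfl, rfl, rfl, e1, e2, e3, ?_, ?_, ?_, ?_, ?_, w1, w2⟩
    · rw [snoc_tr_H hTP.ok hg2 hgm hl0, j1, g1]
    · rw [snoc_tr_S hTP.ok hg2 hgm hl0, j1, j2, g2]
    · rw [snoc_H hTP.ok hG hgm hl0, ← g3, inv_pl hr3' hr1', hr3'', edge_g hρ1 hl0]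
    · rw [snoc_S hTP.ok hG hgm hl0, ← g3, ← g4, inv_pl hr3' hr1', v1, hr3'', edge_s hρ1 hl0]
    · rw [snoc_K hTP.ok hG hgm hl0, ← g3, ← g4]
      rw [c1, v1, inv_pl hr3' hr1', hr3'']
      have g5' : D.K (1 / p1 + 1 / p2) (x1.1 / p1 ^ 2 + x2.1 / p2 ^ 2)
          ((x1.2 + p1 + x1.1 / p1) + (x2.2 + p2 + x2.1 / p2)) =
          a.2 + (1 + a.1 / r3' ^ 2) / (1 / r3') := by linarith
      rw [g5']
      field_simp
      ring

end Pool.Agent.Helper29.Smith
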