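import Pool.Agent.Helper29.Smith.Defs

/-! Every finite tree is (at least as long as) a binary tree with prescribed leaf labels. -/

set_option linter.unusedVariables false
set_option linter.unusedSectionVars false

namespace Pool.Agent.Helper29.Smith

open Pool.Agent.Helper29.Steiner BT ET

namespace Conv

variable {V : Type} [DecidableEq V]

/-- Trees built by adding one leaf at a time: vertex set and edge set. -/
inductive TT : Finset V → Finset (Sym2 V) → Prop
  | single (v : V) : TT {v} ∅
  | add (U : Finset V) (E : Finset (Sym2 V)) (u v : V) (hu : u ∈ U) (hv : v ∉ U) (h : TT U E) :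
      TT (insert v U) (insert s(u, v) E)

theorem TT.sub {U : Finset V} {E : Finset (Sym2 V)} (h : TT U E) :
    ∀ e ∈ E, ∀ x ∈ e, x ∈ U := by
  induction h with
  | single v => simp
  | add U E u v hu hv h ih =>
    intro e he x hx
    rw [Finset.mem_insert] at he
    rcases he with rfl | he
    · rw [Sym2.mem_iff] at hx
      rcases hx with rfl | rfl
      · exact Finset.mem_insert_of_mem hu
      · exact Finset.mem_insert_self _ _
    · exact Finset.mem_insert_of_mem (ih e he x hx)

theorem TT.notMem {U : Finset V} {E : Finset (Sym2 V)} (h : TT U E) {u v : V} (hv : v ∉ U) :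
    s(u, v) ∉ E := fun he => hv (h.sub _ he v (Sym2.mem_mk_right _ _))

theorem TT.card {U : Finset V} {E : Finset (Sym2 V)} (h : TT U E) : E.card + 1 = U.card := by
  induction h with
  | single v => simp
  | add U E u v hu hv h ih =>
    rw [Finset.card_insert_of_notMem hv, Finset.card_insert_of_notMem (h.notMem hv), ih]

/-- The tree of a finite tree graph. -/
theorem tt_of_isTree [Fintype V] (G : SimpleGraph V) [DecidableRel G.Adj] (hG : G.IsTree) :
    TT Finset.univ G.edgeFinset := by
  classical
  let Fam : Finset (Finset V) :=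
    Finset.univ.filter (fun U => U.Nonempty ∧ ∃ E, TT U E ∧ E ⊆ G.edgeFinset)
  obtain ⟨v0⟩ := hG.1.nonempty
  have hne : Fam.Nonempty := ⟨{v0}, by
    simp only [Fam, Finset.mem_filter, Finset.mem_univ, true_and]
    exact ⟨⟨v0, by simp⟩, ∅, TT.single v0, by simp⟩⟩
  obtain ⟨U, hU, hmax⟩ := Finset.exists_max_image Fam Finset.card hne
  simp only [Fam, Finset.mem_filter, Finset.mem_univ, true_and] at hU hmax
  obtain ⟨⟨a, ha⟩, E, hTT, hE⟩ := hU
  have huniv : U = Finset.univ := by
    rw [Finset.eq_univ_iff_forall]
    intro b
    by_contra hb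
    obtain ⟨p⟩ := hG.1.preconnected a b
    obtain ⟨d, hd, h1, h2⟩ := p.exists_boundary_dart (U : Set V) ha hb
    have h3 := hmax (insert d.snd U) ⟨⟨a, Finset.mem_insert_of_mem ha⟩,
      insert s(d.fst, d.snd) E, TT.add U E _ _ h1 h2 hTT, ?_⟩
    · rw [Finset.card_insert_of_notMem h2] at h3
      omega
    · intro e he
      rw [Finset.mem_insert] at he
      rcases he with rfl | he
      · rw [SimpleGraph.mem_edgeFinset, SimpleGraph.mem_edgeSet]
        exact d.adj
      · exact hE he
  subst huniv
  have h4 := hTT.card
  have h5 := hG.card_edgeFinset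
  have h6 : E = G.edgeFinset := by
    refine Finset.eq_of_subset_of_card_le hE ?_
    rw [Finset.card_univ] at h4
    omega
  rw [← h6]
  exact hTT

/-- Replace all leaves labelled `u` by the tree `t`. -/
def rep (u : V) (t : ET V) : ET V → ET V
  | ET.leaf x => if x = u then t else ET.leaf x
  | ET.node x l r => ET.node x (rep u t l) (rep u t r)

theorem rep_leaves (u : V) (t : ET V) (a : ET V) :
    leaves (rep u t a) + (Multiset.count u (leaves a)) • {u} =
      leaves a + (Multiset.count u (leaves a)) • leaves t := by
  induction a with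
  | leaf x =>
    by_cases h : x = u
    · subst h
      simp [rep, leaves, add_comm]
    · have h' : u ≠ x := fun h'' => h h''.symm
      simp [rep, leaves, h, h']
  | node x l r ihl ihr =>
    simp only [rep, leaves, Multiset.count_add, add_smul]
    calc leaves (rep u t l) + leaves (rep u t r) +
          (Multiset.count u (leaves l) • {u} + Multiset.count u (leaves r) • {u})
        = (leaves (rep u t l) + Multiset.count u (leaves l) • {u}) +
          (leaves (rep u t r) + Multiset.count u (leaves r) • {u}) := by abel
      _ = _ := by rw [ihl, ihr]; abel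

theorem rep_of_count (u : V) (t : ET V) (a : ET V) (h : Multiset.count u (leaves a) = 0) :
    rep u t a = a := by
  induction a with
  | leaf x =>
    have : u ≠ x := by
      intro h'
      subst h'
      simp [leaves] at h
    have h2 : x ≠ u := fun h'' => this h''.symm
    simp [rep, h2]
  | node x l r ihl ihr =>
    simp only [leaves, Multiset.count_add] at h
    rw [rep, ihl (by omega), ihr (by omega)]

theorem pos_rep (u : V) (t : ET V) (a : ET V) {x : V} (h : pos a = x) (hx : x ≠ u) :
    pos (rep u t a) = x := by
  cases a with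
  | leaf y => simp only [pos] at h; subst h; simp [rep, hx, pos]
  | node y l r => simpa [rep, pos] using h

/-- Every leaf labelled `x` in `a` has a parent labelled `x`, the parent of the root of `a` being
labelled `y`. -/
def PL (x : V) : V → ET V → Prop
  | y, ET.leaf z => z = x → y = x
  | _, ET.node z l r => PL x z l ∧ PL x z r

theorem PL_change (x y y' : V) (a : ET V) (h : PL x y a) (hy : y = x → y' = x) : PL x y' a := by
  cases a with
  | leaf z => exact fun hz => hy (h hz)
  | node z l r => exact h

theorem PL_rep (x u : V) (t : ET V) (hxu : x ≠ u) (ht : ∀ y, PL x y t) (a : ET V) :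
    ∀ y, PL x y a → PL x y (rep u t a) := by
  induction a with
  | leaf z =>
    intro y h
    by_cases hz : z = u
    · simp [rep, hz, ht y]
    · simpa [rep, hz] using h
  | node z l r ihl ihr =>
    intro y h
    exact ⟨ihl z h.1, ihr z h.2⟩

theorem PL_self (u v : V) (a : ET V) :
    ∀ y, PL u y (rep u (ET.node u (ET.leaf u) (ET.leaf v)) a) := by
  induction a with
  | leaf z =>
    intro y
    by_cases hz : z = u
    · simp [rep, hz, PL]
    · simp [rep, hz, PL]
  | node z l r ihl ihr =>
    intro y
    exact ⟨ihl z, ihr z⟩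

/-- Length of a tree hanging at a vertex labelled `x`. -/
def FF (w : V → V → ℝ) (x : V) (a : ET V) : ℝ := w x (pos a) + wlen w a

theorem FF_le (w : V → V → ℝ) (u v : V) (t : ET V)
    (ht : ∀ x, FF w x t ≤ w x u + w u v) (a : ET V) :
    ∀ x, FF w x (rep u t a) ≤ FF w x a + (Multiset.count u (leaves a) : ℝ) * w u v := by
  induction a with
  | leaf z =>
    intro x
    by_cases hz : z = u
    · subst hz
      have := ht x
      simpa [rep, FF, leaves, pos, wlen] using this
    · have h' : u ≠ z := fun h'' => hz h''.symm
      simp [rep, hz, FF, leaves, h']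
  | node z l r ihl ihr =>
    intro x
    have h1 := ihl z
    have h2 := ihr z
    simp only [FF, rep, pos, wlen, leaves, Multiset.count_add, Nat.cast_add, add_mul] at h1 h2 ⊢
    linarith

theorem FF_eq (w : V → V → ℝ) (u v : V) (t : ET V)
    (P : V → ET V → Prop) (hP : ∀ y z l r, P y (ET.node z l r) → P z l ∧ P z r)
    (ht : ∀ x, P x (ET.leaf u) → FF w x t = w x u + w u v) (a : ET V) :
    ∀ x, P x a → FF w x (rep u t a) = FF w x a + (Multiset.count u (leaves a) : ℝ) * w u v := by
  induction a with
  | leaf z =>
    intro x hx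
    by_cases hz : z = u
    · subst hz
      have := ht x hx
      simpa [rep, FF, leaves, pos, wlen] using this
    · have h' : u ≠ z := fun h'' => hz h''.symm
      simp [rep, hz, FF, leaves, h']
  | node z l r ihl ihr =>
    intro x hx
    obtain ⟨hl, hr⟩ := hP _ _ _ _ hx
    have h1 := ihl z hl
    have h2 := ihr z hr
    simp only [FF, rep, pos, wlen, leaves, Multiset.count_add, Nat.cast_add, add_mul] at h1 h2 ⊢
    linarith

/-- degree in an edge set -/
def dg (E : Finset (Sym2 V)) (x : V) : ℕ := (E.filter (fun e => x ∈ e)).card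

theorem dg_insert_ne (E : Finset (Sym2 V)) (u v x : V) (hu : x ≠ u) (hv : x ≠ v) :
    dg (insert s(u, v) E) x = dg E x := by
  unfold dg
  rw [Finset.filter_insert, if_neg]
  rw [Sym2.mem_iff]
  tauto

theorem dg_insert_left (E : Finset (Sym2 V)) (u v : V) (h : s(u, v) ∉ E) :
    dg (insert s(u, v) E) u = dg E u + 1 := by
  unfold dg
  rw [Finset.filter_insert, if_pos (Sym2.mem_mk_left _ _), Finset.card_insert_of_notMem]
  simp [h]

theorem dg_insert_right (E : Finset (Sym2 V)) (u v : V) (h : ∀ e ∈ E, v ∉ e) :
    dg (insert s(u, v) E) v = 1 := by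
  unfold dg
  rw [Finset.filter_insert, if_pos (Sym2.mem_mk_right _ _), Finset.filter_false_of_mem h]
  simp

theorem TT.dg_right {U : Finset V} {E : Finset (Sym2 V)} (h : TT U E) {v : V} (hv : v ∉ U)
    (u : V) : dg (insert s(u, v) E) v = 1 :=
  dg_insert_right E u v fun e he hve => hv (h.sub e he v hve)

theorem TT.eq_singleton {U : Finset V} {E : Finset (Sym2 V)} (h : TT U E) :
    ∀ u ∈ U, (∀ x ∈ U, x ≠ u → 3 ≤ dg E x) → U = {u} := by
  induction h with
  | single v => intro u hu _; rw [Finset.mem_singleton] at hu; rw [hu]
  | add U E u0 v0 hu0 hv0 h ih =>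
    intro u hu hd
    exfalso
    have h1 : v0 = u := by
      by_contra hne
      have h2 := hd v0 (Finset.mem_insert_self _ _) hne
      rw [h.dg_right hv0 u0] at h2
      omega
    subst h1
    have hne : u0 ≠ v0 := fun h' => hv0 (h' ▸ hu0)
    have h3 := ih u0 hu0 (by
      intro x hx hxu
      have h4 := hd x (Finset.mem_insert_of_mem hx) (fun h' => hv0 (h' ▸ hx))
      rwa [dg_insert_ne E u0 v0 x hxu (fun h' => hv0 (h' ▸ hx))] at h4)
    have h5 := h.card
    rw [h3, Finset.card_singleton] at h5
    have h6 : E = ∅ := Finset.card_eq_zero.mp (by omega)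
    have h7 := hd u0 (Finset.mem_insert_of_mem hu0) hne
    rw [dg_insert_left E u0 v0 (h.notMem hv0), h6] at h7
    simp [dg] at h7

/-- Leaf labels after the replacement. -/
theorem rep_pair_leaves (S : Finset V) (u v : V) (t : ET V) (hv : v ∈ S) (huv : u ≠ v)
    (ht : (u ∈ S ∧ leaves t = {u, v}) ∨ (u ∉ S ∧ leaves t = {v}))
    (p : ET V × ET V) (hp : leaves p.1 + leaves p.2 = (insert u (S.erase v)).val) :
    leaves (rep u t p.1) + leaves (rep u t p.2) = S.val := by
  have hc : Multiset.count u (leaves p.1) + Multiset.count u (leaves p.2) = 1 := by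
    rw [← Multiset.count_add, hp]
    exact Multiset.count_eq_one_of_mem (Finset.nodup _) (by simp)
  have h1 := rep_leaves u t p.1
  have h2 := rep_leaves u t p.2
  have h3 : (leaves (rep u t p.1) + leaves (rep u t p.2)) + {u} =
      (insert u (S.erase v)).val + leaves t := by
    rw [← hp]
    calc (leaves (rep u t p.1) + leaves (rep u t p.2)) + {u}
        = (leaves (rep u t p.1) + leaves (rep u t p.2)) +
          (Multiset.count u (leaves p.1) + Multiset.count u (leaves p.2)) • {u} := by
          rw [hc, one_smul]
      _ = (leaves (rep u t p.1) + Multiset.count u (leaves p.1) • {u}) +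
          (leaves (rep u t p.2) + Multiset.count u (leaves p.2) • {u}) := by
          rw [add_smul]; abel
      _ = (leaves p.1 + leaves p.2) +
          (Multiset.count u (leaves p.1) + Multiset.count u (leaves p.2)) • leaves t := by
          rw [h1, h2, add_smul]; abel
      _ = _ := by rw [hc, one_smul]
  have h4 : (S.erase v).val + {v} = S.val := by
    rw [Finset.erase_val, add_comm, Multiset.singleton_add]
    exact Multiset.cons_erase hv
  apply add_right_cancel (b := ({u} : Multiset V))
  rw [h3]
  rcases ht with ⟨hu, ht⟩ | ⟨hu, ht⟩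
  · have h5 : insert u (S.erase v) = S.erase v :=
      Finset.insert_eq_of_mem (Finset.mem_erase.mpr ⟨huv, hu⟩)
    rw [h5, ht, ← h4]
    have : ({u, v} : Multiset V) = {v} + {u} := by
      rw [Multiset.insert_eq_cons, ← Multiset.singleton_add, add_comm]
    rw [this, add_assoc]
  · have h5 : u ∉ S.erase v := fun h => hu (Finset.mem_of_mem_erase h)
    rw [Finset.insert_val_of_notMem h5, ht, ← h4, ← Multiset.singleton_add]
    abel

/-- The pair after the replacement: inequality. -/
theorem pwlen_rep_le (w : V → V → ℝ) (hw : ∀ x y, w x y = w y x) (u v : V) (t : ET V)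
    (ht : ∀ x, FF w x t ≤ w x u + w u v) (p : ET V × ET V)
    (hc : Multiset.count u (leaves p.1) + Multiset.count u (leaves p.2) = 1) :
    pwlen w (rep u t p.1, rep u t p.2) ≤ pwlen w p + w u v := by
  obtain ⟨a, b⟩ := p
  simp only at hc ⊢
  rcases Nat.eq_zero_or_pos (Multiset.count u (leaves b)) with h | h
  · have h1 : Multiset.count u (leaves a) = 1 := by omega
    have h2 := FF_le w u v t ht a (pos b)
    rw [rep_of_count u t b h]
    rw [h1] at h2
    simp only [FF, pwlen] at h2 ⊢
    rw [hw (pos (rep u t a)), hw (pos a)]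
    push_cast at h2
    linarith
  · have h1 : Multiset.count u (leaves b) = 1 := by omega
    have h0 : Multiset.count u (leaves a) = 0 := by omega
    have h2 := FF_le w u v t ht b (pos a)
    rw [rep_of_count u t a h0]
    rw [h1] at h2
    simp only [FF, pwlen] at h2 ⊢
    push_cast at h2
    linarith

/-- The pair after the replacement: equality. -/
theorem pwlen_rep_eq (w : V → V → ℝ) (hw : ∀ x y, w x y = w y x) (u v : V) (t : ET V)
    (P : V → ET V → Prop) (hP : ∀ y z l r, P y (ET.node z l r) → P z l ∧ P z r)
    (ht : ∀ x, P x (ET.leaf u) → FF w x t = w x u + w u v) (p : ET V × ET V)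
    (hc : Multiset.count u (leaves p.1) + Multiset.count u (leaves p.2) = 1)
    (hPa : P (pos p.2) p.1) (hPb : P (pos p.1) p.2) :
    pwlen w (rep u t p.1, rep u t p.2) = pwlen w p + w u v := by
  obtain ⟨a, b⟩ := p
  simp only at hc hPa hPb ⊢
  rcases Nat.eq_zero_or_pos (Multiset.count u (leaves b)) with h | h
  · have h1 : Multiset.count u (leaves a) = 1 := by omega
    have h2 := FF_eq w u v t P hP ht a (pos b) hPa
    rw [rep_of_count u t b h]
    rw [h1] at h2
    simp only [FF, pwlen] at h2 ⊢
    rw [hw (pos (rep u t a)), hw (pos a)]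
    push_cast at h2
    linarith
  · have h1 : Multiset.count u (leaves b) = 1 := by omega
    have h0 : Multiset.count u (leaves a) = 0 := by omega
    have h2 := FF_eq w u v t P hP ht b (pos a) hPb
    rw [rep_of_count u t a h0]
    rw [h1] at h2
    simp only [FF, pwlen] at h2 ⊢
    push_cast at h2
    linarith

theorem count_one (S : Finset V) (u : V) (p : ET V × ET V)
    (hp : leaves p.1 + leaves p.2 = (insert u S).val) :
    Multiset.count u (leaves p.1) + Multiset.count u (leaves p.2) = 1 := by
  rw [← Multiset.count_add, hp]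
  exact Multiset.count_eq_one_of_mem (Finset.nodup _) (by simp)

theorem pair_val (u v : V) (huv : u ≠ v) (S : Finset V) (hS : S = {u, v}) :
    leaves (ET.leaf u) + leaves (ET.leaf v) = S.val := by
  subst hS
  rw [Finset.insert_val_of_notMem (by simpa using huv)]
  simp [leaves]

/-- If `S.erase v ⊆ {u}` then `S = {u, v}`. -/
theorem eq_pair (S : Finset V) (u v : V) (hv : v ∈ S) (huv : u ≠ v) (hS : 2 ≤ S.card)
    (h : (insert u (S.erase v)).card < 2) : S = {u, v} := by
  have h1 : (S.erase v).card + 1 = S.card := Finset.card_erase_add_one hv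
  have h2 : u ∈ S.erase v := by
    by_contra h3
    rw [Finset.card_insert_of_notMem h3] at h
    omega
  have h3 : S.erase v = {u} := by
    rw [Finset.insert_eq_of_mem h2] at h
    have h4 : (S.erase v).card = 1 := by omega
    obtain ⟨x, hx⟩ := Finset.card_eq_one.mp h4
    rw [hx] at h2 ⊢
    rw [Finset.mem_singleton.mp h2]
  rw [← Finset.insert_erase hv, h3]
  exact Finset.pair_comm _ _

theorem le_aux {U : Finset V} {E : Finset (Sym2 V)} (h : TT U E) :
    ∀ S ⊆ U, 2 ≤ S.card → ∃ p : ET V × ET V, leaves p.1 + leaves p.2 = S.val ∧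
      ∀ (w : V → V → ℝ) (hw : ∀ x y, w x y = w y x), (∀ x, w x x = 0) →
        (∀ x y z, w x z ≤ w x y + w y z) → pwlen w p ≤ ∑ e ∈ E, Sym2.lift ⟨w, hw⟩ e := by
  have hnn : ∀ (w : V → V → ℝ) (hw : ∀ x y, w x y = w y x), (∀ x, w x x = 0) →
      (∀ x y z, w x z ≤ w x y + w y z) → ∀ x y, 0 ≤ w x y := by
    intro w hw h0 ht x y
    have := ht x y x
    rw [h0, hw y x] at this
    linarith
  induction h with
  | single v =>
    intro S hS h2
    have := Finset.card_le_card hS
    rw [Finset.card_singleton] at this
    omega
  | add U E u v hu hv hTT ih =>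
    intro S hS h2
    have huv : u ≠ v := fun h' => hv (h' ▸ hu)
    have hsum : ∀ (w : V → V → ℝ) (hw : ∀ x y, w x y = w y x),
        ∑ e ∈ insert s(u, v) E, Sym2.lift ⟨w, hw⟩ e = w u v + ∑ e ∈ E, Sym2.lift ⟨w, hw⟩ e := by
      intro w hw
      rw [Finset.sum_insert (hTT.notMem hv)]
      rfl
    have hpos : ∀ (w : V → V → ℝ) (hw : ∀ x y, w x y = w y x), (∀ x, w x x = 0) →
        (∀ x y z, w x z ≤ w x y + w y z) → 0 ≤ ∑ e ∈ E, Sym2.lift ⟨w, hw⟩ e := by
      intro w hw h0 ht
      refine Finset.sum_nonneg fun e _ => ?_
      induction e with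
      | _ x y => exact hnn w hw h0 ht x y
    by_cases hvS : v ∈ S
    · have hS' : insert u (S.erase v) ⊆ U := by
        intro x hx
        rw [Finset.mem_insert, Finset.mem_erase] at hx
        rcases hx with rfl | ⟨hxv, hx⟩
        · exact hu
        · have := hS hx
          rw [Finset.mem_insert] at this
          exact this.resolve_left hxv
      by_cases hc : 2 ≤ (insert u (S.erase v)).card
      · obtain ⟨p', hp', hlen⟩ := ih _ hS' hc
        have hcount := count_one (S.erase v) u p' hp'
        by_cases huS : u ∈ S
        · refine ⟨(rep u (ET.node u (ET.leaf u) (ET.leaf v)) p'.1,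
            rep u (ET.node u (ET.leaf u) (ET.leaf v)) p'.2), ?_, ?_⟩
          · exact rep_pair_leaves S u v _ hvS huv (Or.inl ⟨huS, by
              simp only [leaves]; rfl⟩) p' hp'
          · intro w hw h0 ht
            rw [hsum]
            have h3 := pwlen_rep_le w hw u v (ET.node u (ET.leaf u) (ET.leaf v)) (by
              intro x
              simp only [FF, pos, wlen, h0]
              linarith) p' hcount
            have h4 := hlen w hw h0 ht
            linarith
        · refine ⟨(rep u (ET.leaf v) p'.1, rep u (ET.leaf v) p'.2), ?_, ?_⟩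
          · exact rep_pair_leaves S u v _ hvS huv (Or.inr ⟨huS, by
              simp only [leaves]⟩) p' hp'
          · intro w hw h0 ht
            rw [hsum]
            have h3 := pwlen_rep_le w hw u v (ET.leaf v) (by
              intro x
              simp only [FF, pos, wlen]
              have := ht x u v
              linarith) p' hcount
            have h4 := hlen w hw h0 ht
            linarith
      · have hSuv := eq_pair S u v hvS huv h2 (by omega)
        refine ⟨(ET.leaf u, ET.leaf v), pair_val u v huv S hSuv, ?_⟩
        intro w hw h0 ht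
        rw [hsum]
        have := hpos w hw h0 ht
        simp only [pwlen, pos, wlen]
        linarith
    · have hSU : S ⊆ U := by
        intro x hx
        have := hS hx
        rw [Finset.mem_insert] at this
        rcases this with rfl | h
        · exact absurd hx hvS
        · exact h
      obtain ⟨p, hp, hlen⟩ := ih S hSU h2
      refine ⟨p, hp, fun w hw h0 ht => ?_⟩
      rw [hsum]
      have := hlen w hw h0 ht
      have := hnn w hw h0 ht u v
      linarith

theorem eq_aux {U : Finset V} {E : Finset (Sym2 V)} (h : TT U E) :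
    ∀ S ⊆ U, 2 ≤ S.card → (∀ x ∈ U, x ∉ S → 3 ≤ dg E x) →
      ∃ p : ET V × ET V, leaves p.1 + leaves p.2 = S.val ∧
      (∀ x ∈ S, 2 ≤ dg E x → PL x (pos p.2) p.1 ∧ PL x (pos p.1) p.2) ∧
      ∀ (w : V → V → ℝ) (hw : ∀ x y, w x y = w y x), (∀ x, w x x = 0) →
        pwlen w p = ∑ e ∈ E, Sym2.lift ⟨w, hw⟩ e := by
  induction h with
  | single v =>
    intro S hS h2
    have := Finset.card_le_card hS
    rw [Finset.card_singleton] at this
    omega
  | add U E u v hu hv hTT ih =>
    intro S hS h2 hdeg
    have huv : u ≠ v := fun h' => hv (h' ▸ hu)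
    have hsum : ∀ (w : V → V → ℝ) (hw : ∀ x y, w x y = w y x),
        ∑ e ∈ insert s(u, v) E, Sym2.lift ⟨w, hw⟩ e = w u v + ∑ e ∈ E, Sym2.lift ⟨w, hw⟩ e := by
      intro w hw
      rw [Finset.sum_insert (hTT.notMem hv)]
      rfl
    have hdv : dg (insert s(u, v) E) v = 1 := hTT.dg_right hv u
    have hdu : dg (insert s(u, v) E) u = dg E u + 1 := dg_insert_left E u v (hTT.notMem hv)
    have hvS : v ∈ S := by
      by_contra hvS
      have := hdeg v (Finset.mem_insert_self _ _) hvS
      omega
    have hS' : insert u (S.erase v) ⊆ U := by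
      intro x hx
      rw [Finset.mem_insert, Finset.mem_erase] at hx
      rcases hx with rfl | ⟨hxv, hx⟩
      · exact hu
      · have := hS hx
        rw [Finset.mem_insert] at this
        exact this.resolve_left hxv
    have hdeg' : ∀ x ∈ U, x ∉ insert u (S.erase v) → 3 ≤ dg E x := by
      intro x hx hxS
      rw [Finset.mem_insert, Finset.mem_erase, not_or, not_and] at hxS
      have hxv : x ≠ v := fun h' => hv (h' ▸ hx)
      have := hdeg x (Finset.mem_insert_of_mem hx) (hxS.2 hxv)
      rwa [dg_insert_ne E u v x hxS.1 hxv] at this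
    by_cases hc : 2 ≤ (insert u (S.erase v)).card
    · obtain ⟨p', hp', hPL, hlen⟩ := ih _ hS' hc hdeg'
      have hcount := count_one (S.erase v) u p' hp'
      -- preservation of the parent condition
      have hpres : ∀ (t : ET V) (x : V), x ≠ u → (∀ y, PL x y t) →
          (PL x (pos p'.2) p'.1 ∧ PL x (pos p'.1) p'.2) →
          PL x (pos (rep u t p'.2)) (rep u t p'.1) ∧
            PL x (pos (rep u t p'.1)) (rep u t p'.2) := by
        intro t x hxu ht ⟨h1, h2⟩
        refine ⟨?_, ?_⟩
        · refine PL_rep x u t hxu ht _ _ (PL_change x _ _ _ h1 ?_)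
          intro h3
          exact pos_rep u t _ h3 hxu
        · refine PL_rep x u t hxu ht _ _ (PL_change x _ _ _ h2 ?_)
          intro h3
          exact pos_rep u t _ h3 hxu
      by_cases huS : u ∈ S
      · refine ⟨(rep u (ET.node u (ET.leaf u) (ET.leaf v)) p'.1,
          rep u (ET.node u (ET.leaf u) (ET.leaf v)) p'.2), ?_, ?_, ?_⟩
        · exact rep_pair_leaves S u v _ hvS huv (Or.inl ⟨huS, by
            simp only [leaves]; rfl⟩) p' hp'
        · intro x hx hdx
          by_cases hxu : x = u
          · subst hxu
            exact ⟨PL_self x v _ _, PL_self x v _ _⟩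
          · have hxv : x ≠ v := by
              rintro rfl
              omega
            rw [dg_insert_ne E u v x hxu hxv] at hdx
            refine hpres _ x hxu ?_ (hPL x ?_ hdx)
            · intro y
              refine ⟨fun h' => absurd h'.symm hxu, fun h' => absurd h'.symm hxv⟩
            · rw [Finset.mem_insert, Finset.mem_erase]
              exact Or.inr ⟨hxv, hx⟩
        · intro w hw h0
          rw [hsum, pwlen_rep_eq w hw u v (ET.node u (ET.leaf u) (ET.leaf v)) (fun _ _ => True)
            (fun _ _ _ _ _ => ⟨trivial, trivial⟩) (by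
              intro x _
              simp only [FF, pos, wlen, h0]
              ring) p' hcount trivial trivial, hlen w hw h0]
          ring
      · have hdu3 := hdeg u (Finset.mem_insert_of_mem hu) huS
        refine ⟨(rep u (ET.leaf v) p'.1, rep u (ET.leaf v) p'.2), ?_, ?_, ?_⟩
        · exact rep_pair_leaves S u v _ hvS huv (Or.inr ⟨huS, by
            simp only [leaves]⟩) p' hp'
        · intro x hx hdx
          have hxu : x ≠ u := fun h' => huS (h' ▸ hx)
          have hxv : x ≠ v := by
            rintro rfl
            omega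
          rw [dg_insert_ne E u v x hxu hxv] at hdx
          refine hpres _ x hxu ?_ (hPL x ?_ hdx)
          · intro y
            exact fun h' => absurd h'.symm hxv
          · rw [Finset.mem_insert, Finset.mem_erase]
            exact Or.inr ⟨hxv, hx⟩
        · intro w hw h0
          have hPLu := hPL u (Finset.mem_insert_self _ _) (by omega)
          rw [hsum, pwlen_rep_eq w hw u v (ET.leaf v) (PL u)
            (fun _ _ _ _ h => h) (by
              intro x hx
              have hxu : x = u := hx rfl
              subst hxu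
              simp only [FF, pos, wlen, h0]
              ring) p' hcount hPLu.1 hPLu.2, hlen w hw h0]
          ring
    · have hSuv := eq_pair S u v hvS huv h2 (by omega)
      have hU : U = {u} := hTT.eq_singleton u hu (by
        intro x hx hxu
        refine hdeg' x hx ?_
        rw [hSuv]
        have hxv : x ≠ v := fun h' => hv (h' ▸ hx)
        simp [hxu, hxv])
      have hE : E = ∅ := by
        have := hTT.card
        rw [hU, Finset.card_singleton] at this
        exact Finset.card_eq_zero.mp (by omega)
      refine ⟨(ET.leaf u, ET.leaf v), pair_val u v huv S hSuv, ?_, ?_⟩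
      · intro x hx hdx
        exfalso
        rw [hSuv, Finset.mem_insert, Finset.mem_singleton] at hx
        rcases hx with rfl | rfl
        · rw [hdu, hE] at hdx
          simp [dg] at hdx
        · omega
      · intro w hw h0
        rw [hsum, hE]
        simp [pwlen, pos, wlen]

end Conv

/-- Inequality version, for an arbitrary finite tree `G` and an arbitrary set `S` of at least two
vertices. -/
theorem exists_conv_le {V : Type} [Fintype V] [DecidableEq V] (G : SimpleGraph V)
    [DecidableRel G.Adj] (hG : G.IsTree) (S : Finset V) (hS : 2 ≤ S.card) :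
    ∃ p : ET V × ET V, leaves p.1 + leaves p.2 = S.val ∧
      ∀ (w : V → V → ℝ) (hw : ∀ x y, w x y = w y x), (∀ x, w x x = 0) →
        (∀ x y z, w x z ≤ w x y + w y z) →
        pwlen w p ≤ ∑ e ∈ G.edgeFinset, Sym2.lift ⟨w, hw⟩ e :=
  Conv.le_aux (Conv.tt_of_isTree G hG) S (Finset.subset_univ _) hS

/-- Equality version: if all vertices outside `S` have degree at least three. -/
theorem exists_conv_eq {V : Type} [Fintype V] [DecidableEq V] (G : SimpleGraph V)
    [DecidableRel G.Adj] (hG : G.IsTree) (S : Finset V) (hS : 2 ≤ S.card)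
    (hdeg : ∀ v ∉ S, 3 ≤ G.degree v) :
    ∃ p : ET V × ET V, leaves p.1 + leaves p.2 = S.val ∧
      ∀ (w : V → V → ℝ) (hw : ∀ x y, w x y = w y x), (∀ x, w x x = 0) →
        pwlen w p = ∑ e ∈ G.edgeFinset, Sym2.lift ⟨w, hw⟩ e := by
  obtain ⟨p, h1, -, h3⟩ := Conv.eq_aux (Conv.tt_of_isTree G hG) S (Finset.subset_univ _) hS (by
    intro x _ hx
    have h4 : Conv.dg G.edgeFinset x = G.degree x := by
      unfold Conv.dg
      rw [← SimpleGraph.incidenceFinset_eq_filter, SimpleGraph.card_incidenceFinset_eq_degree]
    rw [h4]
    exact hdeg x hx)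
  exact ⟨p, h1, h3⟩

end Pool.Agent.Helper29.Smith
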