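import Pool.Agent.Helper29.Smith.UGraph

/-! A nondegenerate binary tree with the right edge sums is the given tree. -/

set_option linter.unusedVariables false
set_option linter.unusedSectionVars false

namespace Pool.Agent.Helper29.Smith

open Pool.Agent.Helper29.Steiner BT ET

/-- the list of the edges as unordered pairs has the right multiplicities -/
lemma conv_count {V : Type} [Fintype V] [DecidableEq V] (G : SimpleGraph V)
    [DecidableRel G.Adj] (p : ET V × ET V)
    (hp : ∀ (w : V → V → ℝ) (hw : ∀ x y, w x y = w y x), (∀ x, w x x = 0) →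
        pwlen w p = ∑ e ∈ G.edgeFinset, Sym2.lift ⟨w, hw⟩ e)
    (hnd : NonDeg p) (e : Sym2 V) :
    ((pedges p).map (fun e => s(e.1, e.2))).count e = if e ∈ G.edgeFinset then 1 else 0 := by
  classical
  by_cases hd : e.IsDiag
  · have h1 : e ∉ G.edgeFinset := by
      intro h
      rw [SimpleGraph.mem_edgeFinset] at h
      exact G.not_isDiag_of_mem_edgeSet h hd
    rw [if_neg h1, List.count_eq_zero]
    intro h2
    rw [List.mem_map] at h2
    obtain ⟨a, ha, rfl⟩ := h2
    exact hnd a ha (Sym2.mk_isDiag_iff.1 hd)
  · have hsw : ∀ x y : V, (fun a b : V => if s(a, b) = e then (1 : ℝ) else 0) x y =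
        (fun a b : V => if s(a, b) = e then (1 : ℝ) else 0) y x := by
      intro x y
      change (if s(x, y) = e then (1 : ℝ) else 0) = if s(y, x) = e then 1 else 0
      rw [Sym2.eq_swap]
    have h1 := hp (fun a b => if s(a, b) = e then 1 else 0) hsw
      (by
        intro x
        rw [if_neg]
        intro h
        apply hd
        rw [← h]
        exact Sym2.mk_isDiag_iff.2 rfl)
    rw [pwlen_eq_sum] at h1
    have h2 : ∑ e' ∈ G.edgeFinset, Sym2.lift ⟨fun a b => if s(a, b) = e then (1 : ℝ) else 0,
        hsw⟩ e' = if e ∈ G.edgeFinset then 1 else 0 := by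
      have h3 : ∀ e' : Sym2 V, Sym2.lift ⟨fun a b => if s(a, b) = e then (1 : ℝ) else 0,
          hsw⟩ e' = if e' = e then 1 else 0 := by
        intro e'
        induction e' using Sym2.ind with
        | _ x y => rw [Sym2.lift_mk]
      simp only [h3]
      rw [Finset.sum_ite_eq']
    rw [h2] at h1
    have h4 : ∀ L : List (V × V), (L.map (fun e' => if s(e'.1, e'.2) = e then (1 : ℝ) else 0)).sum =
        ((L.map (fun e' => s(e'.1, e'.2))).count e : ℝ) := by
      intro L
      induction L with
      | nil => simp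
      | cons a L ih =>
        rw [List.map_cons, List.sum_cons, ih, List.map_cons, List.count_cons]
        by_cases h5 : s(a.1, a.2) = e
        · rw [if_pos h5]
          simp [h5]
          ring
        · rw [if_neg h5]
          simp [h5]
    rw [h4] at h1
    split_ifs at h1 ⊢ with h5
    · exact_mod_cast h1
    · exact_mod_cast h1

theorem conv_iso {V : Type} [Fintype V] [DecidableEq V] (G : SimpleGraph V)
    [DecidableRel G.Adj] (hG : G.IsTree) (hV : 2 ≤ Fintype.card V)
    (p : ET V × ET V)
    (hp : ∀ (w : V → V → ℝ) (hw : ∀ x y, w x y = w y x), (∀ x, w x x = 0) →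
        pwlen w p = ∑ e ∈ G.edgeFinset, Sym2.lift ⟨w, hw⟩ e)
    (hnd : NonDeg p) : Nonempty (G ≃g UG (pshape p)) := by
  classical
  have hc := conv_count G p hp hnd
  set L := (pedges p).map (fun e => s(e.1, e.2)) with hL
  have hmem : ∀ e, e ∈ L ↔ e ∈ G.edgeFinset := by
    intro e
    rw [← List.count_pos_iff, hc e]
    split_ifs with h
    · simp [h]
    · simp [h]
  have hnodup : L.Nodup := by
    rw [List.nodup_iff_count_le_one]
    intro e
    rw [hc e]
    split_ifs <;> omega
  have hfin : L.toFinset = G.edgeFinset := by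
    ext e
    rw [List.mem_toFinset, hmem]
  have hlen : L.length = G.edgeFinset.card := by
    rw [← hfin, List.toFinset_card_of_nodup hnodup]
  have hcard : Fintype.card V = Fintype.card (Vx (pshape p).1 ⊕ Vx (pshape p).2) := by
    rw [← pedges_length, ← hG.card_edgeFinset, ← hlen, hL, List.length_map]
  have hmem' : ∀ x y, G.Adj x y ↔ ((x, y) ∈ pedges p ∨ (y, x) ∈ pedges p) := by
    intro x y
    rw [← SimpleGraph.mem_edgeSet, ← SimpleGraph.mem_edgeFinset, ← hmem, hL, List.mem_map]
    constructor
    · rintro ⟨⟨a, b⟩, hab, h⟩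
      rw [Sym2.eq_iff] at h
      rcases h with ⟨h1, h2⟩ | ⟨h1, h2⟩
      · simp only at h1 h2
        subst h1 h2
        exact Or.inl hab
      · simp only at h1 h2
        subst h1 h2
        exact Or.inr hab
    · rintro (h | h)
      · exact ⟨(x, y), h, rfl⟩
      · exact ⟨(y, x), h, Sym2.eq_swap⟩
  have hsurj : Function.Surjective (plab p) := by
    intro x
    have hnt : Nontrivial V := Fintype.one_lt_card_iff_nontrivial.1 (by omega)
    obtain ⟨y, hy⟩ := hG.connected.preconnected.exists_adj_of_nontrivial x
    rcases (hmem' x y).1 hy with h | h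
    · obtain ⟨u, v, _, h1, _⟩ := exists_of_mem_pedges p _ h
      exact ⟨u, h1⟩
    · obtain ⟨u, v, _, _, h1⟩ := exists_of_mem_pedges p _ h
      exact ⟨v, h1⟩
  have hbij : Function.Bijective (plab p) :=
    (Fintype.bijective_iff_surjective_and_card _).2 ⟨hsurj, hcard.symm⟩
  have hadj : ∀ u v, G.Adj (plab p u) (plab p v) ↔ (UG (pshape p)).Adj u v := by
    intro u v
    constructor
    · intro h
      rcases (hmem' _ _).1 h with h | h
      · obtain ⟨u', v', h1, h2, h3⟩ := exists_of_mem_pedges p _ h
        rw [← hbij.1 h2, ← hbij.1 h3]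
        exact h1
      · obtain ⟨u', v', h1, h2, h3⟩ := exists_of_mem_pedges p _ h
        rw [← hbij.1 h2, ← hbij.1 h3]
        exact h1.symm
    · intro h
      exact (hmem' _ _).2 (UG_adj_pedges p u v h)
  exact ⟨(⟨Equiv.ofBijective _ hbij, fun {u v} => hadj u v⟩ : UG (pshape p) ≃g G).symm⟩

end Pool.Agent.Helper29.Smith
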