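import Pool.Agent.Helper29.Smith.Tree

/-! Definitions: states, the minimal length functional, optimal stars, minimising pairs,
labelled rerooting. -/

set_option linter.unusedVariables false
set_option linter.unusedSectionVars false

namespace Pool.Agent.Helper29.Smith

open Pool.Agent.Helper29.Steiner BT ET

/-- the quadratic `1 - w + w ^ 2` -/
noncomputable def qq (w : ℝ) : ℝ := 1 - w + w ^ 2

/-- merging of two states (value, cost) with parameter `w` -/
noncomputable def mg (a b : ℝ × ℝ) (w : ℝ) : ℝ × ℝ :=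
  ((1 - w) ^ 2 * a.1 + w ^ 2 * b.1, a.2 + b.2 + 2 * Real.sqrt ((a.1 + b.1) * qq w))

/-- total cost of two states joined by an edge -/
noncomputable def fin2 (a b : ℝ × ℝ) : ℝ := a.2 + b.2 + 2 * Real.sqrt (a.1 + b.1)

/-- set of states of a rooted tree -/
def SS {α : Type} (val : α → Set (ℝ × ℝ)) : BT α → Set (ℝ × ℝ)
  | BT.leaf a => val a
  | BT.node l r => {s | ∃ a ∈ SS val l, ∃ b ∈ SS val r, ∃ w ∈ Set.Icc (0 : ℝ) 1, s = mg a b w}

/-- twice the minimal length of a pair -/
noncomputable def L2 {α : Type} (val : α → Set (ℝ × ℝ)) (p : BT α × BT α) : ℝ :=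
  sInf {c | ∃ a ∈ SS val p.1, ∃ b ∈ SS val p.2, c = fin2 a b}

/-- admissible leaf data -/
def Adm {α : Type} (val : α → Set (ℝ × ℝ)) : Prop :=
  ∀ a, IsCompact (val a) ∧ (val a).Nonempty ∧ ∀ s ∈ val a, 0 < s.1

/-- the leaf data of a unit vector -/
def v1 : Unit → Set (ℝ × ℝ) := fun _ => {((1 : ℝ), (0 : ℝ))}

/-- the pair of states `(s, t)` of `(x, y)` is minimising -/
def MP {α : Type} (val : α → Set (ℝ × ℝ)) (x : BT α) (s : ℝ × ℝ) (y : BT α) (t : ℝ × ℝ) : Prop :=
  s ∈ SS val x ∧ t ∈ SS val y ∧ fin2 s t = L2 val (x, y)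

/-- value of the branch behind the first leg of an optimal star with legs `z1, z2, z3` -/
noncomputable def sv (z1 z2 z3 : ℝ) : ℝ := z1 ^ 2 + (z1 * z2 + z1 * z3 - z2 * z3) / 2

/-- symmetric auxiliary function -/
noncomputable def sg (A B C : ℝ) : ℝ := Real.sqrt ((A * B + B * C + C * A) / 3)

/-- length of the optimal star -/
noncomputable def SL (A B C : ℝ) : ℝ := Real.sqrt (A + B + C + 3 * sg A B C)

/-- the first leg of the optimal star of three branches of values `A, B, C` -/
noncomputable def zl (A B C : ℝ) : ℝ := (A + sg A B C) / SL A B C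

/-- parallel combination -/
noncomputable def pl (x y : ℝ) : ℝ := x * y / (x + y)

/-- labelled version of `UEq` -/
inductive LEq {X : Type} : ET X × ET X → ET X × ET X → Prop
  | refl (p) : LEq p p
  | comm (a b : ET X) : LEq (a, b) (b, a)
  | trans {p q r} : LEq p q → LEq q r → LEq p r
  | rot (x : X) (a b c : ET X) : LEq (ET.node x a b, c) (a, ET.node x b c)
  | rot' (x : X) (a b c : ET X) : LEq (a, ET.node x b c) (ET.node x a b, c)
  | sw (x : X) (a b c : ET X) : LEq (ET.node x a b, c) (ET.node x b a, c)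

/-- no edge of `p` has equal end labels -/
def NonDeg {X : Type} (p : ET X × ET X) : Prop := ∀ e ∈ pedges p, e.1 ≠ e.2

/-- total length of a graph with vertices placed in a metric space -/
noncomputable def tlen {V E : Type} [Fintype V] [DecidableEq V] [MetricSpace E]
    (G : SimpleGraph V) [DecidableRel G.Adj] (pos : V → E) : ℝ :=
  ∑ e ∈ G.edgeFinset, Sym2.lift ⟨fun u v => dist (pos u) (pos v), fun u v => dist_comm _ _⟩ e

end Pool.Agent.Helper29.Smith
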