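import Pool.Agent.Helper29.Smith.Fun

/-! Explicit placement of a binary tree realising a minimising pair of states. -/

set_option linter.unusedVariables false
set_option linter.unusedSectionVars false

namespace Pool.Agent.Helper29.Smith

open Pool.Agent.Helper29.Steiner BT ET

/-- `Good x v c m ρ`: the tree `x` has a branch of value `v` and cost `c` which is critical when
the rest of the tree has value `m`; `ρ` is the distance from the root to its virtual point. -/
inductive Good : Tr → ℝ → ℝ → ℝ → ℝ → Prop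
  | leaf (m : ℝ) (hm : 0 < m) : Good o 1 0 m 0
  | node (l r : Tr) (v1 c1 v2 c2 m z1 z2 z3 ρ1 ρ2 v c : ℝ)
      (h1 : 0 < z1) (h2 : 0 < z2) (h3 : 0 < z3)
      (hv1 : v1 = sv z1 z2 z3) (hv2 : v2 = sv z2 z1 z3) (hm : m = sv z3 z1 z2)
      (hv1' : 0 < v1) (hv2' : 0 < v2) (hm' : 0 < m)
      (hv : v = (z2 ^ 2 * v1 + z1 ^ 2 * v2) / (z1 + z2) ^ 2)
      (hc : c = c1 + c2 + 2 * (z1 + z2 - pl z1 z2))
      (hl : Good l v1 c1 ((z1 + pl z2 z3) ^ 2 - v1) ρ1) (hρ1 : ρ1 < z1)
      (hr : Good r v2 c2 ((z2 + pl z1 z3) ^ 2 - v2) ρ2) (hρ2 : ρ2 < z2) :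
      Good (BT.node l r) v c m (pl z1 z2)

section place

variable {E : Type} [NormedAddCommGroup E] [InnerProductSpace ℝ E]

lemma star_id {z1 z2 z3 : ℝ} (h1 : 0 < z1) (h2 : 0 < z2) (h3 : 0 < z3) :
    (z2 ^ 2 * sv z1 z2 z3 + z1 ^ 2 * sv z2 z1 z3) / (z1 + z2) ^ 2 + sv z3 z1 z2
      = (z3 + pl z1 z2) ^ 2 := by
  have : z1 + z2 ≠ 0 := by positivity
  unfold sv pl
  field_simp
  ring

/-- the distance from the Steiner point to the first virtual point -/
lemma side_norm {z1 z2 z3 : ℝ} (h1 : 0 < z1) (h2 : 0 < z2) (h3 : 0 < z3) (P1 P2 u : E)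
    (hP1 : inner ℝ P1 P1 = sv z1 z2 z3) (hP2 : inner ℝ P2 P2 = sv z2 z1 z3)
    (h12 : inner ℝ P1 P2 = 0) (hu : inner ℝ u u = 1)
    (hu1 : inner ℝ u P1 = -(z2 / (z1 + z2) * sv z1 z2 z3) / (z3 + pl z1 z2))
    (hu2 : inner ℝ u P2 = -(z1 / (z1 + z2) * sv z2 z1 z3) / (z3 + pl z1 z2)) :
    ‖(z2 / (z1 + z2)) • P1 + (z1 / (z1 + z2)) • P2 + pl z1 z2 • u - P1‖ = z1 := by
  have h21 : inner ℝ P2 P1 = 0 := by rw [real_inner_comm]; exact h12
  have hu1' : inner ℝ P1 u = -(z2 / (z1 + z2) * sv z1 z2 z3) / (z3 + pl z1 z2) := by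
    rw [real_inner_comm]; exact hu1
  have hu2' : inner ℝ P2 u = -(z1 / (z1 + z2) * sv z2 z1 z3) / (z3 + pl z1 z2) := by
    rw [real_inner_comm]; exact hu2
  set X := (z2 / (z1 + z2)) • P1 + (z1 / (z1 + z2)) • P2 + pl z1 z2 • u - P1 with hX
  have hXX : inner ℝ X X = z1 ^ 2 := by
    rw [hX]
    simp only [inner_add_left, inner_add_right, inner_sub_left, inner_sub_right,
      real_inner_smul_left, real_inner_smul_right, hP1, hP2, h12, h21, hu, hu1, hu2, hu1', hu2']
    have ha : z1 + z2 ≠ 0 := by positivity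
    have hb : z3 + pl z1 z2 ≠ 0 := by have := pl_pos h1 h2; positivity
    have hc : z1 * z2 + z3 * (z1 + z2) ≠ 0 := by positivity
    have hd : z3 + pl z1 z2 = (z1 * z2 + z3 * (z1 + z2)) / (z1 + z2) := by
      unfold pl; field_simp; ring
    rw [hd]
    unfold sv pl
    field_simp
    ring
  have : ‖X‖ ^ 2 = z1 ^ 2 := by rw [← real_inner_self_eq_norm_sq]; exact hXX
  exact (pow_left_inj₀ (norm_nonneg _) h1.le (by norm_num)).mp this

lemma side_inner {z1 z2 z3 : ℝ} (h1 : 0 < z1) (h2 : 0 < z2) (h3 : 0 < z3) (P1 P2 u Q : E)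
    (hQ2 : inner ℝ P2 Q = 0)
    (hu1 : inner ℝ u Q = -(z2 / (z1 + z2) * inner ℝ P1 Q) / (z3 + pl z1 z2)) :
    inner ℝ ((z1)⁻¹ • ((z2 / (z1 + z2)) • P1 + (z1 / (z1 + z2)) • P2 + pl z1 z2 • u - P1)) Q
      = -inner ℝ P1 Q / (z1 + pl z2 z3) := by
  simp only [inner_add_left, inner_sub_left, real_inner_smul_left, hQ2, hu1]
  have ha : z1 + z2 ≠ 0 := by positivity
  have ha' : z2 + z3 ≠ 0 := by positivity
  have hc : z1 * z2 + z3 * (z1 + z2) ≠ 0 := by positivity
  have hd : z3 + pl z1 z2 = (z1 * z2 + z3 * (z1 + z2)) / (z1 + z2) := by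
    unfold pl; field_simp; ring
  have hd' : z1 + pl z2 z3 = (z1 * z2 + z3 * (z1 + z2)) / (z2 + z3) := by
    unfold pl; field_simp; ring
  rw [hd, hd']
  unfold pl
  field_simp
  ring

lemma ortho_span {d : ℕ} {e : Fin d → E} (he : Orthonormal ℝ e) {I J : Finset (Fin d)}
    (h : Disjoint I J) {P Q : E} (hP : P ∈ Submodule.span ℝ (e '' (I : Set (Fin d))))
    (hQ : Q ∈ Submodule.span ℝ (e '' (J : Set (Fin d)))) : inner ℝ P Q = 0 := by
  have h1 : Submodule.span ℝ (e '' (I : Set (Fin d))) ⟂ Submodule.span ℝ (e '' (J : Set (Fin d))) := by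
    rw [Submodule.isOrtho_span]
    rintro _ ⟨i, hi, rfl⟩ _ ⟨j, hj, rfl⟩
    have hij : i ≠ j := by
      rintro rfl
      exact Finset.disjoint_left.mp h hi hj
    exact he.2 hij
  exact Submodule.isOrtho_iff_inner_eq.mp h1 P hP Q hQ

lemma span_mono' {d : ℕ} (e : Fin d → E) {I J : Finset (Fin d)} (h : I ⊆ J) :
    Submodule.span ℝ (e '' (I : Set (Fin d))) ≤ Submodule.span ℝ (e '' (J : Set (Fin d))) :=
  Submodule.span_mono (Set.image_mono (by exact_mod_cast h))

/-- Placement of a rooted tree. -/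
theorem rooted {d : ℕ} (e : Fin d → E) (he : Orthonormal ℝ e) {x : Tr} {v c m ρ : ℝ}
    (h : Good x v c m ρ) : ∀ I : Finset (Fin d), I.card = size x →
      ∃ P ∈ Submodule.span ℝ (e '' (I : Set (Fin d))), inner ℝ P P = v ∧
        ∀ u : E, ‖u‖ = 1 →
          (∀ Q ∈ Submodule.span ℝ (e '' (I : Set (Fin d))), inner ℝ u Q = -inner ℝ P Q / Real.sqrt (v + m)) →
          ∃ a : ET E, shape a = x ∧ leaves a = I.val.map e ∧ pos a = P + ρ • u ∧
            wlen dist a = c / 2 + ρ := by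
  induction h with
  | leaf m hm =>
    intro I hI
    have hI' : I.card = 1 := hI
    obtain ⟨i, rfl⟩ := Finset.card_eq_one.mp hI'
    refine ⟨e i, Submodule.subset_span ⟨i, by simp, rfl⟩, ?_, ?_⟩
    · rw [real_inner_self_eq_norm_sq, he.1 i]; norm_num
    · intro u hu _
      refine ⟨ET.leaf (e i), rfl, ?_, ?_, ?_⟩
      · simp [leaves]
      · simp [pos]
      · simp [wlen]
  | node l r v1 c1 v2 c2 m z1 z2 z3 ρ1 ρ2 v c h1 h2 h3 hv1 hv2 hm hv1' hv2' hm' hv hc hl hρ1 hr hρ2
      ihl ihr =>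
    intro I hI
    have hI' : I.card = size l + size r := hI
    obtain ⟨I1, hI1, hc1⟩ := Finset.exists_subset_card_eq (s := I) (n := size l) (by omega)
    set I2 := I \ I1 with hI2
    have hc2 : I2.card = size r := by rw [hI2, Finset.card_sdiff_of_subset hI1]; omega
    have hdis : Disjoint I1 I2 := Finset.disjoint_sdiff
    have hI2' : I2 ⊆ I := Finset.sdiff_subset
    obtain ⟨P1, hP1, hP1v, ha1⟩ := ihl I1 hc1
    obtain ⟨P2, hP2, hP2v, ha2⟩ := ihr I2 hc2
    have h12 : inner ℝ P1 P2 = 0 := ortho_span he hdis hP1 hP2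
    have h21 : inner ℝ P2 P1 = 0 := by rw [real_inner_comm]; exact h12
    have hs : z1 + z2 ≠ 0 := by positivity
    set P := (z2 / (z1 + z2)) • P1 + (z1 / (z1 + z2)) • P2 with hP
    have hR : Real.sqrt (v + m) = z3 + pl z1 z2 := by
      rw [hv, hv1, hv2, hm, star_id h1 h2 h3, Real.sqrt_sq]
      have := pl_pos h1 h2; positivity
    refine ⟨P, ?_, ?_, ?_⟩
    · exact Submodule.add_mem _ (Submodule.smul_mem _ _ (span_mono' e hI1 hP1))
        (Submodule.smul_mem _ _ (span_mono' e hI2' hP2))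
    · rw [hP, hv]
      simp only [inner_add_left, inner_add_right, real_inner_smul_left, real_inner_smul_right, hP1v, hP2v,
        h12, h21]
      field_simp
      ring
    · intro u hu huQ
      rw [hR] at huQ
      have huu : inner ℝ u u = 1 := by rw [real_inner_self_eq_norm_sq, hu]; norm_num
      have hQ1 : ∀ Q ∈ Submodule.span ℝ (e '' (I1 : Set (Fin d))),
          inner ℝ u Q = -(z2 / (z1 + z2) * inner ℝ P1 Q) / (z3 + pl z1 z2) := by
        intro Q hQ
        rw [huQ Q (span_mono' e hI1 hQ), hP, inner_add_left, real_inner_smul_left,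
          real_inner_smul_left, ortho_span he hdis.symm hP2 hQ]
        ring
      have hQ2 : ∀ Q ∈ Submodule.span ℝ (e '' (I2 : Set (Fin d))),
          inner ℝ u Q = -(z1 / (z1 + z2) * inner ℝ P2 Q) / (z3 + pl z1 z2) := by
        intro Q hQ
        rw [huQ Q (span_mono' e hI2' hQ), hP, inner_add_left, real_inner_smul_left,
          real_inner_smul_left, ortho_span he hdis hP1 hQ]
        ring
      have hu1 := hQ1 P1 hP1
      have hu2 := hQ2 P2 hP2
      rw [hP1v] at hu1
      rw [hP2v] at hu2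
      set s := P + pl z1 z2 • u with hsdef
      -- first side
      have n1 : ‖s - P1‖ = z1 := by
        rw [hsdef, hP]
        exact side_norm h1 h2 h3 P1 P2 u (hP1v.trans hv1) (hP2v.trans hv2) h12 huu
          (by rw [hu1, hv1]) (by rw [hu2, hv2])
      have n2 : ‖s - P2‖ = z2 := by
        have h := side_norm h2 h1 h3 P2 P1 u (hP2v.trans hv2) (hP1v.trans hv1) h21 huu
          (by rw [hu2, hv2, add_comm z2 z1, pl_comm z2 z1]) (by rw [hu1, hv1, add_comm z2 z1, pl_comm z2 z1])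
        rw [← h, hsdef, hP, add_comm z2 z1, pl_comm z2 z1, add_comm ((z2 / (z1 + z2)) • P1)]
      have R1 : Real.sqrt (v1 + ((z1 + pl z2 z3) ^ 2 - v1)) = z1 + pl z2 z3 := by
        rw [add_sub_cancel, Real.sqrt_sq]
        have := pl_pos h2 h3; positivity
      have R2 : Real.sqrt (v2 + ((z2 + pl z1 z3) ^ 2 - v2)) = z2 + pl z1 z3 := by
        rw [add_sub_cancel, Real.sqrt_sq]
        have := pl_pos h1 h3; positivity
      obtain ⟨a1, sh1, lv1, ps1, wl1⟩ := ha1 (z1⁻¹ • (s - P1))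
        (by rw [norm_smul, n1, norm_inv, Real.norm_of_nonneg h1.le, inv_mul_cancel₀ h1.ne'])
        (by
          intro Q hQ
          rw [R1, hsdef, hP]
          exact side_inner h1 h2 h3 P1 P2 u Q (ortho_span he hdis.symm hP2 hQ) (hQ1 Q hQ))
      obtain ⟨a2, sh2, lv2, ps2, wl2⟩ := ha2 (z2⁻¹ • (s - P2))
        (by rw [norm_smul, n2, norm_inv, Real.norm_of_nonneg h2.le, inv_mul_cancel₀ h2.ne'])
        (by
          intro Q hQ
          rw [R2, hsdef, hP]
          have h := side_inner h2 h1 h3 P2 P1 u Q (ortho_span he hdis hP1 hQ)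
            (by rw [hQ2 Q hQ, add_comm z2 z1, pl_comm z2 z1])
          rw [← h, add_comm z2 z1, pl_comm z2 z1, add_comm ((z2 / (z1 + z2)) • P1)])
      refine ⟨ET.node s a1 a2, ?_, ?_, ?_, ?_⟩
      · simp only [shape, sh1, sh2]
      · simp only [leaves, lv1, lv2]
        rw [← Multiset.map_add]
        congr 1
        rw [hI2, Finset.sdiff_val]
        exact add_tsub_cancel_of_le (Finset.val_le_iff.mpr hI1)
      · simp only [pos]
      · simp only [wlen, wl1, wl2, ps1, ps2]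
        have d1 : dist s (P1 + ρ1 • z1⁻¹ • (s - P1)) = z1 - ρ1 := by
          rw [dist_eq_norm]
          have : s - (P1 + ρ1 • z1⁻¹ • (s - P1)) = (1 - ρ1 * z1⁻¹) • (s - P1) := by
            rw [smul_smul, sub_smul, one_smul]; abel
          rw [this, norm_smul, n1, Real.norm_of_nonneg]
          · field_simp
          · rw [sub_nonneg, ← div_eq_mul_inv, div_le_one₀ h1]; exact hρ1.le
        have d2 : dist s (P2 + ρ2 • z2⁻¹ • (s - P2)) = z2 - ρ2 := by
          rw [dist_eq_norm]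
          have : s - (P2 + ρ2 • z2⁻¹ • (s - P2)) = (1 - ρ2 * z2⁻¹) • (s - P2) := by
            rw [smul_smul, sub_smul, one_smul]; abel
          rw [this, norm_smul, n2, Real.norm_of_nonneg]
          · field_simp
          · rw [sub_nonneg, ← div_eq_mul_inv, div_le_one₀ h2]; exact hρ2.le
        rw [d1, d2, hc]
        ring

end place

lemma Good_pos {x : Tr} {v c m ρ : ℝ} (h : Good x v c m ρ) : 0 < v := by
  induction h with
  | leaf m hm => norm_num
  | node l r v1 c1 v2 c2 m z1 z2 z3 ρ1 ρ2 v c h1 h2 h3 hv1 hv2 hm hv1' hv2' hm' hv hc hl hρ1 hr hρ2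
      ihl ihr => rw [hv]; positivity

/-- Placement of a pair of critical branches. -/
theorem exists_placement {E : Type} [NormedAddCommGroup E] [InnerProductSpace ℝ E] {d : ℕ}
    (e : Fin d → E) (he : Orthonormal ℝ e) (x y : Tr) (v c v' c' ρ ρ' : ℝ)
    (hx : Good x v c v' ρ) (hy : Good y v' c' v ρ') (hρ : ρ + ρ' < Real.sqrt (v + v'))
    (hd : size x + size y = d) :
    ∃ p : ET E × ET E, pshape p = (x, y) ∧
      leaves p.1 + leaves p.2 = (Finset.univ : Finset (Fin d)).val.map e ∧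
      2 * pwlen dist p = c + c' + 2 * Real.sqrt (v + v') := by
  have hv := Good_pos hx
  have hv' := Good_pos hy
  obtain ⟨I, hI, hcI⟩ := Finset.exists_subset_card_eq (s := (Finset.univ : Finset (Fin d))) (n := size x)
    (by simp; omega)
  set J := Finset.univ \ I with hJ
  have hcJ : J.card = size y := by rw [hJ, Finset.card_sdiff_of_subset hI, hcI]; simp; omega
  have hdis : Disjoint I J := Finset.disjoint_sdiff
  obtain ⟨P, hP, hPv, ha⟩ := rooted e he hx I hcI
  obtain ⟨Q, hQ, hQv, hb⟩ := rooted e he hy J hcJ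
  have h12 : inner ℝ P Q = 0 := ortho_span he hdis hP hQ
  have h21 : inner ℝ Q P = 0 := by rw [real_inner_comm]; exact h12
  set R := Real.sqrt (v + v') with hR
  have hR0 : 0 < R := Real.sqrt_pos.mpr (by positivity)
  have hR' : Real.sqrt (v' + v) = R := by rw [hR, add_comm]
  have hn : ‖Q - P‖ = R := by
    have : ‖Q - P‖ ^ 2 = v + v' := by
      rw [← real_inner_self_eq_norm_sq]
      simp only [inner_sub_left, inner_sub_right, hPv, hQv, h12, h21]
      ring
    rw [hR, ← this, Real.sqrt_sq (norm_nonneg _)]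
  set u := R⁻¹ • (Q - P) with hu
  have hun : ‖u‖ = 1 := by
    rw [hu, norm_smul, hn, norm_inv, Real.norm_of_nonneg hR0.le, inv_mul_cancel₀ hR0.ne']
  obtain ⟨a, sh1, lv1, ps1, wl1⟩ := ha u hun (by
    intro Z hZ
    rw [hu, real_inner_smul_left, inner_sub_left, ortho_span he hdis.symm hQ hZ]
    ring)
  obtain ⟨b, sh2, lv2, ps2, wl2⟩ := hb (-u) (by rw [norm_neg, hun]) (by
    intro Z hZ
    rw [hR', hu, inner_neg_left, real_inner_smul_left, inner_sub_left, ortho_span he hdis hP hZ]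
    ring)
  refine ⟨(a, b), ?_, ?_, ?_⟩
  · simp only [pshape, sh1, sh2]
  · simp only [lv1, lv2]
    rw [← Multiset.map_add]
    congr 1
    rw [hJ, Finset.sdiff_val]
    exact add_tsub_cancel_of_le (Finset.val_le_iff.mpr hI)
  · simp only [pwlen, wl1, wl2, ps1, ps2]
    have hd : dist (P + ρ • u) (Q + ρ' • -u) = R - ρ - ρ' := by
      rw [dist_comm, dist_eq_norm]
      have h1 : Q - P = R • u := by rw [hu, smul_inv_smul₀ hR0.ne']
      have : Q + ρ' • -u - (P + ρ • u) = (R - ρ - ρ') • u := by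
        rw [sub_smul, sub_smul, ← h1, smul_neg]; abel
      rw [this, norm_smul, hun, mul_one, Real.norm_of_nonneg (by linarith)]
    rw [hd]
    ring

end Pool.Agent.Helper29.Smith
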