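import Mathlib

/-! The key real inequality of the exchange argument. -/

set_option linter.unusedVariables false

namespace Pool.Agent.Helper29.Smith

/-- `z^2`-normalised value of a branch with conductance `g` at an optimal star whose other two
branches have conductances `g1`, `g2`. -/
noncomputable def sf (g g1 g2 : ℝ) : ℝ := 1 + g * (g1 + g2 - g) / (2 * g1 * g2)

lemma sf_mul {g g1 g2 : ℝ} (h1 : 0 < g1) (h2 : 0 < g2) :
    2 * (g1 * g2) * sf g g1 g2 = 2 * (g1 * g2) + g * (g1 + g2 - g) := by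
  unfold sf
  field_simp

lemma sf_three {ga gB Ge : ℝ} (ha : 0 < ga) (hB : 0 < gB) (he : 0 < Ge) (hab : ga ≤ gB) :
    sf gB ga Ge + sf Ge ga gB ≤ 3 := by
  have h : 3 - (sf gB ga Ge + sf Ge ga gB)
      = (gB + Ge - ga) * (gB - Ge) ^ 2 / (2 * ga * gB * Ge) := by
    unfold sf
    field_simp
    ring
  have h2 : 0 ≤ (gB + Ge - ga) * (gB - Ge) ^ 2 / (2 * ga * gB * Ge) := by
    have : 0 ≤ gB + Ge - ga := by linarith
    positivity
  linarith

lemma sf_sub {ga gB Ge : ℝ} (ha : 0 < ga) (hB : 0 < gB) (he : 0 < Ge) :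
    sf gB ga Ge - sf ga gB Ge
      = (gB - ga) * ((Ge * (ga + gB) - ga ^ 2 - gB ^ 2) / (2 * ga * gB * Ge)) := by
  unfold sf
  field_simp
  ring

/-- positivity of the polynomial `N` -/
lemma Npos {P H G e y q K T : ℝ} (hP : 0 < P) (hH : 0 < H) (hG : 0 < G) (he : 0 < e)
    (hey : e < y) (hq : q = G + e) (hK : K = q ^ 2 - e * y) (hK0 : 0 ≤ K) (hT : e ≤ T * y)
    (hT0 : 0 < T) (hrel : G ^ 2 = G * H + 2 * (1 - T) * P) :
    0 < 4 * P * G * q + 2 * P * G * H + K * (H ^ 2 - 2 * P - G * H) + 2 * q * P * (H - G)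
      + 2 * P ^ 2 := by
  have hy : 0 < y := he.trans hey
  -- it suffices to show positivity after multiplication by `G ^ 2 / (2 P)`
  have key : 0 < P * G ^ 2 + H * G ^ 3 + (H * G + G ^ 2) * (e * (y - q)) + H * G * T * K := by
    rcases le_or_gt q y with h | h
    · have h1 : 0 ≤ (H * G + G ^ 2) * (e * (y - q)) := by
        have : 0 ≤ y - q := by linarith
        positivity
      have h2 : 0 < P * G ^ 2 := by positivity
      have h3 : 0 < H * G ^ 3 := by positivity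
      have h4 : 0 ≤ H * G * T * K := by positivity
      linarith
    · have hA : 0 < y * (G ^ 2 - 2 * e * (q - y)) + e * K := by
        rw [hK, hq]
        nlinarith [mul_pos he (sub_pos.mpr hey), sq_nonneg ((y + e) * (G + e) - 2 * e * y),
          mul_pos (mul_pos he (sub_pos.mpr hey)) hy]
      have hB : 0 ≤ y * (G ^ 2 - 2 * e * (q - y)) + 2 * e * (e * (q - y)) := by
        rw [hq]
        nlinarith [sq_nonneg (y * G - e * (y - e)), mul_pos he (sub_pos.mpr hey),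
          mul_nonneg (mul_nonneg he.le (sub_pos.mpr hey).le) (mul_self_nonneg (y - e)),
          mul_nonneg (mul_nonneg he.le hy.le) (mul_self_nonneg (y - e))]
      have hqy : 0 < q - y := by linarith
      have hA' : 0 < y * (G ^ 2 - 2 * e * (q - y) + T * K) := by
        have : e * K ≤ T * y * K := mul_le_mul_of_nonneg_right hT hK0
        nlinarith
      have hB' : 0 ≤ y * (G ^ 2 - 2 * e * (q - y) + 2 * T * (e * (q - y))) := by
        have : e * (e * (q - y)) ≤ T * y * (e * (q - y)) :=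
          mul_le_mul_of_nonneg_right hT (by positivity)
        nlinarith
      have hA'' : 0 < G ^ 2 - 2 * e * (q - y) + T * K := by
        by_contra hc
        have := mul_nonpos_of_nonneg_of_nonpos hy.le (not_lt.mp hc)
        linarith
      have hB'' : 0 ≤ G ^ 2 - 2 * e * (q - y) + 2 * T * (e * (q - y)) := by
        by_contra hc
        have := mul_neg_of_pos_of_neg hy (not_le.mp hc)
        linarith
      have e1 : P * G ^ 2 + H * G ^ 3 + (H * G + G ^ 2) * (e * (y - q)) + H * G * T * K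
          = G * H * (G ^ 2 - 2 * e * (q - y) + T * K)
            + P * (G ^ 2 - 2 * e * (q - y) + 2 * T * (e * (q - y))) := by
        linear_combination (e * (y - q)) * hrel
      rw [e1]
      have := mul_pos (mul_pos hG hH) hA''
      have := mul_nonneg hP.le hB''
      linarith
  have e2 : G ^ 2 * (4 * P * G * q + 2 * P * G * H + K * (H ^ 2 - 2 * P - G * H)
      + 2 * q * P * (H - G) + 2 * P ^ 2)
      = 2 * P * (P * G ^ 2 + H * G ^ 3 + (H * G + G ^ 2) * (e * (y - q)) + H * G * T * K) := by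
    have hPT : 2 * T * P = 2 * P - (G ^ 2 - G * H) := by linear_combination hrel
    have : 2 * P * (H * G * T * K) = H * G * K * (2 * P - (G ^ 2 - G * H)) := by
      rw [← hPT]; ring
    rw [show 2 * P * (P * G ^ 2 + H * G ^ 3 + (H * G + G ^ 2) * (e * (y - q)) + H * G * T * K)
      = 2 * P * (P * G ^ 2 + H * G ^ 3 + (H * G + G ^ 2) * (e * (y - q)))
        + 2 * P * (H * G * T * K) by ring, this, hK, hq]
    ring
  by_contra hc
  have h1 := mul_nonpos_of_nonneg_of_nonpos (sq_nonneg G) (not_lt.mp hc)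
  rw [e2] at h1
  have h2 : 0 < 2 * P * (P * G ^ 2 + H * G ^ 3 + (H * G + G ^ 2) * (e * (y - q))
    + H * G * T * K) := by positivity
  linarith

/-- the strict inequality `F1' > 0` of Case I -/
lemma F1pos {ga gB Ge q1 e y T : ℝ} (hga : 0 < ga) (hab : ga < gB) (hG : 0 < Ge) (he : 0 < e)
    (hey : e < y) (hq : q1 = Ge + e) (hK0 : 0 ≤ q1 ^ 2 - e * y) (hTe : T = sf Ge ga gB)
    (hT : e ≤ T * y) (hT0 : 0 < T) :
    0 < sf ga gB Ge * ((q1 + gB) ^ 2 - e * y) - sf gB ga Ge * ((q1 + ga) ^ 2 - e * y) := by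
  have hgB : 0 < gB := hga.trans hab
  have h1 := sf_mul (g := ga) hgB hG
  have h2 := sf_mul (g := gB) hga hG
  have h3 := sf_mul (g := Ge) hga hgB
  rw [← hTe] at h3
  have hN := Npos (P := ga * gB) (H := ga + gB) (G := Ge) (e := e) (y := y) (q := q1)
    (K := q1 ^ 2 - e * y) (T := T) (by positivity) (by positivity) hG he hey hq rfl hK0 hT hT0
    (by linear_combination h3)
  have e1 : 2 * (ga * gB * Ge) * (sf ga gB Ge * ((q1 + gB) ^ 2 - e * y)
      - sf gB ga Ge * ((q1 + ga) ^ 2 - e * y))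
      = (gB - ga) * (4 * (ga * gB) * Ge * q1 + 2 * (ga * gB) * Ge * (ga + gB)
        + (q1 ^ 2 - e * y) * ((ga + gB) ^ 2 - 2 * (ga * gB) - Ge * (ga + gB))
        + 2 * q1 * (ga * gB) * (ga + gB - Ge) + 2 * (ga * gB) ^ 2) := by
    linear_combination ga * ((q1 + gB) ^ 2 - e * y) * h1 - gB * ((q1 + ga) ^ 2 - e * y) * h2
  by_contra hc
  have h4 := mul_nonpos_of_nonneg_of_nonpos (a := 2 * (ga * gB * Ge)) (by positivity)
    (not_lt.mp hc)
  rw [e1] at h4
  have h5 := mul_pos (sub_pos.mpr hab) hN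
  linarith

/-- `G1 ≥ 0` of Case I -/
lemma G1nonneg {ga gB Ge X Y d n : ℝ} (hga : 0 < ga) (hab : ga < gB) (hG : 0 < Ge)
    (hn : 0 ≤ n) (hT0 : 0 < sf Ge ga gB) (hs : sf ga gB Ge < sf gB ga Ge)
    (hY : Ge ≤ 2 * (Y - d)) (hX : X = Ge + d) :
    0 ≤ (sf ga gB Ge + n) * (X + gB - Y) - (sf gB ga Ge + n) * (X + ga - Y) := by
  have hgB : 0 < gB := hga.trans hab
  have h1 := sf_mul (g := ga) hgB hG
  have h2 := sf_mul (g := gB) hga hG
  have h3 := sf_mul (g := Ge) hga hgB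
  have hpos : 0 < 2 * (ga * gB * Ge) := by positivity
  have hS : 0 < Ge * (ga + gB) - ga ^ 2 - gB ^ 2 := by
    have h4 : 2 * (ga * gB * Ge) * (sf gB ga Ge - sf ga gB Ge)
        = (gB - ga) * (Ge * (ga + gB) - ga ^ 2 - gB ^ 2) := by
      linear_combination gB * h2 - ga * h1
    have h5 : 0 < (gB - ga) * (Ge * (ga + gB) - ga ^ 2 - gB ^ 2) := by
      rw [← h4]
      exact mul_pos hpos (sub_pos.mpr hs)
    exact (pos_iff_pos_of_mul_pos h5).mp (sub_pos.mpr hab)
  -- `2 P Ge * G1 / (gB - ga) = 2 P Ge (sa + n) - S (X + ga - Y)`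
  have e1 : 2 * (ga * gB * Ge) * ((sf ga gB Ge + n) * (X + gB - Y)
      - (sf gB ga Ge + n) * (X + ga - Y))
      = (gB - ga) * (2 * (ga * gB * Ge) + ga ^ 2 * (gB + Ge - ga) + 2 * (ga * gB * Ge) * n
        - (Ge * (ga + gB) - ga ^ 2 - gB ^ 2) * (X + ga - Y)) := by
    linear_combination ga * (X + gB - Y) * h1 - gB * (X + ga - Y) * h2
  have h6 : 0 ≤ 2 * (ga * gB * Ge) + ga ^ 2 * (gB + Ge - ga) + 2 * (ga * gB * Ge) * n
        - (Ge * (ga + gB) - ga ^ 2 - gB ^ 2) * (X + ga - Y) := by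
    have h7 : 0 ≤ 2 * (ga * gB * Ge) * n := by positivity
    have h8 : (Ge * (ga + gB) - ga ^ 2 - gB ^ 2) * (X + ga - Y)
        ≤ (Ge * (ga + gB) - ga ^ 2 - gB ^ 2) * (Ge / 2 + ga) := by
      apply mul_le_mul_of_nonneg_left _ hS.le
      linarith
    have h9 : 0 ≤ 2 * (ga * gB * Ge) + ga ^ 2 * (gB + Ge - ga)
        - (Ge * (ga + gB) - ga ^ 2 - gB ^ 2) * (Ge / 2 + ga) := by
      have h10 : 2 * (2 * (ga * gB * Ge) + ga ^ 2 * (gB + Ge - ga)
        - (Ge * (ga + gB) - ga ^ 2 - gB ^ 2) * (Ge / 2 + ga))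
        = (ga + gB) * (2 * (ga * gB) * sf Ge ga gB) := by
        rw [h3]
        ring
      have : 0 ≤ (ga + gB) * (2 * (ga * gB) * sf Ge ga gB) := by positivity
      linarith
    linarith
  by_contra hc
  have h7 := mul_neg_of_pos_of_neg hpos (not_le.mp hc)
  rw [e1] at h7
  have := mul_nonneg (sub_pos.mpr hab).le h6
  linarith

lemma sub2w {G c w Y : ℝ} (hG : 0 < G) (hc : 0 < c) (hcon : 1 / 2 < w) (hw1 : w < 1)
    (a2 : w * (732 / 1000 * G) ≤ c * (1 - w)) (hYw : c * (2 - w) < Y)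
    (hYY : Y ^ 2 - c ^ 2 < G / 2 * Y) : False := by
  have h0 : 0 < (w - 1 / 2) * (1 - w) := mul_pos (by linarith) (by linarith)
  have h1 : 0 < (3 - w) * w * (732 / 1000) - (2 - w) / 2 := by
    have e1 : (3 - w) * w * (732 / 1000) - (2 - w) / 2
      = 732 / 1000 * ((w - 1 / 2) * (1 - w)) + (1598 / 1000 * w - 634 / 1000) := by ring
    rw [e1]
    linarith
  have b3 : G / 2 * (2 - w) < (3 - w) * (w * (732 / 1000 * G)) := by
    have h2 := mul_pos hG h1
    have e1 : (3 - w) * (w * (732 / 1000 * G)) - G / 2 * (2 - w)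
      = G * ((3 - w) * w * (732 / 1000) - (2 - w) / 2) := by ring
    linarith
  have b2 : (3 - w) * (w * (732 / 1000 * G)) ≤ (3 - w) * (c * (1 - w)) :=
    mul_le_mul_of_nonneg_left a2 (by linarith)
  have b4 : c * (G / 2 * (2 - w)) < c * ((3 - w) * (c * (1 - w))) :=
    mul_lt_mul_of_pos_left (b3.trans_le b2) hc
  have a3 : G / 2 * (c * (2 - w)) < (c * (2 - w)) ^ 2 - c ^ 2 := by
    have b1 : (c * (2 - w)) ^ 2 - c ^ 2 = c * ((3 - w) * (c * (1 - w))) := by ring
    rw [b1]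
    linarith
  have hZ0 : 0 < c * (2 - w) := mul_pos hc (by linarith)
  have a4 : G / 2 < c * (2 - w) := by
    by_contra h
    have h := not_lt.mp h
    have h5 : (c * (2 - w)) * (c * (2 - w)) ≤ G / 2 * (c * (2 - w)) :=
      mul_le_mul_of_nonneg_right h hZ0.le
    have h6 : 0 < c ^ 2 := by positivity
    linarith
  have a5 : 0 < (Y - c * (2 - w)) * (Y + c * (2 - w) - G / 2) :=
    mul_pos (by linarith) (by linarith)
  have a6 : (Y - c * (2 - w)) * (Y + c * (2 - w) - G / 2)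
    = (Y ^ 2 - c ^ 2 - G / 2 * Y) - ((c * (2 - w)) ^ 2 - c ^ 2 - G / 2 * (c * (2 - w))) := by ring
  linarith

/-- the numerical inequality of Case II, second subcase -/
lemma sub2 {G e c y Y q2 gb gC gB ga x q1 Gf : ℝ} (hG : 0 < G) (he : e * y = c ^ 2) (hc : 0 < c)
    (hq1 : q1 = G + e) (hcq1 : c ≤ q1) (hcq2 : c ≤ q2) (hgb : 0 < gb) (hbC : gb ≤ gC)
    (hga : 0 < ga) (hab : ga < gB) (hY : Y = q2 + gC) (hy : y = Y + gb) (hx : x = q1 + ga + gB)
    (hGf : Gf * x = q2 * x - c ^ 2) (hGf0 : 0 < Gf) (hfC : Gf < gC) (hp : 2 * (Y - e) < G)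
    (hH : 732 / 1000 * G ≤ ga + gB) :
    3 * Y * y + 3 / 2 * c ^ 2 < ((q1 + gB) ^ 2 - c ^ 2) * (1 + Gf / gC) := by
  have hgC : 0 < gC := hgb.trans_le hbC
  have hgB : 0 < gB := hga.trans hab
  have hY0 : 0 < Y := by rw [hY]; linarith
  have hy0 : 0 < y := by rw [hy]; linarith
  have he0 : 0 < e := by
    have : 0 < e * y := by rw [he]; positivity
    exact (pos_iff_pos_of_mul_pos this).mpr hy0
  have hx0 : 0 < x := by rw [hx]; linarith
  obtain ⟨w, hw⟩ : ∃ w, w = c / x := ⟨_, rfl⟩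
  have hwx : w * x = c := by rw [hw]; field_simp
  have hw0 : 0 < w := by rw [hw]; positivity
  have hw1 : w < 1 := by
    rw [hw, div_lt_one hx0, hx]
    linarith
  have hGf' : Gf = q2 - c * w := by
    have : Gf * x = (q2 - c * w) * x := by
      rw [hGf]
      linear_combination c * hwx
    exact mul_right_cancel₀ hx0.ne' this
  have hYw : c * (2 - w) < Y := by
    rw [hY]
    linarith
  have heY : e * Y < c ^ 2 := by
    rw [← he]
    apply mul_lt_mul_of_pos_left _ he0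
    rw [hy]; linarith
  have hYY : Y ^ 2 - c ^ 2 < G / 2 * Y := by
    have : (Y - e) * Y < G / 2 * Y := mul_lt_mul_of_pos_right (by linarith) hY0
    linarith
  have hw2 : w ≤ 1 / 2 := by
    by_contra hcon
    have hcon := not_le.mp hcon
    have a1 : w * (ga + gB) ≤ c * (1 - w) := by
      have : c * (1 - w) = w * (x - c) := by linear_combination - hwx
      rw [this, hx]
      apply mul_le_mul_of_nonneg_left _ hw0.le
      linarith
    have a2 : w * (732 / 1000 * G) ≤ c * (1 - w) :=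
      (mul_le_mul_of_nonneg_left hH hw0.le).trans a1
    exact sub2w hG hc hcon hw1 a2 hYw hYY
  have hYc : 3 / 2 * c < Y := by
    have : c * (3 / 2) ≤ c * (2 - w) := mul_le_mul_of_nonneg_left (by linarith) hc.le
    linarith
  have heY2 : e < 4 / 9 * Y := by
    by_contra h
    have h := not_lt.mp h
    have h1 : 4 / 9 * Y * Y ≤ e * Y := mul_le_mul_of_nonneg_right h hY0.le
    have h2 : (3 / 2 * c) * (3 / 2 * c) < Y * Y := mul_self_lt_mul_self (by positivity) hYc
    linarith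
  have hYG : Y < 9 / 10 * G := by linarith
  have hcG : c < 6 / 10 * G := by linarith
  have hec : e < 2 / 3 * c := by
    by_contra h
    have h := not_lt.mp h
    have h1 : 2 / 3 * c * Y ≤ e * Y := mul_le_mul_of_nonneg_right h hY0.le
    have h2 : 2 / 3 * c * (3 / 2 * c) < 2 / 3 * c * Y :=
      mul_lt_mul_of_pos_left hYc (by positivity)
    linarith
  have hyG : y < G + c / 3 := by
    rw [hy]; rw [hY] at hp ⊢; linarith
  have hyG2 : y < 12 / 10 * G := by linarith
  have hc2 : c ^ 2 < 12 / 10 * G * e := by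
    rw [← he]
    have := mul_lt_mul_of_pos_left hyG2 he0
    linarith
  have hr : c / G ≤ Gf / gC := by
    rw [div_le_div_iff₀ hG hgC]
    have h0 : c * w ≤ c * (1 / 2) := mul_le_mul_of_nonneg_left hw2 hc.le
    have h1 : c / 2 ≤ Gf := by rw [hGf']; linarith
    have h2 : gC ≤ G / 2 := by rw [hY] at hp; linarith
    have h3 : c * gC ≤ c * (G / 2) := mul_le_mul_of_nonneg_left h2 hc.le
    have h4 : c / 2 * G ≤ Gf * G := mul_le_mul_of_nonneg_right h1 hG.le
    linarith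
  have hXB : 1366 / 1000 * G + e ≤ q1 + gB := by rw [hq1]; linarith
  have hXB2 : (1366 / 1000 * G + e) ^ 2 ≤ (q1 + gB) ^ 2 :=
    pow_le_pow_left₀ (by positivity) hXB 2
  have hXB3 : 1865 / 1000 * G ^ 2 + 1276 / 1000 * c ^ 2 ≤ (q1 + gB) ^ 2 - c ^ 2 := by
    have e1 : (1366 / 1000 * G + e) ^ 2
      = 1865956 / 1000000 * G ^ 2 + 2732 / 1000 * (G * e) + e ^ 2 := by ring
    have h1 : 0 ≤ e ^ 2 := by positivity
    have h2 : 0 ≤ G ^ 2 := by positivity
    have h3 : 0 ≤ c ^ 2 := by positivity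
    linarith
  have hfin : (1865 / 1000 * G ^ 2 + 1276 / 1000 * c ^ 2) * (1 + c / G)
      ≤ ((q1 + gB) ^ 2 - c ^ 2) * (1 + Gf / gC) := by
    have h0 : 0 ≤ c / G := by positivity
    apply mul_le_mul hXB3 (by linarith) (by positivity)
    have : 0 ≤ 1865 / 1000 * G ^ 2 + 1276 / 1000 * c ^ 2 := by positivity
    linarith
  refine lt_of_lt_of_le ?_ hfin
  have hL : 3 * Y * y + 3 / 2 * c ^ 2 < 3 / 2 * G * (G + c / 3) + 9 / 2 * c ^ 2 := by
    have h1 : 3 * Y * y + 3 / 2 * c ^ 2 = 3 * (Y - e) * y + 9 / 2 * c ^ 2 := by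
      linear_combination 3 * he
    rw [h1]
    have h2 : 3 * (Y - e) * y ≤ 3 * (G / 2) * y :=
      mul_le_mul_of_nonneg_right (by linarith) hy0.le
    have h3 : 3 * (G / 2) * y < 3 * (G / 2) * (G + c / 3) :=
      mul_lt_mul_of_pos_left hyG (by positivity)
    linarith
  refine hL.trans ?_
  have h4 : (1865 / 1000 * G ^ 2 + 1276 / 1000 * c ^ 2) * (1 + c / G)
      = (1865 / 1000 * G ^ 2 + 1276 / 1000 * c ^ 2) * (G + c) / G := by
    field_simp
  rw [h4, lt_div_iff₀ hG]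
  have h5 : 0 < G - 10 / 6 * c := by linarith
  have h6 := mul_pos (mul_pos hG hG) h5
  have h7 := mul_pos (mul_pos hG hc) h5
  have h8 : 0 < G * G * G := by positivity
  have h9 : 0 < c * c * c := by positivity
  linarith [h6, h7, h8, h9]

lemma sf_sum_ge {gb gC Gf : ℝ} (hb : 0 < gb) (hC : 0 < gC) (hf : 0 < Gf) (hfC : Gf < gC)
    (hsC : 0 < sf gC gb Gf) : 1 + Gf / gC ≤ sf gC gb Gf + sf Gf gb gC := by
  have h1 := sf_mul (g := gC) hb hf
  have h2 := sf_mul (g := Gf) hb hC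
  have hU : 0 < 2 * (gb * Gf) + gC * (gb + Gf - gC) := by
    rw [← h1]; positivity
  have hD : 0 ≤ gC * (2 * (gb * Gf) + gC * (gb + Gf - gC)) + Gf ^ 2 * (gC - gb - Gf) := by
    have e1 : (2 * Gf + gC) * (gC * (2 * (gb * Gf) + gC * (gb + Gf - gC))
        + Gf ^ 2 * (gC - gb - Gf))
        = (2 * (gb * Gf) + gC * (gb + Gf - gC)) * ((2 * Gf + gC) * gC - Gf ^ 2)
          + 2 * Gf ^ 3 * (gC - Gf) := by ring
    have h3 : 0 < (2 * Gf + gC) * gC - Gf ^ 2 := by nlinarith
    have h4 : 0 < (2 * (gb * Gf) + gC * (gb + Gf - gC)) * ((2 * Gf + gC) * gC - Gf ^ 2)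
          + 2 * Gf ^ 3 * (gC - Gf) := by
      have := mul_pos hU h3
      have : 0 < 2 * Gf ^ 3 * (gC - Gf) := by
        have : 0 < gC - Gf := by linarith
        positivity
      linarith
    by_contra hcon
    have := mul_neg_of_pos_of_neg (a := 2 * Gf + gC) (by linarith) (not_le.mp hcon)
    rw [e1] at this
    linarith
  have hpos : 0 < 2 * (gb * gC * Gf) := by positivity
  have e2 : 2 * (gb * gC * Gf) * (sf gC gb Gf + sf Gf gb gC - (1 + Gf / gC))
      = gC * (2 * (gb * Gf) + gC * (gb + Gf - gC)) + Gf ^ 2 * (gC - gb - Gf) := by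
    have : 2 * (gb * gC * Gf) * (Gf / gC) = 2 * gb * Gf ^ 2 := by field_simp
    linear_combination gC * h1 + Gf * h2 - this
  by_contra hcon
  have := mul_neg_of_pos_of_neg hpos (by linarith [not_le.mp hcon] :
    sf gC gb Gf + sf Gf gb gC - (1 + Gf / gC) < 0)
  rw [e2] at this
  linarith

/-- Case II is impossible -/
lemma case2 {ga gB Ge gb gC Gf c q1 q2 n11 n12 n22 e y x : ℝ}
    (hga : 0 < ga) (hab : ga < gB) (hGe0 : 0 < Ge) (hgb : 0 < gb) (hbC : gb ≤ gC)
    (hGf0 : 0 < Gf) (hc : 0 < c) (hcq1 : c ≤ q1) (hcq2 : c ≤ q2)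
    (hn11 : 0 ≤ n11) (hn12 : 0 ≤ n12) (hn22 : 0 ≤ n22)
    (hy : y = q2 + gb + gC) (hx : x = q1 + ga + gB) (he : e * y = c ^ 2)
    (hq : q1 = Ge + e) (hGf : Gf * x = q2 * x - c ^ 2)
    (hs : sf ga gB Ge < sf gB ga Ge)
    (hsa : 0 < sf ga gB Ge) (hsB : 0 < sf gB ga Ge) (hTP : 0 < sf Ge ga gB)
    (hsC : 0 < sf gC gb Gf)
    (hP : n11 * y + 2 * n12 * c ≤ sf Ge ga gB * y)
    (hQ : sf Gf gb gC * x ^ 2 = n22 * x ^ 2 + 2 * n12 * c * x +
      (sf ga gB Ge + sf gB ga Ge + n11) * c ^ 2)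
    (h2Y : 2 * (q2 + gC) < q1 + e) :
    (sf gB ga Ge + n11) * ((q2 + gC) ^ 2 - c ^ 2)
      - (sf gC gb Gf + n22) * ((q1 + gB) ^ 2 - c ^ 2)
      + 2 * n12 * c * ((q2 + gC) - (q1 + gB)) < 0 := by
  have hgB : 0 < gB := hga.trans hab
  have hgC : 0 < gC := hgb.trans_le hbC
  have hy0 : 0 < y := by rw [hy]; linarith
  have hx0 : 0 < x := by rw [hx]; linarith
  have he0 : 0 < e := by
    have : 0 < e * y := by rw [he]; positivity
    exact (pos_iff_pos_of_mul_pos this).mpr hy0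
  have hec : e < c := by
    by_contra h
    have h := not_lt.mp h
    have h1 : c * y ≤ e * y := mul_le_mul_of_nonneg_right h hy0.le
    have h2 : c * c < c * y := mul_lt_mul_of_pos_left (by rw [hy]; linarith) hc
    linarith
  obtain ⟨Y, hY⟩ : ∃ Y, Y = q2 + gC := ⟨_, rfl⟩
  obtain ⟨X, hX⟩ : ∃ X, X = q1 + gB := ⟨_, rfl⟩
  rw [← hY] at h2Y ⊢
  rw [← hX]
  have hYc : c < Y := by rw [hY]; linarith
  have hYX : Y < X := by rw [hX]; linarith
  have hXc : c < X := hYc.trans hYX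
  have hY2 : 0 < Y ^ 2 - c ^ 2 := by
    have := mul_pos (sub_pos.mpr hYc) (by linarith : 0 < Y + c)
    linarith
  have hX2 : 0 < X ^ 2 - c ^ 2 := by
    have := mul_pos (sub_pos.mpr hXc) (by linarith : 0 < X + c)
    linarith
  have h3 := sf_three hga hgB hGe0 hab.le
  -- bound for the branch `B`
  have hAB : (sf gB ga Ge + n11) * y + 2 * n12 * c ≤ 3 * y := by
    have := mul_le_mul_of_nonneg_right h3 hy0.le
    linarith
  have h2n : 0 ≤ 2 * n12 * c := by positivity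
  rcases le_or_gt gC Gf with hCf | hCf
  · -- subcase 1
    have hAB3 : sf gB ga Ge + n11 ≤ 3 := by
      by_contra h
      have := mul_lt_mul_of_pos_right (not_le.mp h) hy0
      linarith
    have hsC2 : 3 / 2 ≤ sf gC gb Gf := by
      have h1 := sf_mul (g := gC) hgb hGf0
      by_contra h
      have h2 := mul_lt_mul_of_pos_left (not_le.mp h) (by positivity : 0 < 2 * (gb * Gf))
      rw [h1] at h2
      have h4 := mul_nonneg (sub_nonneg.mpr hbC) (sub_nonneg.mpr hCf)
      linarith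
    have h4 : (sf gB ga Ge + n11) * (Y ^ 2 - c ^ 2) ≤ 3 * (Y ^ 2 - c ^ 2) :=
      mul_le_mul_of_nonneg_right hAB3 hY2.le
    have h5 : 3 / 2 * (X ^ 2 - c ^ 2) ≤ (sf gC gb Gf + n22) * (X ^ 2 - c ^ 2) :=
      mul_le_mul_of_nonneg_right (by linarith) hX2.le
    have h6 : 2 * n12 * c * (Y - X) ≤ 0 :=
      mul_nonpos_of_nonneg_of_nonpos h2n (by linarith)
    have h7 : (2 * Y) * (2 * Y) < (q1 + e) * (q1 + e) :=
      mul_self_lt_mul_self (by linarith) h2Y
    have h8 : 0 ≤ (q1 - e) ^ 2 := sq_nonneg _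
    have h9 : e * e < c * c := mul_self_lt_mul_self he0.le hec
    have h10 : q1 * q1 ≤ X * X := mul_self_le_mul_self (by linarith) (by linarith)
    linarith
  · -- subcase 2
    have hgaG : ga ≤ Ge := by
      have h1 := sf_mul (g := ga) hgB hGe0
      have h2 := sf_mul (g := gB) hga hGe0
      have h4 : 2 * (ga * gB * Ge) * (sf gB ga Ge - sf ga gB Ge)
          = (gB - ga) * (Ge * (ga + gB) - ga ^ 2 - gB ^ 2) := by
        linear_combination gB * h2 - ga * h1
      have h5 : 0 < (gB - ga) * (Ge * (ga + gB) - ga ^ 2 - gB ^ 2) := by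
        rw [← h4]
        exact mul_pos (by positivity) (sub_pos.mpr hs)
      have h6 : 0 < Ge * (ga + gB) - ga ^ 2 - gB ^ 2 :=
        (pos_iff_pos_of_mul_pos h5).mp (sub_pos.mpr hab)
      by_contra h
      have h := not_le.mp h
      have h7 : Ge * (ga + gB) < ga * (ga + gB) := mul_lt_mul_of_pos_right h (by linarith)
      have h8 : ga * gB < gB * gB := mul_lt_mul_of_pos_right hab hgB
      linarith
    have hsa2 : sf ga gB Ge ≤ 3 / 2 := by
      have h1 := sf_mul (g := ga) hgB hGe0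
      by_contra h
      have h2 := mul_lt_mul_of_pos_left (not_le.mp h) (by positivity : 0 < 2 * (gB * Ge))
      rw [h1] at h2
      have h4 := mul_nonneg (sub_nonneg.mpr hab.le) (sub_nonneg.mpr hgaG)
      linarith
    have hH : 732 / 1000 * Ge ≤ ga + gB := by
      have h1 := sf_mul (g := Ge) hga hgB
      have h2 : 0 < 2 * (ga * gB) * sf Ge ga gB := by positivity
      rw [h1] at h2
      have h4 : 0 ≤ (ga - gB) ^ 2 := sq_nonneg _
      by_contra h
      have h := not_le.mp h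
      have h5 : (ga + gB) * (ga + gB) < (732 / 1000 * Ge) * (732 / 1000 * Ge) :=
        mul_self_lt_mul_self (by linarith) h
      have h6 : (ga + gB) * Ge < 732 / 1000 * Ge * Ge := mul_lt_mul_of_pos_right h hGe0
      have h7 : 0 < Ge * Ge := by positivity
      linarith
    have hS := sf_sum_ge hgb hgC hGf0 hCf hsC
    have hnum := sub2 (Y := Y) (y := y) (gb := gb) hGe0 he hc hq hcq1 hcq2 hgb hbC hga hab hY
      (by rw [hy, hY]; ring) hx hGf hGf0 hCf (by linarith) hH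
    rw [← hX] at hnum
    -- the main estimate
    have hXx : X ≤ x := by rw [hX, hx]; linarith
    have hYy : Y ≤ y := by rw [hY, hy]; linarith
    have hABpos : 0 < sf gB ga Ge + n11 := by linarith
    have e1 : (sf gB ga Ge + n11) * Y ^ 2 + 2 * n12 * c * Y ≤ 3 * Y * y := by
      have h1 : (sf gB ga Ge + n11) * Y ≤ (sf gB ga Ge + n11) * y :=
        mul_le_mul_of_nonneg_left hYy hABpos.le
      have h2 : ((sf gB ga Ge + n11) * Y + 2 * n12 * c) * Y ≤ (3 * y) * Y :=
        mul_le_mul_of_nonneg_right (by linarith) (by linarith)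
      linarith
    have e2 : (X ^ 2 - c ^ 2) * (sf gC gb Gf + sf Gf gb gC)
        ≤ (sf gC gb Gf + n22) * (X ^ 2 - c ^ 2) + 2 * n12 * c * X
          + (sf ga gB Ge + (sf gB ga Ge + n11)) * c ^ 2 := by
      have h1 : (X ^ 2 - c ^ 2) * (n22 * x ^ 2 + 2 * n12 * c * x +
          (sf ga gB Ge + sf gB ga Ge + n11) * c ^ 2)
          ≤ (n22 * (X ^ 2 - c ^ 2) + 2 * n12 * c * X
          + (sf ga gB Ge + (sf gB ga Ge + n11)) * c ^ 2) * x ^ 2 := by
        have h2 : X ^ 2 - c ^ 2 ≤ x ^ 2 := by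
          have : X * X ≤ x * x := mul_self_le_mul_self (by linarith) hXx
          have : 0 ≤ c ^ 2 := sq_nonneg c
          linarith
        have h3 : (X ^ 2 - c ^ 2) * x ≤ X * x ^ 2 := by
          have h5 : X * X ≤ X * x := mul_le_mul_of_nonneg_left hXx (by linarith)
          have h6 : (X ^ 2 - c ^ 2) ≤ X * x := by
            have : 0 ≤ c ^ 2 := sq_nonneg c
            linarith
          have h7 := mul_le_mul_of_nonneg_right h6 hx0.le
          linarith
        have h4 : 0 ≤ sf ga gB Ge + sf gB ga Ge + n11 := by linarith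
        have h5 := mul_le_mul_of_nonneg_left h2
          (mul_nonneg h4 (sq_nonneg c))
        have h6 := mul_le_mul_of_nonneg_left h3 h2n
        linarith
      rw [← hQ] at h1
      have h2 : ((X ^ 2 - c ^ 2) * sf Gf gb gC) * x ^ 2
          ≤ (n22 * (X ^ 2 - c ^ 2) + 2 * n12 * c * X
          + (sf ga gB Ge + (sf gB ga Ge + n11)) * c ^ 2) * x ^ 2 := by linarith
      have h3 := le_of_mul_le_mul_right h2 (by positivity)
      linarith
    have e3 : (X ^ 2 - c ^ 2) * (1 + Gf / gC)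
        ≤ (X ^ 2 - c ^ 2) * (sf gC gb Gf + sf Gf gb gC) :=
      mul_le_mul_of_nonneg_left hS hX2.le
    have e4 : sf ga gB Ge * c ^ 2 ≤ 3 / 2 * c ^ 2 :=
      mul_le_mul_of_nonneg_right hsa2 (sq_nonneg c)
    linarith

theorem pstep {ga gB Ge gb gC Gf c q1 q2 n11 n12 n22 : ℝ}
    (hga : 0 < ga) (hab : ga < gB) (hGe0 : 0 < Ge) (hgb : 0 < gb) (hbC : gb ≤ gC)
    (hGf0 : 0 < Gf) (hc : 0 < c) (hcq1 : c ≤ q1) (hcq2 : c ≤ q2)
    (hn11 : 0 ≤ n11) (hn12 : 0 ≤ n12) (hn22 : 0 ≤ n22)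
    (hGe : Ge = q1 - c ^ 2 / (q2 + gb + gC)) (hGf : Gf = q2 - c ^ 2 / (q1 + ga + gB))
    (hsa : 0 < sf ga gB Ge) (hsB : 0 < sf gB ga Ge) (hTP : 0 < sf Ge ga gB)
    (hsb : 0 < sf gb gC Gf) (hsC : 0 < sf gC gb Gf) (hTQ : 0 < sf Gf gb gC)
    (hP : sf Ge ga gB = n11 + 2 * n12 * (c / (q2 + gb + gC)) +
      (sf gb gC Gf + sf gC gb Gf + n22) * (c / (q2 + gb + gC)) ^ 2)
    (hQ : sf Gf gb gC = n22 + 2 * n12 * (c / (q1 + ga + gB)) +
      (sf ga gB Ge + sf gB ga Ge + n11) * (c / (q1 + ga + gB)) ^ 2)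
    (hE : 0 ≤ (sf gB ga Ge + n11) * ((q2 + gC) ^ 2 - c ^ 2)
      - (sf gC gb Gf + n22) * ((q1 + gB) ^ 2 - c ^ 2)
      + 2 * n12 * c * ((q2 + gC) - (q1 + gB))) :
    0 < (sf ga gB Ge + n11) * ((q2 + gC) ^ 2 - c ^ 2)
      - (sf gC gb Gf + n22) * ((q1 + ga) ^ 2 - c ^ 2)
      + 2 * n12 * c * ((q2 + gC) - (q1 + ga)) := by
  have hgB : 0 < gB := hga.trans hab
  have hgC : 0 < gC := hgb.trans_le hbC
  have hy0 : 0 < q2 + gb + gC := by linarith
  have hx0 : 0 < q1 + ga + gB := by linarith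
  have hYc : c < q2 + gC := by linarith
  have hY2 : 0 < (q2 + gC) ^ 2 - c ^ 2 := by
    have := mul_pos (sub_pos.mpr hYc) (by linarith : 0 < q2 + gC + c)
    linarith
  have hAQ : 0 < sf gC gb Gf + n22 := by linarith
  have hXX : 0 < (q1 + gB) ^ 2 - (q1 + ga) ^ 2 := by
    have := mul_pos (sub_pos.mpr hab) (by linarith : 0 < 2 * q1 + ga + gB)
    linarith
  rcases le_or_gt (sf gB ga Ge) (sf ga gB Ge) with hs | hs
  · -- Case 0
    have h1 := mul_nonneg (sub_nonneg.mpr hs) hY2.le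
    have h2 := mul_pos hAQ hXX
    have h3 : 0 ≤ 2 * n12 * c * (gB - ga) := by
      have : 0 ≤ gB - ga := by linarith
      positivity
    linarith
  obtain ⟨e, he⟩ : ∃ e, e = c ^ 2 / (q2 + gb + gC) := ⟨_, rfl⟩
  have hey : e * (q2 + gb + gC) = c ^ 2 := by rw [he]; field_simp
  have hq : q1 = Ge + e := by rw [hGe, he]; ring
  have he0 : 0 < e := by rw [he]; positivity
  have hGfx : Gf * (q1 + ga + gB) = q2 * (q1 + ga + gB) - c ^ 2 := by
    rw [hGf]; field_simp
  -- consequences of `hP`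
  have hsb1 : 1 ≤ sf gb gC Gf := by
    have : 0 ≤ gb * (gC + Gf - gb) / (2 * gC * Gf) := by
      have : 0 ≤ gC + Gf - gb := by linarith
      positivity
    unfold sf
    linarith
  have hP2 : sf Ge ga gB * (q2 + gb + gC) ^ 2 = n11 * (q2 + gb + gC) ^ 2
      + 2 * n12 * c * (q2 + gb + gC) + (sf gb gC Gf + sf gC gb Gf + n22) * c ^ 2 := by
    rw [hP]; field_simp
  have hQ2 : sf Gf gb gC * (q1 + ga + gB) ^ 2 = n22 * (q1 + ga + gB) ^ 2
      + 2 * n12 * c * (q1 + ga + gB) + (sf ga gB Ge + sf gB ga Ge + n11) * c ^ 2 := by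
    rw [hQ]; field_simp
  have hc2 : 0 < c ^ 2 := by positivity
  have h2n : 0 ≤ 2 * n12 * c := by positivity
  have hPy : n11 * (q2 + gb + gC) + 2 * n12 * c ≤ sf Ge ga gB * (q2 + gb + gC) := by
    have h1 : 0 ≤ (sf gb gC Gf + sf gC gb Gf + n22) * c ^ 2 := by positivity
    have h2 : (n11 * (q2 + gb + gC) + 2 * n12 * c) * (q2 + gb + gC)
        ≤ (sf Ge ga gB * (q2 + gb + gC)) * (q2 + gb + gC) := by linarith
    exact le_of_mul_le_mul_right h2 hy0
  have hTy : e ≤ sf Ge ga gB * (q2 + gb + gC) := by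
    have h1 : 0 ≤ n11 * (q2 + gb + gC) ^ 2 + 2 * n12 * c * (q2 + gb + gC) := by positivity
    have h2 : 1 * c ^ 2 ≤ (sf gb gC Gf + sf gC gb Gf + n22) * c ^ 2 :=
      mul_le_mul_of_nonneg_right (by linarith) hc2.le
    have h3 : e * (q2 + gb + gC) ≤ (sf Ge ga gB * (q2 + gb + gC)) * (q2 + gb + gC) := by
      linarith
    exact le_of_mul_le_mul_right h3 hy0
  rcases lt_or_ge (2 * (q2 + gC)) (q1 + e) with h2Y | h2Y
  · -- Case II
    have := case2 (e := e) hga hab hGe0 hgb hbC hGf0 hc hcq1 hcq2 hn11 hn12 hn22 rfl rfl hey hq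
      hGfx hs hsa hsB hTP hsC hPy hQ2 h2Y
    linarith
  · -- Case I
    have hey2 : e < q2 + gb + gC := by
      by_contra h
      have h := not_lt.mp h
      have h1 : (q2 + gb + gC) * (q2 + gb + gC) ≤ e * (q2 + gb + gC) :=
        mul_le_mul_of_nonneg_right h hy0.le
      have h2 : c * c < (q2 + gb + gC) * (q2 + gb + gC) :=
        mul_self_lt_mul_self hc.le (by linarith)
      linarith
    have hK0 : 0 ≤ q1 ^ 2 - e * (q2 + gb + gC) := by
      rw [hey]
      have : c * c ≤ q1 * q1 := mul_self_le_mul_self hc.le hcq1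
      linarith
    have hF := F1pos (y := q2 + gb + gC) hga hab hGe0 he0 hey2 hq hK0 rfl hTy hTP
    rw [hey] at hF
    have hG := G1nonneg (X := q1) (Y := q2 + gC) (d := e) hga hab hGe0 hn11 hTP hs
      (by linarith) hq
    have hF1 : 0 < (sf ga gB Ge + n11) * ((q1 + gB) ^ 2 - c ^ 2)
        - (sf gB ga Ge + n11) * ((q1 + ga) ^ 2 - c ^ 2) := by
      have := mul_nonneg hn11 hXX.le
      linarith
    have hAB : 0 < sf gB ga Ge + n11 := by linarith
    have hAa : 0 < sf ga gB Ge + n11 := by linarith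
    have e1 := mul_nonneg hAa.le hE
    have e2 := mul_pos hAQ hF1
    have e3 := mul_nonneg h2n hG
    by_contra hcon
    have e4 := mul_nonpos_of_nonneg_of_nonpos hAB.le (not_lt.mp hcon)
    linarith

end Pool.Agent.Helper29.Smith
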