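import Pool.Agent.Helper29.Smith.Swap
import Pool.Agent.Helper29.Smith.PStep

/-! The exchange theorem. -/

set_option linter.unusedVariables false
set_option linter.unusedSectionVars false

namespace Pool.Agent.Helper29.Smith

open Pool.Agent.Helper29.Steiner BT

variable {α : Type} {val : α → Set (ℝ × ℝ)}

/-- symmetric closed form of the total -/
noncomputable def closedF (D : TPD) (gP sP KP gQ sQ KQ : ℝ) : ℝ :=
  D.k + KP + KQ - ((D.n11 + sP) * (D.q2 + gQ) + (D.n22 + sQ) * (D.q1 + gP) + 2 * D.n12 * D.c) /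
    ((D.q1 + gP) * (D.q2 + gQ) - D.c ^ 2)

lemma closedF_tr (D : TPD) (gP sP KP gQ sQ KQ : ℝ) :
    closedF D.tr gQ sQ KQ gP sP KP = closedF D gP sP KP gQ sQ KQ := by
  simp only [closedF, TPD.tr]
  have e1 : (D.q2 + gQ) * (D.q1 + gP) - D.c ^ 2 = (D.q1 + gP) * (D.q2 + gQ) - D.c ^ 2 := by ring
  rw [e1]
  ring

lemma closedF_eq {D : TPD} (hD : D.Ok) {gP sP KP gQ sQ KQ : ℝ} (hP : 0 < gP) (hQ : 0 < gQ) :
    D.K gP sP KP + KQ - (D.S gP sP + sQ) / (D.H gP + gQ) = closedF D gP sP KP gQ sQ KQ := by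
  obtain ⟨hc, hq1, hq2, _, _, _⟩ := hD
  unfold closedF TPD.K TPD.S TPD.H
  obtain ⟨x, hx⟩ : ∃ x, x = D.q1 + gP := ⟨_, rfl⟩
  obtain ⟨y, hy⟩ : ∃ y, y = D.q2 + gQ := ⟨_, rfl⟩
  have hx0 : D.c < x := by rw [hx]; linarith
  have hy0 : D.c < y := by rw [hy]; linarith
  have hxp : 0 < x := hc.trans hx0
  obtain ⟨δ, hδ⟩ : ∃ δ, δ = x * y - D.c ^ 2 := ⟨_, rfl⟩
  have hδ0 : 0 < δ := by rw [hδ]; nlinarith
  have e1 : D.q2 - D.c ^ 2 / x + gQ = δ / x := by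
    rw [hδ, hy]; field_simp; ring
  rw [← hx, ← hy, e1, ← hδ]
  have e2 : y = (δ + D.c ^ 2) / x := by rw [hδ]; field_simp; ring
  rw [e2]
  field_simp
  ring

lemma tot_closed {D : TPD} (hD : D.Ok) {p1 p2 r1 r2 R : ℝ} {sa sB sb sC : ℝ × ℝ}
    (hp1 : 0 < p1) (hp2 : 0 < p2) (hr1 : 0 < r1) (hr2 : 0 < r2)
    (hR : R = r1 + 1 / (D.H (1 / p1 + 1 / p2) + 1 / r2)) :
    tot D p1 r2 sa sC p2 R sB sb =
      closedF D (1 / p1 + 1 / p2) (sa.1 / p1 ^ 2 + sB.1 / p2 ^ 2)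
        ((sa.2 + p1 + sa.1 / p1) + (sB.2 + p2 + sB.1 / p2)) (1 / r1 + 1 / r2)
        (sb.1 / r1 ^ 2 + sC.1 / r2 ^ 2) ((sb.2 + r1 + sb.1 / r1) + (sC.2 + r2 + sC.1 / r2)) := by
  have hG : 0 < 1 / p1 + 1 / p2 := by positivity
  rw [← closedF_eq hD hG (by positivity)]
  have hH := TPD.H_pos hD hG
  unfold tot
  generalize D.K (1 / p1 + 1 / p2) (sa.1 / p1 ^ 2 + sB.1 / p2 ^ 2)
        ((sa.2 + p1 + sa.1 / p1) + (sB.2 + p2 + sB.1 / p2)) = k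
  generalize D.S (1 / p1 + 1 / p2) (sa.1 / p1 ^ 2 + sB.1 / p2 ^ 2) = s at *
  generalize D.H (1 / p1 + 1 / p2) = g at *
  have hg : 0 < g + 1 / r2 := by positivity
  obtain ⟨g', hg'⟩ : ∃ g', g' = g + 1 / r2 := ⟨_, rfl⟩
  rw [← hg'] at hg hR ⊢
  have e1 : g + (1 / r1 + 1 / r2) = g' + 1 / r1 := by rw [hg']; ring
  rw [e1, hR]
  field_simp
  ring

lemma star_total {r1 r2 r3 c1 c2 c3 : ℝ} (h1 : 0 < r1) (h2 : 0 < r2) (h3 : 0 < r3) :
    (c3 + r3 + sv r3 r1 r2 / r3) + ((c1 + r1 + sv r1 r2 r3 / r1) + (c2 + r2 + sv r2 r1 r3 / r2)) -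
      (sv r3 r1 r2 / r3 ^ 2 + (sv r1 r2 r3 / r1 ^ 2 + sv r2 r1 r3 / r2 ^ 2)) /
        (1 / r3 + (1 / r1 + 1 / r2)) = c1 + c2 + c3 + 2 * (r1 + r2 + r3) := by
  unfold sv
  field_simp
  ring

lemma sf_eq {p1 p2 p3 : ℝ} (h1 : 0 < p1) (h2 : 0 < p2) (h3 : 0 < p3) :
    sf (1 / p1) (1 / p2) (1 / p3) = sv p1 p2 p3 / p1 ^ 2 := by
  unfold sf sv
  field_simp
  ring

lemma UEq_chain_rev (M : List (BT α)) : ∀ X Y : BT α, UEq (chain X M, Y) (chain Y M.reverse, X) := by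
  induction M with
  | nil => intro X Y; exact UEq.comm _ _
  | cons m M ih =>
    intro X Y
    have e1 : chain X (m :: M) = chain (node X m) M := rfl
    have e2 : chain Y (m :: M).reverse = node (chain Y M.reverse) m := by
      rw [List.reverse_cons, chain_snoc]
    rw [e1, e2]
    exact (ih _ _).trans ((UEq.swr X m _).trans (UEq.rot' _ _ _))

/-- legs are ordered as the values -/
lemma sv_lt {p1 p2 p3 : ℝ} (h1 : 0 < p1) (h2 : 0 < p2) (h3 : 0 < p3)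
    (h : sv p2 p1 p3 < sv p1 p2 p3) : p2 < p1 := by
  by_contra hc
  push Not at hc
  unfold sv at h
  nlinarith [mul_nonneg (sub_nonneg.2 hc) (by positivity : 0 ≤ p1 + p2 + p3)]

lemma sv_le {p1 p2 p3 : ℝ} (h1 : 0 < p1) (h2 : 0 < p2) (h3 : 0 < p3)
    (h : sv p2 p1 p3 ≤ sv p1 p2 p3) : p2 ≤ p1 := by
  by_contra hc
  push Not at hc
  unfold sv at h
  nlinarith [mul_pos (sub_pos.2 hc) (by positivity : 0 < p1 + p2 + p3)]

/-- Exchange theorem. For the tree `T = (a, B | M | b, C)` there is a minimiser, in which the four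
branches have states `sa, sB, sb, sC`, such that if `sB.1 < sb.1 ≤ sa.1`, `sC.1 ≤ sb.1` and
`sC.1 < sa.1` then one of the two exchanged trees is strictly shorter. -/
theorem exchange_tree (h : Adm val) (a B b C : BT α) (M : List (BT α)) :
    ∃ sa sB sb sC : ℝ × ℝ,
      (∃ y t, MP val a sa y t) ∧ (∃ y t, MP val B sB y t) ∧
      (∃ y t, MP val b sb y t) ∧ (∃ y t, MP val C sC y t) ∧
      (sB.1 < sb.1 → sb.1 ≤ sa.1 → sC.1 ≤ sb.1 → sC.1 < sa.1 →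
        L2 val (chain (node a b) M, node B C) < L2 val (chain (node a B) M, node b C) ∨
        L2 val (chain (node C B) M, node b a) < L2 val (chain (node a B) M, node b C)) := by
  obtain ⟨S, t, hm⟩ := exists_MP h (chain (node a B) M) (node b C)
  obtain ⟨sb, hb, sC, hC, ht, mb, mC⟩ := MP_node h (MP_symm hm)
  have qb := (SS_adm h _).2.2 _ hb
  have qC := (SS_adm h _).2.2 _ hC
  have qS := (SS_adm h _).2.2 _ hm.1
  have hm' := hm
  rw [ht] at hm'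
  obtain ⟨sa, ha, sB, hB, D, p1, p2, p3, r1, r2, r3, hTP, hp1, hp2, hp3, hr1, hr2, hr3, er1, er2,
    er3, e1, e2, e3, g1, g2, g3, g4, g5, ma, mB⟩ :=
    chain_min h a B M b C sb sC S _ hb hC (w0_mem qb qC qS) hm'
  obtain ⟨f1, f2, f3⟩ := sv_zl3 qb qC qS
  rw [← er1, ← er2, ← er3] at f1 f2 f3
  refine ⟨sa, sB, sb, sC, ma, mB, ⟨_, _, mb⟩, ⟨_, _, mC⟩, ?_⟩
  intro h1 h2 h3 h4
  have hG : 0 < 1 / p1 + 1 / p2 := by positivity
  have hG2 : 0 < 1 / r1 + 1 / r2 := by positivity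
  -- the length as closed form
  have hL : L2 val (chain (node a B) M, node b C) =
      closedF D (1 / p1 + 1 / p2) (sa.1 / p1 ^ 2 + sB.1 / p2 ^ 2)
        ((sa.2 + p1 + sa.1 / p1) + (sB.2 + p2 + sB.1 / p2)) (1 / r1 + 1 / r2)
        (sb.1 / r1 ^ 2 + sC.1 / r2 ^ 2) ((sb.2 + r1 + sb.1 / r1) + (sC.2 + r2 + sC.1 / r2)) := by
    rw [← closedF_eq hTP.ok hG hG2, ← g3, ← g4]
    have g5' : D.K (1 / p1 + 1 / p2) (sa.1 / p1 ^ 2 + sB.1 / p2 ^ 2)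
        ((sa.2 + p1 + sa.1 / p1) + (sB.2 + p2 + sB.1 / p2)) = S.2 + r3 + S.1 / r3 := by
      rw [g5]; field_simp; ring
    have k1 : L2 val (chain (node a B) M, node b C) = sb.2 + sC.2 + S.2 + 2 * (r1 + r2 + r3) := by
      rw [← hm.2.2, fin2_comm, ht]
      have := star_fin_eq qb qC qS
      unfold w0 at this
      rw [this, ← zl_sum qb qC qS, ← er1, ← er2, ← er3]
    rw [g5', k1, ← star_total hr1 hr2 hr3, f1, f2, f3]
  have T1 : tot D p1 r2 sa sC p2 (r1 + 1 / (D.H (1 / p1 + 1 / p2) + 1 / r2)) sB sb =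
      L2 val (chain (node a B) M, node b C) := by
    rw [tot_closed hTP.ok hp1 hp2 hr1 hr2 rfl, hL]
  have T2 : tot D.tr r1 p2 sb sB r2 (p1 + 1 / (D.tr.H (1 / r1 + 1 / r2) + 1 / p2)) sC sa =
      L2 val (chain (node a B) M, node b C) := by
    rw [tot_closed hTP.ok.tr hr1 hr2 hp1 hp2 rfl, hL, closedF_tr]
  have hR1 : 0 < r1 + 1 / (D.H (1 / p1 + 1 / p2) + 1 / r2) := by
    have := TPD.H_pos hTP.ok hG
    positivity
  have hR2 : 0 < p1 + 1 / (D.tr.H (1 / r1 + 1 / r2) + 1 / p2) := by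
    have := TPD.H_pos hTP.ok.tr hG2
    positivity
  -- relations in terms of conductances
  have s1 : sf (1 / p1) (1 / p2) (1 / p3) = sa.1 / p1 ^ 2 := by rw [sf_eq hp1 hp2 hp3, e1]
  have s2 : sf (1 / p2) (1 / p1) (1 / p3) = sB.1 / p2 ^ 2 := by rw [sf_eq hp2 hp1 hp3, e2]
  have s3 : sf (1 / p3) (1 / p1) (1 / p2) = sv p3 p1 p2 / p3 ^ 2 := sf_eq hp3 hp1 hp2
  have s4 : sf (1 / r1) (1 / r2) (1 / r3) = sb.1 / r1 ^ 2 := by rw [sf_eq hr1 hr2 hr3, f1]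
  have s5 : sf (1 / r2) (1 / r1) (1 / r3) = sC.1 / r2 ^ 2 := by rw [sf_eq hr2 hr1 hr3, f2]
  have s6 : sf (1 / r3) (1 / r1) (1 / r2) = S.1 / r3 ^ 2 := by rw [sf_eq hr3 hr1 hr2, f3]
  have qa := (SS_adm h _).2.2 _ ha
  have qB := (SS_adm h _).2.2 _ hB
  have l1 : p2 < p1 := sv_lt hp1 hp2 hp3 (by rw [← e1, ← e2]; linarith)
  have l2 : r2 ≤ r1 := sv_le hr1 hr2 hr3 (by rw [f1, f2]; exact h3)
  have hgab : 1 / p1 < 1 / p2 := one_div_lt_one_div_of_lt hp2 l1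
  have hgbC : 1 / r1 ≤ 1 / r2 := one_div_le_one_div_of_le hr2 l2
  have hGe : 1 / p3 = D.q1 - D.c ^ 2 / (D.q2 + 1 / r1 + 1 / r2) := by
    rw [g1]; simp only [TPD.H, TPD.tr]; rw [add_assoc]
  have hGf : 1 / r3 = D.q2 - D.c ^ 2 / (D.q1 + 1 / p1 + 1 / p2) := by
    rw [g3]; simp only [TPD.H]; rw [add_assoc]
  have hPP : sf (1 / p3) (1 / p1) (1 / p2) = D.n11 + 2 * D.n12 * (D.c / (D.q2 + 1 / r1 + 1 / r2)) +
      (sf (1 / r1) (1 / r2) (1 / r3) + sf (1 / r2) (1 / r1) (1 / r3) + D.n22) *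
        (D.c / (D.q2 + 1 / r1 + 1 / r2)) ^ 2 := by
    rw [s3, g2, s4, s5]; simp only [TPD.S, TPD.tr]; rw [add_assoc D.q2]; ring
  have hQQ : sf (1 / r3) (1 / r1) (1 / r2) = D.n22 + 2 * D.n12 * (D.c / (D.q1 + 1 / p1 + 1 / p2)) +
      (sf (1 / p1) (1 / p2) (1 / p3) + sf (1 / p2) (1 / p1) (1 / p3) + D.n11) *
        (D.c / (D.q1 + 1 / p1 + 1 / p2)) ^ 2 := by
    rw [s6, g4, s1, s2]; simp only [TPD.S]; rw [add_assoc D.q1]; ring
  obtain ⟨hc, hq1, hq2, hn11, hn12, hn22⟩ := hTP.ok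
  have P1 : 0 < 1 / p1 := by positivity
  have P2 : 0 < 1 / p2 := by positivity
  have P3 : 0 < 1 / p3 := by positivity
  have Q1 : 0 < 1 / r1 := by positivity
  have Q2 : 0 < 1 / r2 := by positivity
  have Q3 : 0 < 1 / r3 := by positivity
  have t1 : 0 < sf (1 / p1) (1 / p2) (1 / p3) := by rw [s1]; positivity
  have t2 : 0 < sf (1 / p2) (1 / p1) (1 / p3) := by rw [s2]; positivity
  have t3 : 0 < sf (1 / p3) (1 / p1) (1 / p2) := by rw [s3]; positivity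
  have t4 : 0 < sf (1 / r1) (1 / r2) (1 / r3) := by rw [s4]; positivity
  have t5 : 0 < sf (1 / r2) (1 / r1) (1 / r3) := by rw [s5]; positivity
  have t6 : 0 < sf (1 / r3) (1 / r1) (1 / r2) := by rw [s6]; positivity
  -- first exchange
  have first : 0 < (sf (1 / p1) (1 / p2) (1 / p3) + D.n11) * ((D.q2 + 1 / r2) ^ 2 - D.c ^ 2)
      - (sf (1 / r2) (1 / r1) (1 / r3) + D.n22) * ((D.q1 + 1 / p1) ^ 2 - D.c ^ 2)
      + 2 * D.n12 * D.c * ((D.q2 + 1 / r2) - (D.q1 + 1 / p1)) →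
      L2 val (chain (node a b) M, node B C) < L2 val (chain (node a B) M, node b C) := by
    intro hE
    rw [s1, s5] at hE
    have key := swap_step h hTP ha hb hB hC hp1 hr2 hp2 hR1 h1 hE
    rw [T1] at key
    rw [L2_ueq h ((UEq.swr B C _).trans (UEq.rot' _ _ _))]
    exact key
  have second : 0 < (sf (1 / r1) (1 / r2) (1 / r3) + D.n22) * ((D.q1 + 1 / p2) ^ 2 - D.c ^ 2)
      - (sf (1 / p2) (1 / p1) (1 / p3) + D.n11) * ((D.q2 + 1 / r1) ^ 2 - D.c ^ 2)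
      + 2 * D.n12 * D.c * ((D.q1 + 1 / p2) - (D.q2 + 1 / r1)) →
      L2 val (chain (node C B) M, node b a) < L2 val (chain (node a B) M, node b C) := by
    intro hE
    rw [s4, s2] at hE
    have key := swap_step h hTP.tr hb ha hC hB hr1 hp2 hr2 hR2 h4 hE
    rw [T2] at key
    have u1 : UEq (chain (node C B) M, node b a) (node (chain (node b a) M.reverse) B, C) :=
      (UEq_chain_rev M _ _).trans ((UEq.swr C B _).trans (UEq.rot' _ _ _))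
    rw [L2_ueq h u1]
    exact key
  rcases le_or_gt 0 ((sf (1 / p2) (1 / p1) (1 / p3) + D.n11) * ((D.q2 + 1 / r2) ^ 2 - D.c ^ 2)
      - (sf (1 / r2) (1 / r1) (1 / r3) + D.n22) * ((D.q1 + 1 / p2) ^ 2 - D.c ^ 2)
      + 2 * D.n12 * D.c * ((D.q2 + 1 / r2) - (D.q1 + 1 / p2))) with hE | hE
  · left
    exact first (pstep P1 hgab P3 Q1 hgbC Q3 hc hq1 hq2 hn11 hn12 hn22 hGe hGf t1 t2 t3 t4 t5 t6
      hPP hQQ hE)
  · right
    apply second
    rcases hgbC.lt_or_eq with hlt | heq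
    · exact pstep Q1 hlt Q3 P1 hgab.le P3 hc hq2 hq1 hn22 hn12 hn11 hGf hGe t4 t5 t6 t1 t2 t3
        hQQ hPP (by linarith)
    · rw [← heq] at hE ⊢
      have e7 : 1 / r1 = 1 / r2 := heq
      have e8 : sf (1 / r1) (1 / r1) (1 / r3) = sf (1 / r1) (1 / r1) (1 / r3) := rfl
      linarith

end Pool.Agent.Helper29.Smith
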