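import Pool.Agent.Helper29.Smith.Exch

/-! The Huffman induction for `L2`. -/

set_option linter.unusedVariables false
set_option linter.unusedSectionVars false

namespace Pool.Agent.Helper29.Smith

open Pool.Agent.Helper29.Steiner BT

variable {α : Type} {val : α → Set (ℝ × ℝ)}

/-- `v` is the value of the branch `x` in some minimiser -/
def Vl (val : α → Set (ℝ × ℝ)) (x : BT α) (v : ℝ) : Prop := ∃ s y t, MP val x s y t ∧ s.1 = v

/-- value of a pair in a minimiser -/
lemma Vl_node (h : Adm val) {l r : BT α} {v : ℝ} (hv : Vl val (node l r) v) :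
    ∃ a b, Vl val l a ∧ Vl val r b ∧ 0 < a ∧ 0 < b ∧ a * b / (a + b) ≤ v ∧ v ≤ (a + b) / 4 := by
  obtain ⟨s, y, t, hm, rfl⟩ := hv
  obtain ⟨a, ha, b, hb, hs, hm1, hm2⟩ := MP_node h hm
  have hA : 0 < a.1 := (SS_adm h l).2.2 a ha
  have hB : 0 < b.1 := (SS_adm h r).2.2 b hb
  have hC : 0 < t.1 := (SS_adm h y).2.2 t hm.2.1
  refine ⟨a.1, b.1, ⟨a, _, _, hm1, rfl⟩, ⟨b, _, _, hm2, rfl⟩, hA, hB, ?_, ?_⟩
  · rw [hs]
    simp only [mg]
    set w := zl a.1 b.1 t.1 / (zl a.1 b.1 t.1 + zl b.1 a.1 t.1) with hw
    rw [div_le_iff₀ (by positivity)]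
    nlinarith [sq_nonneg (a.1 - w * (a.1 + b.1))]
  · rw [hs]
    simp only [mg]
    have hS : 0 ≤ sg a.1 b.1 t.1 := Real.sqrt_nonneg _
    have hL : 0 < SL a.1 b.1 t.1 := by
      unfold SL
      apply Real.sqrt_pos.2
      positivity
    have hw : zl a.1 b.1 t.1 / (zl a.1 b.1 t.1 + zl b.1 a.1 t.1)
        = (a.1 + sg a.1 b.1 t.1) / (a.1 + b.1 + 2 * sg a.1 b.1 t.1) := by
      simp only [zl]
      rw [sg_comm b.1 a.1 t.1, SL_comm b.1 a.1 t.1]
      have h1 : 0 < a.1 + b.1 + 2 * sg a.1 b.1 t.1 := by positivity
      rw [← add_div, div_div_div_cancel_right₀ hL.ne']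
      congr 1
      ring
    rw [hw]
    set A := a.1
    set B := b.1
    set S := sg A B t.1
    have hT : 0 < A + B + 2 * S := by positivity
    have h1 : (1 - (A + S) / (A + B + 2 * S)) ^ 2 * A + ((A + S) / (A + B + 2 * S)) ^ 2 * B
        = (A + B) / 4 - (A - B) ^ 2 * (A + B + 4 * S) / (4 * (A + B + 2 * S) ^ 2) := by
      field_simp
      ring
    rw [h1]
    have : 0 ≤ (A - B) ^ 2 * (A + B + 4 * S) / (4 * (A + B + 2 * S) ^ 2) := by positivity
    linarith

/-- a compound branch has at most half the maximal label value -/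
lemma Vl_compound (h : Adm val) {X : BT α} {m : ℝ}
    (hm : ∀ c ∈ labels X, ∀ v, Vl val (leaf c) v → v ≤ m) {v : ℝ} (hv : Vl val X v) :
    v ≤ m ∧ ((∃ c, X = leaf c) ∨ v ≤ m / 2) := by
  induction X generalizing v with
  | leaf c =>
    exact ⟨hm c (by simp [labels]) v hv, Or.inl ⟨c, rfl⟩⟩
  | node l r hl hr =>
    obtain ⟨a, b, ha, hb, ha0, hb0, _, h2⟩ := Vl_node h hv
    have h3 := (hl (fun c hc => hm c (by simp [labels, hc])) ha).1
    have h4 := (hr (fun c hc => hm c (by simp [labels, hc])) hb).1
    exact ⟨by linarith, Or.inr (by linarith)⟩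

/-- values of labels of a tree of trees -/
lemma Vl_leaf_join (x : BT α) (v : ℝ) (hv : Vl (SS val) (leaf x) v) : Vl val x v := by
  obtain ⟨s, y, t, ⟨h1, h2, h3⟩, h4⟩ := hv
  refine ⟨s, join y, t, ⟨h1, ?_, ?_⟩, h4⟩
  · rw [SS_join]; exact h2
  · rw [h3, ← L2_fl]; rfl

private lemma exists_Vl (h : Adm val) (x : BT α) : ∃ v, Vl val x v := by
  obtain ⟨s, t, hm⟩ := exists_MP h x x
  exact ⟨s.1, s, x, t, hm, rfl⟩

theorem huffStep2 (h : Adm val) (a b : BT α) (rest : Multiset (BT α)) (hrest : rest ≠ 0)
    (T : BT (BT α) × BT (BT α)) (hT : labels T.1 + labels T.2 = a ::ₘ b ::ₘ rest)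
    (hab : ∀ va vb, Vl val a va → Vl val b vb → vb ≤ va)
    (hb : ∀ c ∈ rest, ∀ vb vc, Vl val b vb → Vl val c vc → vc ≤ vb)
    (tie1 : ∀ c ∈ rest, ∀ v, Vl val b v → Vl val c v → c = b)
    (tie2 : ∀ c ∈ rest, ∀ v, Vl val a v → Vl val c v → c = a)
    (M : BT α) (hM : M = node a b ∨ M = node b a) :
    ∃ R : BT (BT α) × BT (BT α), labels R.1 + labels R.2 = M ::ₘ rest ∧
      (L2 val (fl R) < L2 val (fl T) ∨ UEq (fl T) (fl R)) := by
  have hMR : RC (node a b) M := by
    rcases hM with rfl | rfl
    · exact RC.refl _
    · exact RC.swap _ _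
  -- bring `b` to the root
  have hbmem : b ∈ labels T.1 + labels T.2 := by rw [hT]; simp
  obtain ⟨z, hz⟩ : ∃ z, UEq T (z, leaf b) := by
    rcases Multiset.mem_add.1 hbmem with h | h
    · obtain ⟨z, hz⟩ := exists_root_leaf T.1 T.2 h
      exact ⟨z, (UEq.comm T.1 T.2).trans hz⟩
    · exact exists_root_leaf T.2 T.1 h
  have hzl := hz.labels
  rw [hT] at hzl
  simp only [labels] at hzl
  have hzl' : labels z = a ::ₘ rest := by
    have : labels z + {b} = (a ::ₘ rest) + {b} := by
      rw [← hzl, Multiset.cons_swap, add_comm _ ({b} : Multiset (BT α)), Multiset.singleton_add]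
    exact add_right_cancel this
  have hamem : a ∈ labels z := by rw [hzl']; simp
  obtain ⟨Bs, hBs⟩ := exists_chain z hamem
  have hTc : UEq T (chain (leaf a) Bs, leaf b) := hz.trans (hBs _)
  have hlab : (Bs.map labels).sum = rest := by
    have h1 := (hBs (leaf b)).labels
    simp only [labels_chain, labels] at h1
    rw [hzl'] at h1
    have h2 := add_right_cancel h1
    rw [← Multiset.singleton_add] at h2
    exact (add_left_cancel h2).symm
  have hBlab : ∀ B ∈ Bs, ∀ c ∈ labels B, c ∈ rest := by
    intro B hB c hc
    rw [← hlab]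
    exact Multiset.mem_of_le (List.single_le_sum (by intro x _; exact Multiset.zero_le x) _
      (List.mem_map_of_mem hB)) hc
  have hflT : UEq (fl T) (fl (chain (leaf a) Bs, leaf b)) := hTc.join
  rcases Nat.lt_or_ge Bs.length 2 with hlen | hlen
  · -- at most one branch
    match Bs, hlen with
    | [], _ =>
      exfalso
      simp only [List.map_nil, List.sum_nil] at hlab
      exact hrest hlab.symm
    | [B], _ =>
      refine ⟨(leaf M, B), ?_, Or.inr ?_⟩
      · simp only [List.map_cons, List.map_nil, List.sum_cons, List.sum_nil, add_zero] at hlab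
        simp only [labels, hlab, Multiset.singleton_add]
      · refine hflT.trans ?_
        simp only [fl, chain, List.foldl_cons, List.foldl_nil, join]
        -- (node a (join B), b) ~ (node a b, join B)
        exact (UEq.sw _ _ _).trans ((UEq.rot _ _ _).trans ((UEq.comm _ _).trans (hMR _)))
  · obtain ⟨B, mid, C, rfl⟩ := list_ends Bs hlen
    have hBmem : B ∈ B :: (mid ++ [C]) := by simp
    have hCmem : C ∈ B :: (mid ++ [C]) := by simp
    have hsum : labels B + ((mid.map labels).sum + labels C) = rest := by
      rw [← hlab]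
      simp only [List.map_cons, List.map_append, List.map_nil, List.sum_cons, List.sum_append,
        List.sum_nil, add_zero]
    -- the symmetric form of the tree
    have hUT : UEq (fl T) (fl (chain (node (leaf a) B) mid, node (leaf b) C)) := by
      refine hflT.trans (UEq.join ?_)
      simp only [chain, List.foldl_cons, List.foldl_append, List.foldl_nil]
      exact (UEq.rot _ _ _).trans (UEq.swr _ _ _)
    have hLT : L2 val (fl T) = L2 (SS val) (chain (node (leaf a) B) mid, node (leaf b) C) := by
      rw [L2_ueq h hUT, L2_fl]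
    obtain ⟨sa, sB, sb, sC, ⟨ya, ta, ma⟩, ⟨yB, tB, mB⟩, ⟨yb, tb, mb⟩, ⟨yC, tC, mC⟩, hex⟩ :=
      exchange_tree (Adm_SS h) (leaf a) B (leaf b) C mid
    have va : Vl val a sa.1 := Vl_leaf_join a _ ⟨sa, ya, ta, ma, rfl⟩
    have vb : Vl val b sb.1 := Vl_leaf_join b _ ⟨sb, yb, tb, mb, rfl⟩
    have vB : Vl (SS val) B sB.1 := ⟨sB, yB, tB, mB, rfl⟩
    have vC : Vl (SS val) C sC.1 := ⟨sC, yC, tC, mC, rfl⟩
    have hb0 : 0 < sb.1 := (SS_adm h b).2.2 sb mb.1
    have hBr := Vl_compound (Adm_SS h) (m := sb.1)
      (fun c hc v hv => hb c (hBlab B hBmem c hc) _ _ vb (Vl_leaf_join c v hv)) vB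
    have hCr := Vl_compound (Adm_SS h) (m := sb.1)
      (fun c hc v hv => hb c (hBlab C hCmem c hc) _ _ vb (Vl_leaf_join c v hv)) vC
    have hba : sb.1 ≤ sa.1 := hab _ _ va vb
    -- the two candidate trees
    let R1 : BT (BT α) × BT (BT α) := (chain (leaf M) mid, node B C)
    let R2' : BT (BT α) × BT (BT α) := (chain (node C B) mid, leaf M)
    have hlabR1 : labels R1.1 + labels R1.2 = M ::ₘ rest := by
      simp only [R1, labels_chain, labels]
      rw [← hsum, ← Multiset.singleton_add]; abel
    have hlabR2 : labels R2'.1 + labels R2'.2 = M ::ₘ rest := by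
      simp only [R2', labels_chain, labels]
      rw [← hsum, ← Multiset.singleton_add]; abel
    have hDR1 : L2 val (fl R1)
        = L2 (SS val) (chain (node (leaf a) (leaf b)) mid, node B C) := by
      rw [← L2_fl]
      apply L2_ueq h
      simp only [R1, fl, join_chain, join]
      exact ((hMR.symm).chain _) _
    have hDR2 : L2 val (fl R2')
        = L2 (SS val) (chain (node C B) mid, node (leaf b) (leaf a)) := by
      rw [← L2_fl]
      apply L2_ueq h
      simp only [R2', fl, join_chain, join]
      exact ((hMR.symm).trans (RC.swap _ _)).right _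
    rcases hBr.1.lt_or_eq with hB2 | hB2
    · rcases (hCr.1.trans hba).lt_or_eq with hC2 | hC2
      · -- strict case
        rcases hex hB2 hba hCr.1 hC2 with h1 | h1
        · refine ⟨R1, hlabR1, Or.inl ?_⟩
          rw [hDR1, hLT]; exact h1
        · refine ⟨R2', hlabR2, Or.inl ?_⟩
          rw [hDR2, hLT]; exact h1
      · -- C has the value of a : then C is the leaf a
        rcases hCr.2 with ⟨c, rfl⟩ | h5
        · have hc : c ∈ rest := hBlab _ hCmem c (by simp [labels])
          have vc : Vl val c sC.1 := Vl_leaf_join c _ vC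
          have hca : c = a := tie2 c hc sa.1 va (by rw [← hC2]; exact vc)
          subst hca
          -- b and c = a are siblings
          refine ⟨(chain (leaf c) (B :: mid), leaf M), ?_, Or.inr ?_⟩
          · simp only [labels_chain, labels, List.map_cons, List.sum_cons]
            rw [← hsum, ← Multiset.singleton_add]
            simp only [labels]; abel
          · refine hflT.trans ?_
            simp only [fl, join_chain, List.map_cons, List.map_append, List.map_nil, join]
            simp only [chain, List.foldl_cons, List.foldl_append, List.foldl_nil]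
            exact (UEq.rot _ _ _).trans (hMR.right _)
        · exfalso; linarith
    · -- B has the value of b: then B is the leaf b
      rcases hBr.2 with ⟨c, rfl⟩ | h5
      · have hc : c ∈ rest := hBlab _ hBmem c (by simp [labels])
        have vc : Vl val c sB.1 := Vl_leaf_join c _ vB
        have hcb : c = b := tie1 c hc sb.1 vb (by rw [← hB2]; exact vc)
        subst hcb
        refine ⟨(chain (leaf M) (mid ++ [C]), leaf c), ?_, Or.inr ?_⟩
        · simp only [labels_chain, labels, List.map_append, List.sum_append, List.map_cons,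
            List.map_nil, List.sum_cons, List.sum_nil, add_zero]
          rw [← hsum, ← Multiset.singleton_add]
          simp only [labels]; abel
        · refine hflT.trans ?_
          simp only [fl, join_chain, List.map_cons, List.map_append, List.map_nil]
          exact (hMR.chain _) _
      · exfalso; linarith

/-- invariant of a configuration -/
private def Inv2 (val : α → Set (ℝ × ℝ)) (A S : BT α) (al : ℝ) : Prop :=
  0 < al ∧ (∀ v, Vl val A v → v = al) ∧ (S = A ∨ ∀ v, Vl val S v → v < al) ∧
    ∀ v, Vl val S v → al / 2 < v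

private lemma Inv2.le {A S : BT α} {al : ℝ} (hI : Inv2 val A S al) {v : ℝ} (hv : Vl val S v) :
    v ≤ al := by
  rcases hI.2.2.1 with h | h
  · rw [h] at hv; exact (hI.2.1 v hv).le
  · exact (h v hv).le

private lemma Vl_AA (h : Adm val) {A : BT α} {al : ℝ} (hal : 0 < al)
    (hA : ∀ v, Vl val A v → v = al) {v : ℝ} (hv : Vl val (node A A) v) : v = al / 2 := by
  obtain ⟨a, b, ha, hb, ha0, hb0, h1, h2⟩ := Vl_node h hv
  rw [hA a ha, hA b hb] at h1 h2
  have h3 : al * al / (al + al) = al / 2 := by field_simp; ring
  rw [h3] at h1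
  linarith

theorem opt_aux2 (h : Adm val) : ∀ (n m p : ℕ) (A S : BT α) (al : ℝ),
    m + p = n + 1 → Inv2 val A S al → ∀ T : BT (BT α) × BT (BT α),
    labels T.1 + labels T.2 = cfg m p A S →
    L2 val (Uc m p A S) < L2 val (fl T) ∨ UEq (fl T) (Uc m p A S) := by
  intro n
  induction n with
  | zero =>
    intro m p A S al hmp hI T hT
    right
    have hcase : (m = 1 ∧ p = 0) ∨ (m = 0 ∧ p = 1) := by omega
    rcases hcase with ⟨rfl, rfl⟩ | ⟨rfl, rfl⟩
    · simp only [cfg, Multiset.replicate_one, Multiset.replicate_zero, zero_add] at hT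
      have := pair_two (T := T) (a := A) (b := S) (by rw [hT]; rfl)
      have h2 := this.join
      simp only [join] at h2
      rw [Uc]
      exact h2
    · simp only [cfg, Multiset.replicate_one, Multiset.replicate_zero, zero_add] at hT
      have := pair_two (T := T) (a := node A A) (b := S) (by rw [hT]; rfl)
      have h2 := this.join
      simp only [join] at h2
      rw [Uc]
      exact h2
  | succ n ih =>
    intro m p A S al hmp hI T hT
    obtain ⟨hal, hA, hSA, hS⟩ := id hI
    have hAA : ∀ v, Vl val (node A A) v → v = al / 2 := fun v hv => Vl_AA h hal hA hv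
    have hSle : ∀ v, Vl val S v → v ≤ al := fun v hv => hI.le hv
    -- finishing step
    have fin : ∀ (a b : BT α) (rest : Multiset (BT α)) (m' p' : ℕ) (A' S' : BT α) (al' : ℝ),
        rest ≠ 0 → cfg m p A S = a ::ₘ b ::ₘ rest →
        (∀ va vb, Vl val a va → Vl val b vb → vb ≤ va) →
        (∀ c ∈ rest, ∀ vb vc, Vl val b vb → Vl val c vc → vc ≤ vb) →
        (∀ c ∈ rest, ∀ v, Vl val b v → Vl val c v → c = b) →
        (∀ c ∈ rest, ∀ v, Vl val a v → Vl val c v → c = a) →
        (∃ M, (M = node a b ∨ M = node b a) ∧ M ::ₘ rest = cfg m' p' A' S') →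
        m' + p' = n + 1 → Inv2 val A' S' al' →
        Uc m p A S = Uc m' p' A' S' →
        L2 val (Uc m p A S) < L2 val (fl T) ∨ UEq (fl T) (Uc m p A S) := by
      intro a b rest m' p' A' S' al' hr hcfg hab hb t1 t2 ⟨M, hM, hcfg'⟩ hn hI' hU
      obtain ⟨R, hR, hR2⟩ := huffStep2 h a b rest hr T (hT.trans hcfg) hab hb t1 t2 M hM
      have h3 := ih m' p' A' S' al' hn hI' R (hR.trans hcfg')
      rw [hU]
      rcases hR2 with h5 | h5
      · rcases h3 with h4 | h4
        · exact Or.inl (h4.trans h5)
        · left; rw [← L2_ueq h h4]; exact h5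
      · rcases h3 with h4 | h4
        · left; rw [L2_ueq h h5]; exact h4
        · exact Or.inr (h5.trans h4)
    have hrep : ∀ {k : ℕ} {c : BT α}, c ∈ Multiset.replicate k (node A A) → c = node A A :=
      fun h => Multiset.eq_of_mem_replicate h
    match m, p, hmp with
    | 0, p, hmp =>
      obtain ⟨p', rfl⟩ : ∃ p', p = p' + 2 := ⟨n, by omega⟩
      apply fin S (node A A) (Multiset.replicate (p' + 1) (node A A)) (p' + 1) 0 (node A A)
        (node (node A A) S) (al / 2)
      · intro h
        have := congrArg Multiset.card h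
        simp at this
      · simp only [cfg, Multiset.replicate_zero, zero_add]
        rw [Multiset.replicate_succ, add_comm, Multiset.singleton_add]
      · intro va vb h1 h2
        rw [hAA vb h2]
        exact (hS va h1).le
      · intro c hc vb vc h1 h2
        rw [hrep hc] at h2
        rw [hAA vb h1, hAA vc h2]
      · intro c hc v _ _; exact hrep hc
      · intro c hc v h1 h2
        rw [hrep hc] at h2
        exact absurd (hAA v h2) (ne_of_gt (hS v h1))
      · refine ⟨node (node A A) S, Or.inr rfl, ?_⟩
        simp only [cfg, Multiset.replicate_zero, zero_add]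
        rw [← Multiset.singleton_add]; exact add_comm _ _
      · omega
      · refine ⟨by linarith, hAA, Or.inr ?_, ?_⟩
        · intro v hv
          obtain ⟨a, b, ha, hb, ha0, hb0, h1, h2⟩ := Vl_node h hv
          have e1 := hAA a ha
          have e2 := hSle b hb
          linarith
        · intro v hv
          obtain ⟨a, b, ha, hb, ha0, hb0, h1, h2⟩ := Vl_node h hv
          have e1 := hAA a ha
          have e2 := hS b hb
          refine lt_of_lt_of_le ?_ h1
          rw [e1, lt_div_iff₀ (by linarith)]
          nlinarith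
      · rw [Uc]
    | 1, p, hmp =>
      obtain ⟨p', rfl⟩ : ∃ p', p = p' + 1 := ⟨n, by omega⟩
      apply fin A S (Multiset.replicate (p' + 1) (node A A)) (p' + 1) 0 (node A A) (node A S)
        (al / 2)
      · intro h
        have := congrArg Multiset.card h
        simp at this
      · simp only [cfg, Multiset.replicate_one]
        rw [← Multiset.singleton_add, ← Multiset.singleton_add, add_comm _ ({S} : Multiset (BT α))]
      · intro va vb h1 h2
        rw [hA va h1]
        exact hSle vb h2
      · intro c hc vb vc h1 h2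
        rw [hrep hc] at h2
        rw [hAA vc h2]
        exact (hS vb h1).le
      · intro c hc v h1 h2
        rw [hrep hc] at h2
        exact absurd (hAA v h2) (ne_of_gt (hS v h1))
      · intro c hc v h1 h2
        rw [hrep hc] at h2
        have e1 := hAA v h2
        have e2 := hA v h1
        linarith
      · refine ⟨node A S, Or.inl rfl, ?_⟩
        simp only [cfg, Multiset.replicate_zero, zero_add]
        rw [← Multiset.singleton_add]; exact add_comm _ _
      · omega
      · refine ⟨by linarith, hAA, ?_, ?_⟩
        · rcases hSA with h5 | h5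
          · left; rw [h5]
          · right
            intro v hv
            obtain ⟨a, b, ha, hb, ha0, hb0, h1, h2⟩ := Vl_node h hv
            have e1 := hA a ha
            have e2 := h5 b hb
            linarith
        · intro v hv
          obtain ⟨a, b, ha, hb, ha0, hb0, h1, h2⟩ := Vl_node h hv
          have e1 := hA a ha
          have e2 := hS b hb
          refine lt_of_lt_of_le ?_ h1
          rw [e1, lt_div_iff₀ (by linarith)]
          nlinarith
      · rw [Uc]
    | m' + 2, p, hmp =>
      have hmem : ∀ c ∈ cfg m' p A S, c = A ∨ c = node A A ∨ c = S := by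
        intro c hc
        simp only [cfg, Multiset.mem_add, Multiset.mem_singleton] at hc
        rcases hc with h | h | h
        · exact Or.inl (Multiset.eq_of_mem_replicate h)
        · exact Or.inr (Or.inl (hrep h))
        · exact Or.inr (Or.inr h)
      have htie : ∀ c ∈ cfg m' p A S, ∀ v, Vl val A v → Vl val c v → c = A := by
        intro c hc v h1 h2
        rcases hmem c hc with rfl | rfl | rfl
        · rfl
        · have e1 := hAA v h2
          have e2 := hA v h1
          linarith
        · rcases hSA with h5 | h5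
          · exact h5
          · exact absurd (hA v h1) (ne_of_lt (h5 v h2))
      apply fin A A (cfg m' p A S) m' (p + 1) A S al
      · intro h
        have := congrArg Multiset.card h
        simp [cfg] at this
      · simp only [cfg]
        rw [Multiset.replicate_succ, Multiset.replicate_succ, Multiset.cons_add, Multiset.cons_add]
      · intro va vb h1 h2
        rw [hA va h1, hA vb h2]
      · intro c hc vb vc h1 h2
        rw [hA vb h1]
        rcases hmem c hc with rfl | rfl | rfl
        · exact (hA vc h2).le
        · rw [hAA vc h2]; linarith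
        · exact hSle vc h2
      · exact htie
      · exact htie
      · refine ⟨node A A, Or.inl rfl, ?_⟩
        simp only [cfg]
        rw [Multiset.replicate_succ, Multiset.cons_add, Multiset.add_cons]
      · omega
      · exact hI
      · rw [Uc]

/-- Among all binary trees with the same number of leaves, `L2 v1` is minimised exactly by the
greedy tree. -/
theorem L2_opt (p : Tr × Tr) :
    L2 v1 (Uc (size p.1 + size p.2 - 1) 0 o o) < L2 v1 p ∨
      UEq p (Uc (size p.1 + size p.2 - 1) 0 o o) := by
  have h1 := size_pos p.1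
  have h2 := size_pos p.2
  have hval : ∀ v, Vl v1 o v → v = 1 := by
    rintro v ⟨s, y, t, hm, rfl⟩
    have h3 : s ∈ v1 () := hm.1
    simp only [v1, Set.mem_singleton_iff] at h3
    rw [h3]
  have hI : Inv2 v1 o o 1 := by
    refine ⟨one_pos, hval, Or.inl rfl, ?_⟩
    intro v hv
    rw [hval v hv]
    norm_num
  have := opt_aux2 Adm_v1 (size p.1 + size p.2 - 2) (size p.1 + size p.2 - 1) 0 o o 1
    (by omega) hI (lift p.1, lift p.2) (by
      simp only [labels_lift, cfg, Multiset.replicate_zero, zero_add]
      rw [← Multiset.replicate_add]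
      have h3 : size p.1 + size p.2 = (size p.1 + size p.2 - 1) + 1 := by omega
      conv_lhs => rw [h3]
      rw [Multiset.replicate_succ, ← Multiset.singleton_add, add_comm])
  simpa only [fl, join_lift, Prod.mk.eta] using this

end Pool.Agent.Helper29.Smith
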