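import Pool.Agent.Helper29.Smith.Defs

/-! A straight-line tree of minimal length is embedded. -/

set_option linter.unusedVariables false
set_option linter.unusedSectionVars false

namespace Pool.Agent.Helper29.Smith

open Pool.Agent.Helper29.Steiner BT ET

/-- length of an unordered pair of vertices -/
noncomputable def surgLen {V E : Type} [MetricSpace E] (pos : V → E) : Sym2 V → ℝ :=
  Sym2.lift ⟨fun u v => dist (pos u) (pos v), fun u v => dist_comm _ _⟩

theorem surgLen_mk {V E : Type} [MetricSpace E] (pos : V → E) (u v : V) :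
    surgLen pos s(u, v) = dist (pos u) (pos v) := rfl

theorem surgLen_nonneg {V E : Type} [MetricSpace E] (pos : V → E) (e : Sym2 V) :
    0 ≤ surgLen pos e := by
  induction e with
  | _ u v => exact dist_nonneg

theorem tlen_eq_surg {V E : Type} [Fintype V] [DecidableEq V] [MetricSpace E]
    (G : SimpleGraph V) [DecidableRel G.Adj] (pos : V → E) :
    tlen G pos = ∑ e ∈ G.edgeFinset, surgLen pos e := rfl

/-- connectedness of a modified graph -/
theorem surg_connected {V W : Type} {G : SimpleGraph V} (hG : G.Connected) {H : SimpleGraph W}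
    (f : V → W) (h1 : ∀ a b, G.Adj a b → H.Reachable (f a) (f b))
    (h2 : ∀ w, ∃ a, H.Reachable (f a) w) : H.Connected := by
  have key : ∀ a b, H.Reachable (f a) (f b) := by
    intro a b
    obtain ⟨p⟩ := hG.preconnected a b
    induction p with
    | nil => exact SimpleGraph.Reachable.refl _
    | cons h _ ih => exact (h1 _ _ h).trans ih
  obtain ⟨v0⟩ := hG.nonempty
  refine (SimpleGraph.connected_iff_exists_forall_reachable H).2 ⟨f v0, fun w => ?_⟩
  obtain ⟨a, ha⟩ := h2 w
  exact (key v0 a).trans ha

/-- minimality against arbitrary connected edge sets -/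
theorem surg_le {E : Type} [MetricSpace E]
    {V : Type} [Fintype V] [DecidableEq V] (G : SimpleGraph V) [DecidableRel G.Adj]
    (pos : V → E)
    (hmin : ∀ (W : Type) [Fintype W] [DecidableEq W] (H : SimpleGraph W) [DecidableRel H.Adj]
      (f : V → W) (q : W → E), H.IsTree → (∀ v, q (f v) = pos v) → tlen G pos ≤ tlen H q)
    (W : Type) [Fintype W] [DecidableEq W] (F : Finset (Sym2 W)) (f : V → W) (q : W → E)
    (hc : (SimpleGraph.fromEdgeSet (F : Set (Sym2 W))).Connected) (hq : ∀ v, q (f v) = pos v) :
    tlen G pos ≤ ∑ e ∈ F, surgLen q e := by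
  classical
  obtain ⟨T, hT, hT'⟩ := hc.exists_isTree_le
  refine (hmin W T f q hT' hq).trans ?_
  rw [tlen_eq_surg]
  refine Finset.sum_le_sum_of_subset_of_nonneg ?_ (fun e _ _ => surgLen_nonneg q e)
  intro e he
  rw [SimpleGraph.mem_edgeFinset] at he
  have h1 := SimpleGraph.edgeSet_mono hT he
  rw [SimpleGraph.edgeSet_fromEdgeSet] at h1
  exact Finset.mem_coe.1 h1.1

/-- positions are pairwise different -/
theorem surg_injective {E : Type} [MetricSpace E]
    {V : Type} [Fintype V] [DecidableEq V] (G : SimpleGraph V) [DecidableRel G.Adj]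
    (hG : G.Connected) (pos : V → E) (hpos : ∀ u v, G.Adj u v → pos u ≠ pos v)
    (hmin : ∀ (W : Type) [Fintype W] [DecidableEq W] (H : SimpleGraph W) [DecidableRel H.Adj]
      (f : V → W) (q : W → E), H.IsTree → (∀ v, q (f v) = pos v) → tlen G pos ≤ tlen H q) :
    Function.Injective pos := by
  intro u v huv
  by_contra hne
  obtain ⟨p, hp⟩ := (hG.preconnected u v).exists_isPath
  cases p with
  | nil => exact hne rfl
  | @cons _ x _ hux r =>
    rw [SimpleGraph.Walk.cons_isPath_iff] at hp
    obtain ⟨_, hur⟩ := hp
    have hpx := hpos u x hux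
    set F : Finset (Sym2 V) := insert s(u, v) (G.edgeFinset.erase s(u, x)) with hF
    have hadj : ∀ a b, G.Adj a b → s(a, b) ≠ s(u, x) →
        (SimpleGraph.fromEdgeSet (F : Set (Sym2 V))).Adj a b := by
      intro a b hab hne'
      rw [SimpleGraph.fromEdgeSet_adj]
      refine ⟨?_, hab.ne⟩
      rw [hF, Finset.mem_coe, Finset.mem_insert, Finset.mem_erase]
      exact Or.inr ⟨hne', SimpleGraph.mem_edgeFinset.2 hab⟩
    have hxv : (SimpleGraph.fromEdgeSet (F : Set (Sym2 V))).Reachable x v := by
      have : ∀ e ∈ r.edges, e ∈ (SimpleGraph.fromEdgeSet (F : Set (Sym2 V))).edgeSet := by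
        intro e he
        induction e with
        | _ a b =>
          rw [SimpleGraph.mem_edgeSet]
          refine hadj a b (SimpleGraph.Walk.adj_of_mem_edges r he) ?_
          intro h
          rw [Sym2.eq_iff] at h
          rcases h with ⟨h1, _⟩ | ⟨_, h1⟩
          · subst h1
            exact hur (SimpleGraph.Walk.fst_mem_support_of_mem_edges r he)
          · subst h1
            exact hur (SimpleGraph.Walk.snd_mem_support_of_mem_edges r he)
      exact ⟨r.transfer _ this⟩
    have huv' : (SimpleGraph.fromEdgeSet (F : Set (Sym2 V))).Adj u v := by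
      rw [SimpleGraph.fromEdgeSet_adj]
      exact ⟨by rw [hF, Finset.mem_coe]; exact Finset.mem_insert_self _ _, hne⟩
    have hux' : (SimpleGraph.fromEdgeSet (F : Set (Sym2 V))).Reachable u x :=
      huv'.reachable.trans hxv.symm
    have hc : (SimpleGraph.fromEdgeSet (F : Set (Sym2 V))).Connected := by
      refine surg_connected hG id ?_ (fun w => ⟨w, SimpleGraph.Reachable.refl _⟩)
      intro a b hab
      by_cases h : s(a, b) = s(u, x)
      · rw [Sym2.eq_iff] at h
        rcases h with ⟨h1, h2⟩ | ⟨h1, h2⟩
        · subst h1; subst h2; exact hux'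
        · subst h1; subst h2; exact hux'.symm
      · exact (hadj a b hab h).reachable
    have h1 := surg_le G pos hmin V F id pos hc (fun _ => rfl)
    have h2 : ∑ e ∈ F, surgLen pos e ≤
        surgLen pos s(u, v) + ∑ e ∈ G.edgeFinset.erase s(u, x), surgLen pos e := by
      rw [hF]
      by_cases hm : s(u, v) ∈ G.edgeFinset.erase s(u, x)
      · rw [Finset.insert_eq_of_mem hm]
        have := surgLen_nonneg pos s(u, v)
        linarith
      · rw [Finset.sum_insert hm]
    have h3 : ∑ e ∈ G.edgeFinset.erase s(u, x), surgLen pos e + surgLen pos s(u, x) =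
        ∑ e ∈ G.edgeFinset, surgLen pos e :=
      Finset.sum_erase_add _ _ (SimpleGraph.mem_edgeFinset.2 hux)
    rw [tlen_eq_surg] at h1
    have h4 : surgLen pos s(u, v) = 0 := by rw [surgLen_mk, huv, dist_self]
    have h5 : 0 < surgLen pos s(u, x) := dist_pos.2 hpx
    linarith

/-- the surgery at a crossing point -/
theorem surg_cross {E : Type} [NormedAddCommGroup E] [InnerProductSpace ℝ E]
    {V : Type} [Fintype V] [DecidableEq V] (G : SimpleGraph V) [DecidableRel G.Adj]
    (hG : G.Connected) (pos : V → E)
    (hmin : ∀ (W : Type) [Fintype W] [DecidableEq W] (H : SimpleGraph W) [DecidableRel H.Adj]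
      (f : V → W) (q : W → E), H.IsTree → (∀ v, q (f v) = pos v) → tlen G pos ≤ tlen H q)
    (u v u' v' : V) (huv : G.Adj u v) (huv' : G.Adj u' v') (hne : s(u, v) ≠ s(u', v'))
    (hr : (G.deleteEdges {s(u, v), s(u', v')}).Reachable u u' ∨
      (G.deleteEdges {s(u, v), s(u', v')}).Reachable u v') (X : E)
    (h1 : dist (pos u) X + dist X (pos v) = dist (pos u) (pos v))
    (h2 : dist (pos u') X + dist X (pos v') = dist (pos u') (pos v')) (h3 : X ≠ pos u) :
    False := by
  classical
  set q : Option V → E := fun w => w.elim X pos with hq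
  set F0 : Finset (Sym2 V) := (G.edgeFinset.erase s(u, v)).erase s(u', v') with hF0
  set F1 : Finset (Sym2 (Option V)) := F0.image (Sym2.map some) with hF1
  set F : Finset (Sym2 (Option V)) := F1 ∪ {s(none, some v), s(none, some u'), s(none, some v')}
    with hF
  set H := SimpleGraph.fromEdgeSet (F : Set (Sym2 (Option V))) with hH
  have hadj : ∀ a b, (G.deleteEdges {s(u, v), s(u', v')}).Adj a b → H.Adj (some a) (some b) := by
    intro a b hab
    rw [SimpleGraph.deleteEdges_adj] at hab
    obtain ⟨hab, hnot⟩ := hab
    rw [hH, SimpleGraph.fromEdgeSet_adj]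
    refine ⟨?_, fun h => hab.ne (Option.some_injective _ h)⟩
    rw [hF, Finset.mem_coe, Finset.mem_union]
    left
    rw [hF1, Finset.mem_image]
    refine ⟨s(a, b), ?_, rfl⟩
    rw [hF0, Finset.mem_erase, Finset.mem_erase]
    refine ⟨fun h => hnot (by rw [h]; simp), fun h => hnot (by rw [h]; simp),
      SimpleGraph.mem_edgeFinset.2 hab⟩
  have hreach : ∀ a b, (G.deleteEdges {s(u, v), s(u', v')}).Reachable a b →
      H.Reachable (some a) (some b) := by
    intro a b ⟨p⟩
    induction p with
    | nil => exact SimpleGraph.Reachable.refl _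
    | cons h _ ih => exact (hadj _ _ h).reachable.trans ih
  have hnv : H.Adj none (some v) := by
    rw [hH, SimpleGraph.fromEdgeSet_adj]
    exact ⟨by rw [hF]; simp, by simp⟩
  have hnu' : H.Adj none (some u') := by
    rw [hH, SimpleGraph.fromEdgeSet_adj]
    exact ⟨by rw [hF]; simp, by simp⟩
  have hnv' : H.Adj none (some v') := by
    rw [hH, SimpleGraph.fromEdgeSet_adj]
    exact ⟨by rw [hF]; simp, by simp⟩
  have hnu : H.Reachable none (some u) := by
    rcases hr with hr | hr
    · exact hnu'.reachable.trans (hreach _ _ hr).symm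
    · exact hnv'.reachable.trans (hreach _ _ hr).symm
  have hc : H.Connected := by
    refine surg_connected hG some ?_ ?_
    · intro a b hab
      by_cases ha : s(a, b) = s(u, v)
      · rw [Sym2.eq_iff] at ha
        rcases ha with ⟨e1, e2⟩ | ⟨e1, e2⟩
        · subst e1; subst e2; exact hnu.symm.trans hnv.reachable
        · subst e1; subst e2; exact hnv.reachable.symm.trans hnu
      by_cases hb : s(a, b) = s(u', v')
      · rw [Sym2.eq_iff] at hb
        rcases hb with ⟨e1, e2⟩ | ⟨e1, e2⟩
        · subst e1; subst e2; exact hnu'.reachable.symm.trans hnv'.reachable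
        · subst e1; subst e2; exact hnv'.reachable.symm.trans hnu'.reachable
      refine (hadj a b ?_).reachable
      rw [SimpleGraph.deleteEdges_adj]
      refine ⟨hab, ?_⟩
      simp only [Set.mem_insert_iff, Set.mem_singleton_iff, not_or]
      exact ⟨ha, hb⟩
    · intro w
      cases w with
      | none => exact ⟨v, hnv.reachable.symm⟩
      | some a => exact ⟨a, SimpleGraph.Reachable.refl _⟩
  have l1 := surg_le G pos hmin (Option V) F some q hc (fun _ => rfl)
  have l2 : ∑ e ∈ F, surgLen q e ≤ ∑ e ∈ F1, surgLen q e +
      ∑ e ∈ ({s(none, some v), s(none, some u'), s(none, some v')} : Finset (Sym2 (Option V))),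
        surgLen q e := by
    have := Finset.sum_union_inter (s₁ := F1)
      (s₂ := ({s(none, some v), s(none, some u'), s(none, some v')} : Finset (Sym2 (Option V))))
      (f := surgLen q)
    rw [← hF] at this
    have h0 : 0 ≤ ∑ e ∈ F1 ∩ ({s(none, some v), s(none, some u'), s(none, some v')} :
        Finset (Sym2 (Option V))), surgLen q e :=
      Finset.sum_nonneg (fun e _ => surgLen_nonneg q e)
    linarith
  have insle : ∀ (e : Sym2 (Option V)) (S : Finset (Sym2 (Option V))),
      ∑ x ∈ insert e S, surgLen q x ≤ surgLen q e + ∑ x ∈ S, surgLen q x := by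
    intro e S
    by_cases hm : e ∈ S
    · rw [Finset.insert_eq_of_mem hm]
      have := surgLen_nonneg q e
      linarith
    · rw [Finset.sum_insert hm]
  have l3 : ∑ e ∈ ({s(none, some v), s(none, some u'), s(none, some v')} :
      Finset (Sym2 (Option V))), surgLen q e ≤ dist X (pos v) + (dist X (pos u') +
        dist X (pos v')) := by
    refine (insle _ _).trans ?_
    have e1 := insle s(none, some u') {s(none, some v')}
    rw [Finset.sum_singleton] at e1
    have e2 : surgLen q s(none, some v) = dist X (pos v) := rfl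
    have e3 : surgLen q s(none, some u') = dist X (pos u') := rfl
    have e4 : surgLen q s(none, some v') = dist X (pos v') := rfl
    rw [e2]
    rw [e3, e4] at e1
    linarith
  have l4 : ∑ e ∈ F1, surgLen q e = ∑ e ∈ F0, surgLen pos e := by
    rw [hF1, Finset.sum_image]
    · refine Finset.sum_congr rfl fun e _ => ?_
      induction e with
      | _ a b => rfl
    · intro a _ b _ hab
      exact Sym2.map.injective (Option.some_injective _) hab
  have hm1 : s(u, v) ∈ G.edgeFinset := SimpleGraph.mem_edgeFinset.2 huv
  have hm2 : s(u', v') ∈ G.edgeFinset.erase s(u, v) :=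
    Finset.mem_erase.2 ⟨hne.symm, SimpleGraph.mem_edgeFinset.2 huv'⟩
  have l5 := Finset.sum_erase_add (G.edgeFinset.erase s(u, v)) (surgLen pos) hm2
  have l6 := Finset.sum_erase_add G.edgeFinset (surgLen pos) hm1
  rw [← hF0] at l5
  rw [tlen_eq_surg] at l1
  rw [surgLen_mk] at l5 l6
  have l7 : 0 < dist (pos u) X := dist_pos.2 h3.symm
  have l8 := dist_comm X (pos u')
  linarith

/-- Let `G` be a tree with vertices placed in an inner product space by `pos`, all edges of
positive length. Suppose that no straight-line tree `(H, q)` which has a vertex at each of the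
points `pos v` is shorter. Then `(G, pos)` is embedded: `pos` is injective, and the open segment
of an edge does not meet the closed segment of any other edge. -/
theorem embedded_of_min {E : Type} [NormedAddCommGroup E] [InnerProductSpace ℝ E]
    {V : Type} [Fintype V] [DecidableEq V] (G : SimpleGraph V) [DecidableRel G.Adj]
    (hG : G.IsTree) (pos : V → E) (hpos : ∀ u v, G.Adj u v → pos u ≠ pos v)
    (hmin : ∀ (W : Type) [Fintype W] [DecidableEq W] (H : SimpleGraph W) [DecidableRel H.Adj]
      (f : V → W) (q : W → E), H.IsTree → (∀ v, q (f v) = pos v) → tlen G pos ≤ tlen H q) :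
    Function.Injective pos ∧
    ∀ u v u' v', G.Adj u v → G.Adj u' v' → s(u, v) ≠ s(u', v') →
      Disjoint (openSegment ℝ (pos u) (pos v)) (segment ℝ (pos u') (pos v')) := by
  refine ⟨surg_injective G hG.connected pos hpos hmin, ?_⟩
  intro u v u' v' huv huv' hne
  rw [Set.disjoint_left]
  intro X hX hX'
  have d1 : dist (pos u) X + dist X (pos v) = dist (pos u) (pos v) :=
    dist_add_dist_of_mem_segment (openSegment_subset_segment ℝ _ _ hX)
  have d2 : dist (pos u') X + dist X (pos v') = dist (pos u') (pos v') :=
    dist_add_dist_of_mem_segment hX'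
  have hXu : X ≠ pos u := by
    rintro rfl
    exact hpos u v huv (left_mem_openSegment_iff.1 hX)
  have hXv : X ≠ pos v := by
    rintro rfl
    exact hpos u v huv (right_mem_openSegment_iff.1 hX)
  set D := G.deleteEdges {s(u, v), s(u', v')} with hD
  have hdisj : (D.Reachable u u' ∨ D.Reachable u v') ∨ (D.Reachable v u' ∨ D.Reachable v v') := by
    by_contra hcon
    simp only [not_or] at hcon
    obtain ⟨⟨n1, n2⟩, n3, n4⟩ := hcon
    have hclosed : ∀ a b, G.Adj a b → (D.Reachable u a ∨ D.Reachable v a) →
        (D.Reachable u b ∨ D.Reachable v b) := by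
      intro a b hab ha
      by_cases e1 : s(a, b) = s(u, v)
      · rw [Sym2.eq_iff] at e1
        rcases e1 with ⟨_, e⟩ | ⟨_, e⟩
        · subst e; exact Or.inr (SimpleGraph.Reachable.refl _)
        · subst e; exact Or.inl (SimpleGraph.Reachable.refl _)
      by_cases e2 : s(a, b) = s(u', v')
      · rw [Sym2.eq_iff] at e2
        exfalso
        rcases e2 with ⟨e, _⟩ | ⟨e, _⟩
        · subst e; exact ha.elim n1 n3
        · subst e; exact ha.elim n2 n4
      have hadj : D.Adj a b := by
        rw [hD, SimpleGraph.deleteEdges_adj]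
        refine ⟨hab, ?_⟩
        simp only [Set.mem_insert_iff, Set.mem_singleton_iff, not_or]
        exact ⟨e1, e2⟩
      exact ha.imp (fun h => h.trans hadj.reachable) (fun h => h.trans hadj.reachable)
    have hall : ∀ a b, G.Reachable a b → (D.Reachable u a ∨ D.Reachable v a) →
        (D.Reachable u b ∨ D.Reachable v b) := by
      intro a b ⟨p⟩
      induction p with
      | nil => exact id
      | cons h _ ih => exact fun ha => ih (hclosed _ _ h ha)
    rcases hall u u' (hG.connected.preconnected u u') (Or.inl (SimpleGraph.Reachable.refl _))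
      with h | h
    · exact n1 h
    · exact n3 h
  rcases hdisj with h | h
  · exact surg_cross G hG.connected pos hmin u v u' v' huv huv' hne h X d1 d2 hXu
  · refine surg_cross G hG.connected pos hmin v u u' v' huv.symm huv' ?_ ?_ X ?_ d2 hXv
    · rw [Sym2.eq_swap]; exact hne
    · have : (s(v, u) : Sym2 V) = s(u, v) := Sym2.eq_swap
      rw [this]; exact h
    · rw [dist_comm (pos v) X, dist_comm X (pos u), add_comm, d1, dist_comm]

end Pool.Agent.Helper29.Smith
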