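import Pool.Agent.Helper29.Smith.Gap
import Pool.Agent.Helper29.Smith.Huff
import Pool.Agent.Helper29.Smith.ConvExists
import Pool.Agent.Helper29.Smith.ConvIso
import Pool.Agent.Helper29.Smith.Surg

/-! Steiner minimal trees of the regular simplex: the main theorem. -/

set_option linter.unusedVariables false
set_option linter.unusedSectionVars false

namespace Pool.Agent.Helper29.Smith

open Pool.Agent.Helper29.Steiner BT ET

/-! ### relabelling -/

section relabel

variable {X Y : Type}

/-- relabelling of a labelled tree -/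
def fmap (f : X → Y) : ET X → ET Y
  | ET.leaf x => ET.leaf (f x)
  | ET.node x l r => ET.node (f x) (fmap f l) (fmap f r)

theorem fmap_shape (f : X → Y) (a : ET X) : shape (fmap f a) = shape a := by
  induction a with
  | leaf x => rfl
  | node x l r hl hr => simp only [fmap, shape, hl, hr]

theorem fmap_pos (f : X → Y) (a : ET X) : pos (fmap f a) = f (pos a) := by
  cases a <;> rfl

theorem fmap_leaves (f : X → Y) (a : ET X) : leaves (fmap f a) = (leaves a).map f := by
  induction a with
  | leaf x => simp [fmap, leaves]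
  | node x l r hl hr => simp only [fmap, leaves, hl, hr, Multiset.map_add]

theorem fmap_wlen (f : X → Y) (w : Y → Y → ℝ) (a : ET X) :
    wlen w (fmap f a) = wlen (fun x y => w (f x) (f y)) a := by
  induction a with
  | leaf x => rfl
  | node x l r hl hr => simp only [fmap, wlen, hl, hr, fmap_pos]

theorem fmap_edges (f : X → Y) (a : ET X) : edges (fmap f a) = (edges a).map (Prod.map f f) := by
  induction a with
  | leaf x => rfl
  | node x l r hl hr =>
    simp only [fmap, edges, hl, hr, fmap_pos, List.map_cons, List.map_append, Prod.map_apply]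

theorem card_leaves (a : ET X) : Multiset.card (leaves a) = size (shape a) := by
  induction a with
  | leaf x => simp [leaves, shape, size]
  | node x l r hl hr => simp only [leaves, shape, size, Multiset.card_add, hl, hr]

theorem fmap_pwlen (f : X → Y) (w : Y → Y → ℝ) (p : ET X × ET X) :
    pwlen w (fmap f p.1, fmap f p.2) = pwlen (fun x y => w (f x) (f y)) p := by
  simp only [pwlen, fmap_wlen, fmap_pos]

theorem fmap_pshape (f : X → Y) (p : ET X × ET X) : pshape (fmap f p.1, fmap f p.2) = pshape p := by
  simp only [pshape, fmap_shape]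

theorem fmap_nonDeg (f : X → Y) (p : ET X × ET X) (h : NonDeg (fmap f p.1, fmap f p.2)) :
    NonDeg p := by
  intro e he heq
  refine h (Prod.map f f e) ?_ ?_
  · simp only [pedges, List.mem_cons, List.mem_append] at he
    simp only [pedges, fmap_pos, fmap_edges, List.mem_cons, List.mem_append, List.mem_map]
    rcases he with he | he | he
    · left; rw [he]; rfl
    · right; left; exact ⟨e, he, rfl⟩
    · right; right; exact ⟨e, he, rfl⟩
  · simp only [Prod.map_fst, Prod.map_snd, heq]

end relabel

/-! ### sizes -/

theorem size_fullTree (k : ℕ) : size (fullTree k) = 2 ^ k := by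
  induction k with
  | zero => rfl
  | succ k ih => rw [fullTree, size, ih, pow_succ]; ring

theorem size_goodTree : ∀ n : ℕ, 1 ≤ n → size (goodTree n) = n := by
  intro n
  induction n using Nat.strong_induction_on with
  | _ n ih =>
    intro hn
    rcases Nat.lt_or_ge n 3 with h | h
    · have : n = 1 ∨ n = 2 := by omega
      rcases this with rfl | rfl
      · rw [goodTree]; simp [size]
      · rw [goodTree]; simp [size]
    · rw [goodTree]
      have h1 : ¬ n ≤ 1 := by omega
      have h2 : ¬ n = 2 := by omega
      simp only [h1, h2, dite_false]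
      set k := Nat.log 2 (n - 1) with hk
      have hk1 : 1 ≤ k := Nat.log_pos (by norm_num) (by omega)
      have h3 : 2 ^ k ≤ n - 1 := Nat.pow_log_le_self 2 (by omega)
      obtain ⟨i, hi⟩ : ∃ i, k = i + 1 := ⟨k - 1, by omega⟩
      rw [hi] at h3 ⊢
      simp only [Nat.add_sub_cancel]
      have p2 : 2 ^ (i + 1) = 2 * 2 ^ i := by rw [pow_add]; ring
      have hpos : 0 < 2 ^ i := Nat.pow_pos (by norm_num)
      rw [p2] at h3
      split_ifs with hc
      · rw [size, size_fullTree, ih _ (by omega) (by omega)]; omega
      · rw [size, size_fullTree, ih _ (by omega) (by omega)]; omega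

theorem size_tdPair {d : ℕ} (hd : 2 ≤ d) : size (tdPair d).1 + size (tdPair d).2 = d := by
  obtain ⟨l, r, h⟩ := goodTree_node hd
  have h1 := size_goodTree d (by omega)
  rw [tdPair, h]
  rw [h] at h1
  exact h1

/-! ### optimality of the good tree -/

theorem opt_le {d : ℕ} (hd : 2 ≤ d) (p : Tr × Tr) (hp : size p.1 + size p.2 = d) :
    L2 v1 (tdPair d) ≤ L2 v1 p ∧ (L2 v1 p ≤ L2 v1 (tdPair d) → UEq p (tdPair d)) := by
  have h1 := tdPair_eq hd
  have h2 := L2_ueq Adm_v1 h1
  have h3 := L2_opt p
  rw [hp] at h3
  rw [h2]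
  rcases h3 with h3 | h3
  · exact ⟨h3.le, fun h => absurd h3 (not_lt.2 h)⟩
  · exact ⟨(L2_ueq Adm_v1 h3).ge, fun _ => h3.trans h1.symm⟩

/-! ### lower bound and uniqueness -/

theorem on_basis (d : ℕ) : Orthonormal ℝ (fun i : Fin d => (EuclideanSpace.single i (1 : ℝ))) :=
  EuclideanSpace.orthonormal_single

section tree

variable {d : ℕ} {V : Type} [Fintype V] [DecidableEq V] (G : SimpleGraph V) [DecidableRel G.Adj]
  (hG : G.IsTree) (pos : V → EuclideanSpace ℝ (Fin d)) (term : Fin d → V)
  (hterm : ∀ i, pos (term i) = EuclideanSpace.single i 1)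

include hterm in
theorem term_inj : Function.Injective term := by
  intro i j h
  have h1 : pos (term i) = pos (term j) := by rw [h]
  rw [hterm, hterm] at h1
  exact (on_basis d).linearIndependent.injective h1

include hterm in
theorem leaves_basis (p : ET V × ET V)
    (hp : leaves p.1 + leaves p.2 = (Finset.univ.map ⟨term, term_inj pos term hterm⟩).val) :
    leaves (fmap pos p.1) + leaves (fmap pos p.2) =
      (Finset.univ : Finset (Fin d)).val.map (fun i => EuclideanSpace.single i (1 : ℝ)) := by
  rw [fmap_leaves, fmap_leaves, ← Multiset.map_add, hp, Finset.map_val, Multiset.map_map]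
  refine Multiset.map_congr rfl fun i _ => ?_
  exact hterm i

include hterm in
theorem size_basis (p : ET V × ET V)
    (hp : leaves p.1 + leaves p.2 = (Finset.univ.map ⟨term, term_inj pos term hterm⟩).val) :
    size (pshape p).1 + size (pshape p).2 = d := by
  have h := congrArg Multiset.card hp
  rw [Multiset.card_add, card_leaves, card_leaves] at h
  rw [show size (pshape p).1 + size (pshape p).2 = size (shape p.1) + size (shape p.2) from rfl, h]
  simp

include hG hterm in
theorem tree_lower (hd : 2 ≤ d) : L2 v1 (tdPair d) ≤ 2 * tlen G pos := by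
  obtain ⟨p, hp, hw⟩ := exists_conv_le G hG (Finset.univ.map ⟨term, term_inj pos term hterm⟩)
    (by simpa using hd)
  have h1 := hw (fun u v => dist (pos u) (pos v)) (fun u v => dist_comm _ _)
    (fun x => dist_self _) (fun x y z => dist_triangle _ _ _)
  have h2 := lower_pair _ (on_basis d) (fmap pos p.1, fmap pos p.2)
    (leaves_basis pos term hterm p hp)
  rw [fmap_pwlen, fmap_pshape] at h2
  have h3 := (opt_le hd (pshape p) (size_basis pos term hterm p hp)).1
  unfold tlen
  linarith

include hG hterm in
theorem tree_unique (hd : 2 ≤ d) (hdeg : ∀ v, v ∉ Set.range term → 3 ≤ G.degree v)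
    (hle : 2 * tlen G pos ≤ L2 v1 (tdPair d)) : Nonempty (G ≃g UG (tdPair d)) := by
  obtain ⟨p, hp, hw⟩ := exists_conv_eq G hG (Finset.univ.map ⟨term, term_inj pos term hterm⟩)
    (by simpa using hd) (by
      intro v hv
      refine hdeg v fun ⟨i, hi⟩ => hv ?_
      rw [Finset.mem_map]
      exact ⟨i, Finset.mem_univ _, hi⟩)
  have h1 := hw (fun u v => dist (pos u) (pos v)) (fun u v => dist_comm _ _)
    (fun x => dist_self _)
  have hlv := leaves_basis pos term hterm p hp
  have h2 := lower_pair _ (on_basis d) (fmap pos p.1, fmap pos p.2) hlv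
  rw [fmap_pwlen, fmap_pshape] at h2
  obtain ⟨h3, h4⟩ := opt_le hd (pshape p) (size_basis pos term hterm p hp)
  unfold tlen at hle
  have h5 := h4 (by linarith)
  have h6 : NonDeg (fmap pos p.1, fmap pos p.2) := by
    refine nonDeg_of_min _ (on_basis d) _ hlv ?_
    rw [fmap_pwlen, fmap_pshape]
    linarith
  have hV : 2 ≤ Fintype.card V := by
    refine hd.trans ?_
    have := Fintype.card_le_of_injective term (term_inj pos term hterm)
    simpa using this
  obtain ⟨i1⟩ := conv_iso G hG hV p hw (fmap_nonDeg pos p h6)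
  obtain ⟨i2⟩ := UG_ueq h5
  exact ⟨i1.trans i2⟩

end tree

/-! ### existence -/

theorem STree.len_eq {d : ℕ} (t : STree d) [Fintype t.V] [DecidableEq t.V]
    [DecidableRel t.G.Adj] : t.len = tlen t.G t.pos := by
  unfold STree.len tlen
  rw [← SimpleGraph.coe_edgeFinset, finsum_mem_coe_finset]

/-- leaf vertices of a pair -/
def isL (p : Tr × Tr) : Vx p.1 ⊕ Vx p.2 → Prop := Sum.elim (isLf p.1) (isLf p.2)

open Classical in
theorem leaves_eq_map' {X : Type} (p : ET X × ET X) :
    (Finset.univ.filter (isL (pshape p))).val.map (plab p) = leaves p.1 + leaves p.2 := by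
  rw [modG2_map_eq, Fintype.sum_sum_type, leaves_eq_map, modG2_map_eq, modG2_map_eq]
  rfl

theorem exists_tree {d : ℕ} (hd : 2 ≤ d) : ∃ t : STree d, 2 * t.len = L2 v1 (tdPair d) ∧
    t.Embedded ∧ (∀ v : t.V, v ∉ Set.range t.term → 3 ≤ (t.G.neighborSet v).ncard) := by
  classical
  obtain ⟨p, h1, h2, h3⟩ := exists_place_min _ (on_basis d) (tdPair d).1 (tdPair d).2
    (size_tdPair hd)
  have h1' : pshape p = tdPair d := h1
  have hnd : NonDeg p := nonDeg_of_min _ (on_basis d) p h2 (by rw [h3, h1])
  have hinj : Function.Injective (fun i : Fin d => (EuclideanSpace.single i (1 : ℝ))) :=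
    (on_basis d).linearIndependent.injective
  have h4 := leaves_eq_map' p
  rw [h2] at h4
  have hex : ∀ i : Fin d, ∃ v, isL (pshape p) v ∧ plab p v = EuclideanSpace.single i (1 : ℝ) := by
    intro i
    have : EuclideanSpace.single i (1 : ℝ) ∈
        (Finset.univ.filter (isL (pshape p))).val.map (plab p) := by
      rw [h4]
      exact Multiset.mem_map_of_mem _ (by simp)
    rw [Multiset.mem_map] at this
    obtain ⟨v, hv, hv'⟩ := this
    exact ⟨v, (Finset.mem_filter.1 hv).2, hv'⟩
  choose term ht1 ht2 using hex
  have hnodup : ((Finset.univ.filter (isL (pshape p))).val.map (plab p)).Nodup := by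
    rw [h4]
    exact (Multiset.nodup_map_iff_of_injective hinj).2 Finset.univ.nodup
  have hrange : ∀ v, isL (pshape p) v → v ∈ Set.range term := by
    intro v hv
    have hv1 : v ∈ (Finset.univ.filter (isL (pshape p))).val :=
      Finset.mem_filter.2 ⟨Finset.mem_univ _, hv⟩
    have hm : plab p v ∈ (Finset.univ.filter (isL (pshape p))).val.map (plab p) :=
      Multiset.mem_map_of_mem _ hv1
    rw [h4, Multiset.mem_map] at hm
    obtain ⟨i, -, hi⟩ := hm
    refine ⟨i, ?_⟩
    refine Multiset.inj_on_of_nodup_map hnodup _ ?_ _ hv1 ?_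
    · exact Finset.mem_filter.2 ⟨Finset.mem_univ _, ht1 i⟩
    · rw [ht2]; exact hi
  let t : STree d :=
    { V := Vx (pshape p).1 ⊕ Vx (pshape p).2
      fin := inferInstance
      G := UG (pshape p)
      tree := UG_isTree _
      pos := plab p
      term := term
      term_pos := ht2 }
  have hlen : tlen (UG (pshape p)) (plab p) = pwlen dist p :=
    UG_sum p dist dist_comm
  have hlen2 : t.len = tlen (UG (pshape p)) (plab p) := by
    unfold STree.len tlen
    rw [← SimpleGraph.coe_edgeFinset, finsum_mem_coe_finset]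
  have h5 : 2 * t.len = L2 v1 (tdPair d) := by rw [hlen2, hlen, h3]
  refine ⟨t, h5, ?_, ?_⟩
  · have hemb := embedded_of_min (UG (pshape p)) (UG_isTree _) (plab p) (by
      intro u v huv heq
      rcases UG_adj_pedges p u v huv with h | h
      · exact hnd _ h heq
      · exact hnd _ h heq.symm) (by
      intro W _ _ H _ f q hH hq
      have h6 := tree_lower H hH q (fun i => f (term i)) (fun i => by rw [hq, ht2]) hd
      have h7 : 2 * tlen (UG (pshape p)) (plab p) = L2 v1 (tdPair d) := by rw [hlen, h3]
      linarith)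
    exact ⟨hemb.1, hemb.2⟩
  · intro v hv
    have hv' : ¬ isL (pshape p) v := fun h => hv (hrange v h)
    have hdeg : 3 ≤ (UG (pshape p)).degree v := by
      obtain ⟨g1, g2⟩ := UG_degree (pshape p)
      rcases v with v | v
      · exact g1 v hv'
      · exact g2 v hv'
    have : ((UG (pshape p)).neighborSet v).ncard = (UG (pshape p)).degree v := by
      rw [← SimpleGraph.card_neighborFinset_eq_degree, ← Set.ncard_coe_finset]
      simp
    show 3 ≤ ((UG (pshape p)).neighborSet v).ncard
    rw [this]; exact hdeg

/-- Main theorem. -/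
theorem smith_main (d : ℕ) (hd : 2 ≤ d) :
    (∃ t : STree d, IsSMT t) ∧ ∀ t : STree d, IsSMT t → Nonempty (t.G ≃g UG (tdPair d)) := by
  classical
  obtain ⟨t0, h1, h2, h3⟩ := exists_tree hd
  refine ⟨⟨t0, h2, h3, ?_⟩, ?_⟩
  · intro t' _
    have := t'.fin
    have h4 := tree_lower t'.G t'.tree t'.pos t'.term t'.term_pos hd
    rw [← t'.len_eq] at h4
    linarith
  · rintro t ⟨h4, h5, h6⟩
    have := t.fin
    refine tree_unique t.G t.tree t.pos t.term t.term_pos hd ?_ ?_
    · intro v hv
      have h8 := h5 v hv
      have h9 : (t.G.neighborSet v).ncard = t.G.degree v := by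
        rw [← SimpleGraph.card_neighborFinset_eq_degree, ← Set.ncard_coe_finset]
        simp
      rwa [h9] at h8
    · have h7 := h6 t0 h2
      rw [← t.len_eq]
      linarith

end Pool.Agent.Helper29.Smith
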