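import Pool.Agent.Helper29.Smith.Star

/-! The functional `L2`: existence of minimisers, invariance, structure of minimisers. -/

set_option linter.unusedVariables false
set_option linter.unusedSectionVars false

namespace Pool.Agent.Helper29.Smith

open Pool.Agent.Helper29.Steiner BT

variable {α : Type} {val : α → Set (ℝ × ℝ)}

lemma Adm_v1 : Adm v1 := by
  intro a
  refine ⟨isCompact_singleton, Set.singleton_nonempty _, ?_⟩
  intro s hs
  rw [v1, Set.mem_singleton_iff] at hs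
  rw [hs]; norm_num

lemma mg_pos {a b : ℝ × ℝ} {w : ℝ} (ha : 0 < a.1) (hb : 0 < b.1) : 0 < (mg a b w).1 := by
  simp only [mg]
  rcases eq_or_ne w 0 with rfl | h
  · simp; exact ha
  · have : 0 < w ^ 2 := by positivity
    positivity

lemma continuous_mg : Continuous (fun x : (ℝ × ℝ) × (ℝ × ℝ) × ℝ => mg x.1 x.2.1 x.2.2) := by
  unfold mg qq
  fun_prop

lemma continuous_fin2 : Continuous (fun x : (ℝ × ℝ) × (ℝ × ℝ) => fin2 x.1 x.2) := by
  unfold fin2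
  fun_prop

lemma SS_node_image (l r : BT α) : SS val (node l r) =
    (fun x : (ℝ × ℝ) × (ℝ × ℝ) × ℝ => mg x.1 x.2.1 x.2.2) ''
      (SS val l ×ˢ (SS val r ×ˢ Set.Icc (0 : ℝ) 1)) := by
  ext s
  constructor
  · rintro ⟨a, ha, b, hb, w, hw, rfl⟩
    exact ⟨(a, b, w), ⟨ha, hb, hw⟩, rfl⟩
  · rintro ⟨⟨a, b, w⟩, ⟨ha, hb, hw⟩, rfl⟩
    exact ⟨a, ha, b, hb, w, hw, rfl⟩

theorem SS_adm (h : Adm val) (x : BT α) :
    IsCompact (SS val x) ∧ (SS val x).Nonempty ∧ ∀ s ∈ SS val x, 0 < s.1 := by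
  induction x with
  | leaf a => exact h a
  | node l r hl hr =>
    obtain ⟨hl1, hl2, hl3⟩ := hl
    obtain ⟨hr1, hr2, hr3⟩ := hr
    refine ⟨?_, ?_, ?_⟩
    · rw [SS_node_image]
      exact (hl1.prod (hr1.prod isCompact_Icc)).image continuous_mg
    · obtain ⟨a, ha⟩ := hl2
      obtain ⟨b, hb⟩ := hr2
      exact ⟨mg a b 0, a, ha, b, hb, 0, ⟨le_rfl, zero_le_one⟩, rfl⟩
    · rintro s ⟨a, ha, b, hb, w, hw, rfl⟩
      exact mg_pos (hl3 a ha) (hr3 b hb)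

lemma Adm_SS (h : Adm val) : Adm (SS val) := SS_adm h

lemma SS_join (X : BT (BT α)) : SS val (join X) = SS (SS val) X := by
  induction X with
  | leaf a => rfl
  | node l r hl hr => simp only [join, SS, hl, hr]

lemma L2_fl (T : BT (BT α) × BT (BT α)) : L2 val (fl T) = L2 (SS val) T := by
  simp only [L2, fl, SS_join]

lemma L2_set_image (x y : BT α) :
    {c | ∃ a ∈ SS val x, ∃ b ∈ SS val y, c = fin2 a b} =
      (fun p : (ℝ × ℝ) × (ℝ × ℝ) => fin2 p.1 p.2) '' (SS val x ×ˢ SS val y) := by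
  ext c
  constructor
  · rintro ⟨a, ha, b, hb, rfl⟩
    exact ⟨(a, b), ⟨ha, hb⟩, rfl⟩
  · rintro ⟨⟨a, b⟩, ⟨ha, hb⟩, rfl⟩
    exact ⟨a, ha, b, hb, rfl⟩

lemma L2_set_compact (h : Adm val) (x y : BT α) :
    IsCompact {c | ∃ a ∈ SS val x, ∃ b ∈ SS val y, c = fin2 a b} := by
  rw [L2_set_image]
  exact ((SS_adm h x).1.prod (SS_adm h y).1).image continuous_fin2

lemma L2_set_nonempty (h : Adm val) (x y : BT α) :
    {c | ∃ a ∈ SS val x, ∃ b ∈ SS val y, c = fin2 a b}.Nonempty := by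
  obtain ⟨a, ha⟩ := (SS_adm h x).2.1
  obtain ⟨b, hb⟩ := (SS_adm h y).2.1
  exact ⟨fin2 a b, a, ha, b, hb, rfl⟩

theorem L2_le (h : Adm val) {x y : BT α} {s t : ℝ × ℝ} (hs : s ∈ SS val x) (ht : t ∈ SS val y) :
    L2 val (x, y) ≤ fin2 s t :=
  csInf_le (L2_set_compact h x y).bddBelow ⟨s, hs, t, ht, rfl⟩

theorem exists_MP (h : Adm val) (x y : BT α) : ∃ s t, MP val x s y t := by
  obtain ⟨s, hs, t, ht, hst⟩ := (L2_set_compact h x y).sInf_mem (L2_set_nonempty h x y)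
  exact ⟨s, t, hs, ht, hst.symm⟩

lemma fin2_comm (s t : ℝ × ℝ) : fin2 s t = fin2 t s := by
  simp only [fin2]; rw [add_comm s.2, add_comm s.1]

lemma L2_comm (x y : BT α) : L2 val (x, y) = L2 val (y, x) := by
  simp only [L2]
  congr 1
  ext c
  constructor
  · rintro ⟨a, ha, b, hb, rfl⟩; exact ⟨b, hb, a, ha, fin2_comm _ _⟩
  · rintro ⟨a, ha, b, hb, rfl⟩; exact ⟨b, hb, a, ha, fin2_comm _ _⟩

theorem MP_symm {x y : BT α} {s t : ℝ × ℝ} (h : MP val x s y t) : MP val y t x s :=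
  ⟨h.2.1, h.1, by rw [fin2_comm, L2_comm]; exact h.2.2⟩

lemma mg_comm (a b : ℝ × ℝ) (w : ℝ) : mg a b w = mg b a (1 - w) := by
  simp only [mg, qq, Prod.mk.injEq]
  constructor
  · ring
  · rw [add_comm b.1 a.1]
    have : 1 - (1 - w) + (1 - w) ^ 2 = 1 - w + w ^ 2 := by ring
    rw [this]; ring

lemma SS_node_comm (l r : BT α) : SS val (node l r) = SS val (node r l) := by
  ext s
  constructor
  · rintro ⟨a, ha, b, hb, w, hw, rfl⟩
    exact ⟨b, hb, a, ha, 1 - w, ⟨by linarith [hw.2], by linarith [hw.1]⟩, mg_comm _ _ _⟩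
  · rintro ⟨a, ha, b, hb, w, hw, rfl⟩
    exact ⟨b, hb, a, ha, 1 - w, ⟨by linarith [hw.2], by linarith [hw.1]⟩, mg_comm _ _ _⟩

/-- the parameter of the optimal star -/
noncomputable def w0 (A B C : ℝ) : ℝ := zl A B C / (zl A B C + zl B A C)

lemma w0_mem {A B C : ℝ} (hA : 0 < A) (hB : 0 < B) (hC : 0 < C) :
    w0 A B C ∈ Set.Icc (0 : ℝ) 1 := by
  have h1 := zl_pos hA hB hC
  have h2 := zl_pos hB hA hC
  unfold w0
  constructor
  · positivity
  · rw [div_le_one (by positivity)]; linarith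

lemma pl_lt_left {x y : ℝ} (hx : 0 < x) (hy : 0 < y) : pl x y < x := by
  unfold pl; rw [div_lt_iff₀ (by positivity)]; nlinarith

lemma pl_lt_right {x y : ℝ} (hx : 0 < x) (hy : 0 < y) : pl x y < y := by
  unfold pl; rw [div_lt_iff₀ (by positivity)]; nlinarith

lemma pl_pos {x y : ℝ} (hx : 0 < x) (hy : 0 < y) : 0 < pl x y := by
  unfold pl; positivity

lemma pl_comm (x y : ℝ) : pl x y = pl y x := by
  unfold pl; rw [mul_comm, add_comm]

/-- total cost of a star -/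
lemma star_fin_ge {a b t : ℝ × ℝ} (ha : 0 < a.1) (hb : 0 < b.1) (ht : 0 < t.1) (w : ℝ) :
    a.2 + b.2 + t.2 + 2 * SL a.1 b.1 t.1 ≤ fin2 (mg a b w) t := by
  have := star_le ha hb ht w
  simp only [fin2, mg]
  linarith

lemma sqrt_cost {A B C : ℝ} (hA : 0 < A) (hB : 0 < B) (hC : 0 < C) :
    Real.sqrt ((A + B) * qq (w0 A B C)) = zl A B C + zl B A C - pl (zl A B C) (zl B A C) := by
  have h1 := zl_pos hA hB hC
  have h2 := zl_pos hB hA hC
  unfold w0
  rw [star_cost hA hB hC, Real.sqrt_sq]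
  have := pl_lt_left h1 h2
  linarith

lemma sqrt_val {A B C : ℝ} (hA : 0 < A) (hB : 0 < B) (hC : 0 < C) :
    Real.sqrt ((1 - w0 A B C) ^ 2 * A + (w0 A B C) ^ 2 * B + C)
      = zl C A B + pl (zl A B C) (zl B A C) := by
  have h1 := zl_pos hA hB hC
  have h2 := zl_pos hB hA hC
  have h3 := zl_pos hC hA hB
  unfold w0
  rw [star_val hA hB hC, Real.sqrt_sq]
  have := pl_pos h1 h2
  linarith

lemma star_fin_eq {a b t : ℝ × ℝ} (ha : 0 < a.1) (hb : 0 < b.1) (ht : 0 < t.1) :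
    fin2 (mg a b (w0 a.1 b.1 t.1)) t = a.2 + b.2 + t.2 + 2 * SL a.1 b.1 t.1 := by
  simp only [fin2, mg]
  rw [sqrt_cost ha hb ht, sqrt_val ha hb ht, ← zl_sum ha hb ht]
  ring

lemma L2_rot_le (h : Adm val) (a b c : BT α) :
    L2 val (a, node b c) ≤ L2 val (node a b, c) := by
  obtain ⟨s, t, ⟨sa, ha, sb, hb, w, hw, rfl⟩, ht, hst⟩ := exists_MP h (node a b) c
  have pa := (SS_adm h a).2.2 _ ha
  have pb := (SS_adm h b).2.2 _ hb
  have pt := (SS_adm h c).2.2 _ ht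
  rw [← hst]
  have h1 := star_fin_ge pa pb pt w
  have h2 := star_fin_eq pb pt pa
  have h3 : mg sb t (w0 sb.1 t.1 sa.1) ∈ SS val (node b c) :=
    ⟨sb, hb, t, ht, _, w0_mem pb pt pa, rfl⟩
  have h4 := L2_le h ha h3
  rw [fin2_comm, h2, ← SL_rot] at h4
  linarith

lemma L2_sw (a b c : BT α) : L2 val (node a b, c) = L2 val (node b a, c) := by
  simp only [L2, SS_node_comm a b]

lemma L2_rot (h : Adm val) (a b c : BT α) :
    L2 val (node a b, c) = L2 val (a, node b c) := by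
  apply le_antisymm _ (L2_rot_le h a b c)
  have h1 := L2_rot_le h c b a
  rw [L2_comm c (node b a), L2_comm (node c b) a, L2_sw b a c] at h1
  refine h1.trans ?_
  rw [L2_comm a, L2_comm a, L2_sw]

theorem L2_ueq (h : Adm val) {p q : BT α × BT α} (hpq : UEq p q) : L2 val p = L2 val q := by
  induction hpq with
  | refl p => rfl
  | symm _ ih => exact ih.symm
  | trans _ _ ih1 ih2 => exact ih1.trans ih2
  | comm a b => exact L2_comm _ _
  | rot a b c => exact L2_rot h _ _ _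
  | sw a b c => exact L2_sw _ _ _

/-- at a minimiser the parameter is that of the optimal star -/
theorem MP_w (h : Adm val) {l r y : BT α} {a b t : ℝ × ℝ} {w : ℝ} (ha : a ∈ SS val l)
    (hb : b ∈ SS val r) (hw : w ∈ Set.Icc (0 : ℝ) 1) (hm : MP val (node l r) (mg a b w) y t) :
    w = zl a.1 b.1 t.1 / (zl a.1 b.1 t.1 + zl b.1 a.1 t.1) := by
  have pa := (SS_adm h l).2.2 _ ha
  have pb := (SS_adm h r).2.2 _ hb
  have pt := (SS_adm h y).2.2 _ hm.2.1
  have h3 : mg a b (w0 a.1 b.1 t.1) ∈ SS val (node l r) :=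
    ⟨a, ha, b, hb, _, w0_mem pa pb pt, rfl⟩
  have h4 := L2_le h h3 hm.2.1
  rw [← hm.2.2, star_fin_eq pa pb pt] at h4
  have h5 := star_fin_ge pa pb pt w
  apply star_eq pa pb pt
  simp only [fin2, mg] at h4 h5
  linarith

/-- the two re-rootings of a minimiser -/
theorem MP_node (h : Adm val) {l r y : BT α} {s t : ℝ × ℝ} (hm : MP val (node l r) s y t) :
    ∃ a ∈ SS val l, ∃ b ∈ SS val r,
      s = mg a b (zl a.1 b.1 t.1 / (zl a.1 b.1 t.1 + zl b.1 a.1 t.1)) ∧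
      MP val l a (node r y) (mg b t (zl b.1 t.1 a.1 / (zl b.1 t.1 a.1 + zl t.1 b.1 a.1))) ∧
      MP val r b (node l y) (mg a t (zl a.1 t.1 b.1 / (zl a.1 t.1 b.1 + zl t.1 a.1 b.1))) := by
  obtain ⟨⟨a, ha, b, hb, w, hw, rfl⟩, ht, hst⟩ := id hm
  have pa := (SS_adm h l).2.2 _ ha
  have pb := (SS_adm h r).2.2 _ hb
  have pt := (SS_adm h y).2.2 _ ht
  have hw' := MP_w h ha hb hw hm
  subst hw'
  have e1 : fin2 (mg a b (zl a.1 b.1 t.1 / (zl a.1 b.1 t.1 + zl b.1 a.1 t.1))) t =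
      a.2 + b.2 + t.2 + 2 * SL a.1 b.1 t.1 := star_fin_eq pa pb pt
  rw [hst] at e1
  refine ⟨a, ha, b, hb, rfl, ⟨ha, ⟨b, hb, t, ht, _, w0_mem pb pt pa, rfl⟩, ?_⟩,
    ⟨hb, ⟨a, ha, t, ht, _, w0_mem pa pt pb, rfl⟩, ?_⟩⟩
  · rw [fin2_comm, ← w0, star_fin_eq pb pt pa, ← SL_rot, ← L2_rot h, e1]
    ring
  · rw [fin2_comm, ← w0, star_fin_eq pa pt pb, SL_swap, ← L2_rot h, ← L2_sw l r, e1]
    ring

end Pool.Agent.Helper29.Smith
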