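import Pool.Agent.Helper29.Smith.Defs

/-! Labelled rerooting. -/

set_option linter.unusedVariables false
set_option linter.unusedSectionVars false

namespace Pool.Agent.Helper29.Smith

open Pool.Agent.Helper29.Steiner BT ET

theorem LEq_ueq {X : Type} {p q : ET X × ET X} (h : LEq p q) : UEq (pshape p) (pshape q) := by
  induction h with
  | refl p => exact UEq.refl _
  | comm a b => exact UEq.comm _ _
  | trans _ _ ih1 ih2 => exact ih1.trans ih2
  | rot x a b c => exact UEq.rot _ _ _
  | rot' x a b c => exact (UEq.rot _ _ _).symm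
  | sw x a b c => exact UEq.sw _ _ _

theorem LEq_wlen {X : Type} {p q : ET X × ET X} (h : LEq p q) (w : X → X → ℝ)
    (hw : ∀ x y, w x y = w y x) : pwlen w p = pwlen w q := by
  induction h with
  | refl p => rfl
  | comm a b =>
    show w (pos a) (pos b) + wlen w a + wlen w b = w (pos b) (pos a) + wlen w b + wlen w a
    rw [hw (pos a) (pos b)]; ring
  | trans _ _ ih1 ih2 => exact ih1.trans ih2
  | rot x a b c =>
    show w x (pos c) + (w x (pos a) + w x (pos b) + wlen w a + wlen w b) + wlen w c =
      w (pos a) x + wlen w a + (w x (pos b) + w x (pos c) + wlen w b + wlen w c)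
    rw [hw (pos a) x]; ring
  | rot' x a b c =>
    show w (pos a) x + wlen w a + (w x (pos b) + w x (pos c) + wlen w b + wlen w c) =
      w x (pos c) + (w x (pos a) + w x (pos b) + wlen w a + wlen w b) + wlen w c
    rw [hw (pos a) x]; ring
  | sw x a b c =>
    show w x (pos c) + (w x (pos a) + w x (pos b) + wlen w a + wlen w b) + wlen w c =
      w x (pos c) + (w x (pos b) + w x (pos a) + wlen w b + wlen w a) + wlen w c
    ring

theorem LEq_leaves {X : Type} {p q : ET X × ET X} (h : LEq p q) :
    leaves p.1 + leaves p.2 = leaves q.1 + leaves q.2 := by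
  induction h with
  | refl p => rfl
  | comm a b => exact add_comm _ _
  | trans _ _ ih1 ih2 => exact ih1.trans ih2
  | rot x a b c => simp only [leaves]; exact add_assoc _ _ _
  | rot' x a b c => simp only [leaves]; exact (add_assoc _ _ _).symm
  | sw x a b c => simp only [leaves]; rw [add_comm (leaves a)]

theorem modG4_left {X : Type} (x : X) (a l r : ET X) :
    LEq (a, ET.node x l r) (ET.node x a r, l) :=
  (LEq.comm _ _).trans ((LEq.sw x l r a).trans ((LEq.comm _ _).trans (LEq.rot' x a r l)))

theorem modG4_reroot {X : Type} (e : X × X) : ∀ (y a : ET X), e ∈ edges y →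
    ∃ q : ET X × ET X, LEq (a, y) q ∧ pos q.1 = e.1 ∧ pos q.2 = e.2 := by
  intro y
  induction y with
  | leaf x => intro a h; simp [edges] at h
  | node x l r hl hr =>
    intro a h
    simp only [edges, List.mem_cons, List.mem_append] at h
    rcases h with h | h | h | h
    · exact ⟨(ET.node x a r, l), modG4_left x a l r, by rw [h]; rfl, by rw [h]⟩
    · exact ⟨(ET.node x a l, r), LEq.rot' x a l r, by rw [h]; rfl, by rw [h]⟩
    · obtain ⟨q, h1, h2⟩ := hl (ET.node x a r) h
      exact ⟨q, (modG4_left x a l r).trans h1, h2⟩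
    · obtain ⟨q, h1, h2⟩ := hr (ET.node x a l) h
      exact ⟨q, (LEq.rot' x a l r).trans h1, h2⟩

theorem reroot {X : Type} (p : ET X × ET X) (e : X × X) (he : e ∈ pedges p) :
    ∃ q : ET X × ET X, LEq p q ∧ pos q.1 = e.1 ∧ pos q.2 = e.2 := by
  simp only [pedges, List.mem_cons, List.mem_append] at he
  rcases he with h | h | h
  · exact ⟨p, LEq.refl p, by rw [h], by rw [h]⟩
  · obtain ⟨q, h1, h2⟩ := modG4_reroot e p.1 p.2 h
    exact ⟨q, (LEq.comm p.1 p.2).trans h1, h2⟩
  · obtain ⟨q, h1, h2⟩ := modG4_reroot e p.2 p.1 h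
    exact ⟨q, h1, h2⟩

end Pool.Agent.Helper29.Smith
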