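import Pool.Agent.Helper29.Smith.Fun

/-! Lower bound for placed binary trees, with the equality case at the root edge. -/

set_option linter.unusedVariables false
set_option linter.unusedSectionVars false

namespace Pool.Agent.Helper29.Smith

open Pool.Agent.Helper29.Steiner BT ET

/-- `ρ` is the distance from the root to its virtual point for the state `s` of `x`:
zero for a leaf, and `w (1 - w) sqrt ((a.1 + b.1) / qq w)` for a node. -/
def Rt (x : Tr) (s : ℝ × ℝ) (ρ : ℝ) : Prop :=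
  (x = o ∧ ρ = 0) ∨ ∃ l r a b w, x = BT.node l r ∧ a ∈ SS v1 l ∧ b ∈ SS v1 r ∧
    w ∈ Set.Icc (0 : ℝ) 1 ∧ s = mg a b w ∧ ρ = w * (1 - w) * Real.sqrt ((a.1 + b.1) / qq w)

namespace Lower

lemma split {E ι : Type} [DecidableEq ι] (e : ι → E) (he : Function.Injective e)
    (A B : Multiset E) (I : Finset ι) (h : A + B = I.val.map e) :
    ∃ I1 I2 : Finset ι, Disjoint I1 I2 ∧ I1 ⊆ I ∧ I2 ⊆ I ∧ A = I1.val.map e ∧
      B = I2.val.map e := by
  classical
  have hnd : (A + B).Nodup := by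
    rw [h]
    exact I.nodup.map he
  obtain ⟨hA, hB, hAB⟩ := Multiset.nodup_add.1 hnd
  have hdis : ∀ x, x ∈ B → x ∉ A := fun x hx hx' => Multiset.disjoint_left.1 hAB hx' hx
  refine ⟨I.filter (fun i => e i ∈ A), I.filter (fun i => e i ∉ A),
    Finset.disjoint_filter_filter_not _ _ _, Finset.filter_subset _ _,
    Finset.filter_subset _ _, ?_, ?_⟩
  · have h1 : (I.filter (fun i => e i ∈ A)).val.map e
        = (I.val.map e).filter (fun x => x ∈ A) := by
      rw [Multiset.filter_map]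
      rfl
    rw [h1, ← h, Multiset.filter_add, Multiset.filter_eq_self.2 fun x hx => hx,
      Multiset.filter_eq_nil.2 fun x hx => hdis x hx, add_zero]
  · have h1 : (I.filter (fun i => e i ∉ A)).val.map e
        = (I.val.map e).filter (fun x => x ∉ A) := by
      rw [Multiset.filter_map]
      rfl
    rw [h1, ← h, Multiset.filter_add, Multiset.filter_eq_self.2 fun x hx => hdis x hx,
      Multiset.filter_eq_nil.2 fun x hx => not_not.2 hx, zero_add]

lemma ortho {E : Type} [NormedAddCommGroup E] [InnerProductSpace ℝ E] {ι : Type}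
    (e : ι → E) (he : Orthonormal ℝ e) {I J : Finset ι} (hIJ : Disjoint I J) {P Q : E}
    (hP : P ∈ Submodule.span ℝ (e '' (I : Set ι))) (hQ : Q ∈ Submodule.span ℝ (e '' (J : Set ι))) :
    inner ℝ P Q = 0 := by
  have h : Submodule.span ℝ (e '' (I : Set ι)) ⟂ Submodule.span ℝ (e '' (J : Set ι)) := by
    rw [Submodule.isOrtho_span]
    rintro _ ⟨i, hi, rfl⟩ _ ⟨j, hj, rfl⟩
    refine he.2 ?_
    rintro rfl
    exact Finset.disjoint_left.1 hIJ hi hj
  exact Submodule.isOrtho_iff_inner_eq.1 h P hP Q hQ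

lemma dist_ortho {E : Type} [NormedAddCommGroup E] [InnerProductSpace ℝ E] {P Q : E}
    (h : inner ℝ P Q = 0) : dist P Q ^ 2 = ‖P‖ ^ 2 + ‖Q‖ ^ 2 := by
  rw [dist_eq_norm, norm_sub_sq_real, h]
  ring

/-- Cauchy-Schwarz in the plane, with the equality case. -/
lemma cs {t T D δ : ℝ} (ht0 : 0 ≤ t) (ht1 : t < 1) (hD : 0 < D) (hDT : D ≤ T) (hδ : 0 ≤ δ)
    (h : δ ^ 2 = t * (T ^ 2 - D ^ 2)) :
    D * Real.sqrt (1 - t) + δ ≤ T ∧
      (D * Real.sqrt (1 - t) + δ = T → δ = t * Real.sqrt (D ^ 2 / (1 - t))) := by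
  have hv : 0 ≤ T ^ 2 - D ^ 2 := by nlinarith
  set u := Real.sqrt (1 - t) with hu
  have hu2 : u ^ 2 = 1 - t := Real.sq_sqrt (by linarith)
  have hu0 : 0 < u := Real.sqrt_pos.2 (by linarith)
  set a := Real.sqrt t with ha
  have ha2 : a ^ 2 = t := Real.sq_sqrt ht0
  have ha0 : 0 ≤ a := Real.sqrt_nonneg _
  set b := Real.sqrt (T ^ 2 - D ^ 2) with hb
  have hb2 : b ^ 2 = T ^ 2 - D ^ 2 := Real.sq_sqrt hv
  have hb0 : 0 ≤ b := Real.sqrt_nonneg _
  have hδab : δ = a * b := by
    have h1 : δ ^ 2 = (a * b) ^ 2 := by rw [h, mul_pow, ha2, hb2]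
    exact (sq_eq_sq₀ hδ (mul_nonneg ha0 hb0)).1 h1
  have hkey : T ^ 2 - (D * u + δ) ^ 2 = (a * D - u * b) ^ 2 := by
    rw [hδab]
    have e1 : T ^ 2 = b ^ 2 + D ^ 2 := by linarith
    have e2 : (a ^ 2 + u ^ 2) = 1 := by rw [ha2, hu2]; ring
    rw [e1]
    linear_combination (-(b ^ 2) - D ^ 2) * e2
  refine ⟨?_, fun heq => ?_⟩
  · apply le_of_sq_le_sq _ (by linarith)
    nlinarith [sq_nonneg (a * D - u * b)]
  · rw [heq, sub_self] at hkey
    have h1 : a * D - u * b = 0 := by
      have := hkey.symm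
      exact pow_eq_zero_iff (two_ne_zero) |>.1 this
    have h2 : b = a * D / u := by
      field_simp
      linarith
    have h3 : Real.sqrt (D ^ 2 / (1 - t)) = D / u := by
      rw [← hu2, ← div_pow, Real.sqrt_sq (by positivity)]
    rw [h3, hδab, h2, ← ha2]
    ring

/-- Stewart's theorem for the point dividing the segment in the ratio of the distances. -/
lemma stewart {E : Type} [NormedAddCommGroup E] [InnerProductSpace ℝ E] (x P Q : E) (w : ℝ) :
    dist x ((1 - w) • P + w • Q) ^ 2 =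
      (1 - w) * dist x P ^ 2 + w * dist x Q ^ 2 - w * (1 - w) * dist P Q ^ 2 := by
  have e1 : x - ((1 - w) • P + w • Q) = (1 - w) • (x - P) + w • (x - Q) := by module
  have e2 : P - Q = (x - Q) - (x - P) := by abel
  rw [dist_eq_norm, dist_eq_norm, dist_eq_norm, dist_eq_norm, e1, e2]
  generalize x - P = A
  generalize x - Q = B
  rw [norm_add_sq_real, norm_sub_sq_real, norm_smul, norm_smul, inner_smul_left,
    inner_smul_right, real_inner_comm B A]
  simp only [Real.norm_eq_abs, conj_trivial, mul_pow, sq_abs]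
  ring

end Lower

/-- Rooted lower bound. `e` is an orthonormal family; the leaves of `a` are `e i`, `i ∈ I`. -/
theorem lower_rooted {E : Type} [NormedAddCommGroup E] [InnerProductSpace ℝ E] {ι : Type}
    [DecidableEq ι] (e : ι → E) (he : Orthonormal ℝ e) (a : ET E) (I : Finset ι)
    (hI : leaves a = I.val.map e) :
    ∃ s ∈ SS v1 (shape a), ∃ P ∈ Submodule.span ℝ (e '' (I : Set ι)), ‖P‖ ^ 2 = s.1 ∧
      ∃ ρ : ℝ, Rt (shape a) s ρ ∧
      ∀ z : E, s.2 / 2 + dist z P ≤ wlen dist a + dist z (pos a) ∧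
        (s.2 / 2 + dist z P = wlen dist a + dist z (pos a) →
          dist (pos a) P = ρ ∧ dist z P = dist z (pos a) + ρ) := by
  induction a generalizing I with
  | leaf x =>
    have hcard : I.card = 1 := by
      have := congrArg Multiset.card hI
      simpa [leaves] using this.symm
    obtain ⟨i, rfl⟩ := Finset.card_eq_one.1 hcard
    have hx : x = e i := by
      simpa [leaves] using hI
    subst hx
    refine ⟨(1, 0), rfl, e i, Submodule.subset_span ⟨i, by simp, rfl⟩, by simp [he.1 i], 0,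
      Or.inl ⟨rfl, rfl⟩, fun z => ?_⟩
    simp [wlen, pos]
  | node x l r ihl ihr =>
    have hinj : Function.Injective e := he.linearIndependent.injective
    obtain ⟨I1, I2, hdis, hI1, hI2, hl, hr⟩ := Lower.split e hinj _ _ I hI
    obtain ⟨s, hs, P, hP, hPn, ρ1, hR1, h1⟩ := ihl I1 hl
    obtain ⟨t, ht, Q, hQ, hQn, ρ2, hR2, h2⟩ := ihr I2 hr
    have hspos : 0 < s.1 := (SS_adm Adm_v1 (shape l)).2.2 s hs
    have htpos : 0 < t.1 := (SS_adm Adm_v1 (shape r)).2.2 t ht
    have hPQ : inner ℝ P Q = 0 := Lower.ortho e he hdis hP hQ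
    have hD2 : dist P Q ^ 2 = s.1 + t.1 := by rw [Lower.dist_ortho hPQ, hPn, hQn]
    have hD : 0 < dist P Q := by
      have h0 : 0 ≤ dist P Q := dist_nonneg
      rcases h0.eq_or_lt with h | h
      · rw [← h] at hD2
        nlinarith
      · exact h
    set T : ℝ := dist x P + dist x Q with hT
    have hDT : dist P Q ≤ T := by
      have := dist_triangle_left P Q x
      exact this
    have hT0 : 0 < T := hD.trans_le hDT
    set w : ℝ := dist x P / T with hw
    have hw0 : 0 ≤ w := div_nonneg dist_nonneg hT0.le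
    have hw1 : w ≤ 1 := by
      rw [hw, div_le_one hT0]
      linarith [dist_nonneg (x := x) (y := Q)]
    have e1 : dist x P = w * T := by
      rw [hw]; field_simp
    have e2 : dist x Q = (1 - w) * T := by
      have : dist x Q = T - dist x P := by rw [hT]; ring
      rw [this, e1]; ring
    have hqq : qq w = 1 - w * (1 - w) := by rw [qq]; ring
    have hqpos : 0 < qq w := qq_pos w
    set R : E := (1 - w) • P + w • Q with hR
    have hst : dist x R ^ 2 = (w * (1 - w)) * (T ^ 2 - dist P Q ^ 2) := by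
      rw [hR, Lower.stewart, e1, e2]
      ring
    have hRn : ‖R‖ ^ 2 = (1 - w) ^ 2 * s.1 + w ^ 2 * t.1 := by
      rw [hR, norm_add_sq_real, norm_smul, norm_smul, inner_smul_left, inner_smul_right, hPQ,
        mul_pow, mul_pow, hPn, hQn]
      simp
    obtain ⟨c1, c2⟩ := Lower.cs (t := w * (1 - w)) (by nlinarith) (by rw [hqq] at hqpos; linarith)
      hD hDT dist_nonneg hst
    have hsq : Real.sqrt ((s.1 + t.1) * qq w) = dist P Q * Real.sqrt (1 - w * (1 - w)) := by
      rw [← hD2, hqq, Real.sqrt_mul (sq_nonneg _), Real.sqrt_sq dist_nonneg]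
    refine ⟨mg s t w, ⟨s, hs, t, ht, w, ⟨hw0, hw1⟩, rfl⟩, R, ?_, hRn,
      w * (1 - w) * Real.sqrt ((s.1 + t.1) / qq w),
      Or.inr ⟨_, _, s, t, w, rfl, hs, ht, ⟨hw0, hw1⟩, rfl, rfl⟩, fun z => ?_⟩
    · refine Submodule.add_mem _ (Submodule.smul_mem _ _ ?_) (Submodule.smul_mem _ _ ?_)
      · exact Submodule.span_mono (Set.image_mono (by exact_mod_cast hI1)) hP
      · exact Submodule.span_mono (Set.image_mono (by exact_mod_cast hI2)) hQ
    · have t1 := (h1 x).1
      have t2 := (h2 x).1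
      have t3 : dist z R ≤ dist z x + dist x R := dist_triangle _ _ _
      have hms : (mg s t w).2 / 2 = s.2 / 2 + t.2 / 2 +
          dist P Q * Real.sqrt (1 - w * (1 - w)) := by
        simp only [mg]
        rw [hsq]
        ring
      have hwl : wlen dist (ET.node x l r) = dist x (pos l) + dist x (pos r) + wlen dist l +
          wlen dist r := rfl
      have hpx : pos (ET.node x l r) = x := rfl
      rw [hms, hwl, hpx]
      have hsum : dist x P + dist x Q = T := rfl
      refine ⟨by linarith, fun heq => ?_⟩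
      have heq1 : dist P Q * Real.sqrt (1 - w * (1 - w)) + dist x R = T := by linarith
      have heq2 : dist z R = dist z x + dist x R := by linarith
      have h5 := c2 heq1
      rw [hD2, ← hqq] at h5
      exact ⟨h5, by rw [heq2, h5]⟩

namespace Lower

lemma pair_aux {E : Type} [NormedAddCommGroup E] [InnerProductSpace ℝ E] {ι : Type}
    [Fintype ι] [DecidableEq ι] (e : ι → E) (he : Orthonormal ℝ e) (p : ET E × ET E)
    (hp : leaves p.1 + leaves p.2 = (Finset.univ : Finset ι).val.map e) :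
    ∃ s ∈ SS v1 (shape p.1), ∃ t ∈ SS v1 (shape p.2), ∃ ρ1 ρ2, Rt (shape p.1) s ρ1 ∧
      Rt (shape p.2) t ρ2 ∧ fin2 s t ≤ 2 * pwlen dist p ∧
      (fin2 s t = 2 * pwlen dist p →
        Real.sqrt (s.1 + t.1) = ρ1 + ρ2 + dist (pos p.1) (pos p.2)) := by
  have hinj : Function.Injective e := he.linearIndependent.injective
  obtain ⟨I1, I2, hdis, -, -, hl, hr⟩ := split e hinj _ _ _ hp
  obtain ⟨s, hs, P, hP, hPn, ρ1, hR1, h1⟩ := lower_rooted e he p.1 I1 hl
  obtain ⟨t, ht, Q, hQ, hQn, ρ2, hR2, h2⟩ := lower_rooted e he p.2 I2 hr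
  have hPQ : inner ℝ P Q = 0 := ortho e he hdis hP hQ
  have hD : Real.sqrt (s.1 + t.1) = dist P Q := by
    rw [← hPn, ← hQn, ← dist_ortho hPQ, Real.sqrt_sq dist_nonneg]
  obtain ⟨a1, a2⟩ := h1 (pos p.2)
  obtain ⟨b1, b2⟩ := h2 P
  have hfin : fin2 s t = 2 * (s.2 / 2 + t.2 / 2 + dist P Q) := by
    rw [fin2, hD]; ring
  have hpw : pwlen dist p = dist (pos p.1) (pos p.2) + wlen dist p.1 + wlen dist p.2 := rfl
  have hc1 : dist (pos p.2) P = dist P (pos p.2) := dist_comm _ _
  have hc2 : dist (pos p.2) (pos p.1) = dist (pos p.1) (pos p.2) := dist_comm _ _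
  refine ⟨s, hs, t, ht, ρ1, ρ2, hR1, hR2, ?_, fun heq => ?_⟩
  · rw [hfin, hpw]
    linarith
  · rw [hfin, hpw] at heq
    have g1 := (a2 (by linarith)).2
    have g2 := (b2 (by linarith)).2
    rw [hD]
    linarith

end Lower

/-- Lower bound for a pair. -/
theorem lower_pair {E : Type} [NormedAddCommGroup E] [InnerProductSpace ℝ E] {ι : Type}
    [Fintype ι] [DecidableEq ι] (e : ι → E) (he : Orthonormal ℝ e) (p : ET E × ET E)
    (hp : leaves p.1 + leaves p.2 = (Finset.univ : Finset ι).val.map e) :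
    L2 v1 (pshape p) ≤ 2 * pwlen dist p := by
  obtain ⟨s, hs, t, ht, ρ1, ρ2, -, -, h1, -⟩ := Lower.pair_aux e he p hp
  exact (L2_le Adm_v1 hs ht).trans h1

/-- Equality case: the root edge has length `sqrt (s.1 + t.1) - ρ1 - ρ2`. -/
theorem lower_eq {E : Type} [NormedAddCommGroup E] [InnerProductSpace ℝ E] {ι : Type}
    [Fintype ι] [DecidableEq ι] (e : ι → E) (he : Orthonormal ℝ e) (p : ET E × ET E)
    (hp : leaves p.1 + leaves p.2 = (Finset.univ : Finset ι).val.map e)
    (hmin : 2 * pwlen dist p = L2 v1 (pshape p)) :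
    ∃ s t ρ1 ρ2, MP v1 (shape p.1) s (shape p.2) t ∧ Rt (shape p.1) s ρ1 ∧ Rt (shape p.2) t ρ2 ∧
      Real.sqrt (s.1 + t.1) = ρ1 + ρ2 + dist (pos p.1) (pos p.2) := by
  obtain ⟨s, hs, t, ht, ρ1, ρ2, hR1, hR2, h1, h2⟩ := Lower.pair_aux e he p hp
  have h3 : L2 v1 (pshape p) ≤ fin2 s t := L2_le Adm_v1 hs ht
  have h4 : fin2 s t = 2 * pwlen dist p := le_antisymm h1 (by rw [hmin]; exact h3)
  refine ⟨s, t, ρ1, ρ2, ⟨hs, ht, ?_⟩, hR1, hR2, h2 h4⟩
  rw [h4, hmin]
  rfl

end Pool.Agent.Helper29.Smith
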