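import Pool.Agent.Helper29.Smith.Nondeg
import Pool.Agent.Helper29.Smith.Lower
import Pool.Agent.Helper29.Smith.Embed
import Pool.Agent.Helper29.Smith.LEqs

/-! Positivity of edges of minimisers, critical branches from minimisers. -/

set_option linter.unusedVariables false
set_option linter.unusedSectionVars false

namespace Pool.Agent.Helper29.Smith

open Pool.Agent.Helper29.Steiner BT ET

/-- the distance from the root to the virtual point in terms of the optimal star -/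
theorem modGap_rho {A B C : ℝ} (hA : 0 < A) (hB : 0 < B) (hC : 0 < C) :
    w0 A B C * (1 - w0 A B C) * Real.sqrt ((A + B) / qq (w0 A B C)) = pl (zl A B C) (zl B A C) := by
  have h1 := zl_pos hA hB hC
  have h2 := zl_pos hB hA hC
  have hq := qq_pos (w0 A B C)
  have hs : Real.sqrt ((A + B) / qq (w0 A B C)) = zl A B C + zl B A C := by
    have e1 : (A + B) / qq (w0 A B C) = (zl A B C + zl B A C) ^ 2 := by
      rw [div_eq_iff hq.ne']
      have e2 := star_cost hA hB hC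
      have e3 : qq (w0 A B C) = (zl A B C ^ 2 + zl A B C * zl B A C + zl B A C ^ 2) /
          (zl A B C + zl B A C) ^ 2 := by
        unfold qq w0; field_simp; ring
      rw [← w0] at e2
      have e4 : (A + B) = (zl A B C + zl B A C - pl (zl A B C) (zl B A C)) ^ 2 /
          qq (w0 A B C) := by
        rw [eq_div_iff hq.ne', e2]
      rw [e4, e3]
      unfold pl
      have : 0 < zl A B C ^ 2 + zl A B C * zl B A C + zl B A C ^ 2 := by positivity
      field_simp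
      ring
    rw [e1, Real.sqrt_sq (by positivity)]
  rw [hs]
  unfold w0 pl
  field_simp
  ring

/-- the star at the root of a node in a minimising pair -/
theorem modGap_star {x y : Tr} {s t : ℝ × ℝ} {ρ : ℝ} (hm : MP v1 x s y t) (h : Rt x s ρ) :
    (x = o ∧ ρ = 0) ∨ ∃ z1 z2 z3, 0 < z1 ∧ 0 < z2 ∧ 0 < z3 ∧ 0 < sv z1 z2 z3 ∧
      0 < sv z2 z1 z3 ∧ sv z3 z1 z2 = t.1 ∧ ρ = pl z1 z2 ∧
      Real.sqrt (s.1 + t.1) = z3 + pl z1 z2 := by
  rcases h with h | ⟨l, r, a, b, w, rfl, ha, hb, hw, rfl, rfl⟩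
  · exact Or.inl h
  · right
    have pa := (SS_adm Adm_v1 l).2.2 _ ha
    have pb := (SS_adm Adm_v1 r).2.2 _ hb
    have pt := (SS_adm Adm_v1 y).2.2 _ hm.2.1
    have hw' : w = w0 a.1 b.1 t.1 := MP_w Adm_v1 ha hb hw hm
    obtain ⟨h1, h2, h3⟩ := sv_zl3 pa pb pt
    refine ⟨zl a.1 b.1 t.1, zl b.1 a.1 t.1, zl t.1 a.1 b.1, zl_pos pa pb pt, zl_pos pb pa pt,
      zl_pos pt pa pb, by rw [h1]; exact pa, by rw [h2]; exact pb, h3, ?_, ?_⟩
    · rw [hw']; exact modGap_rho pa pb pt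
    · rw [hw']; exact sqrt_val pa pb pt

/-- In a minimising pair the distance of the virtual points exceeds the sum of the two distances
from the roots to the virtual points. -/
theorem Rt_gap {x y : Tr} {s t : ℝ × ℝ} {ρ1 ρ2 : ℝ} (hm : MP v1 x s y t) (h1 : Rt x s ρ1)
    (h2 : Rt y t ρ2) : ρ1 + ρ2 < Real.sqrt (s.1 + t.1) := by
  have ps := (SS_adm Adm_v1 x).2.2 _ hm.1
  have pt := (SS_adm Adm_v1 y).2.2 _ hm.2.1
  rcases modGap_star hm h1 with ⟨-, rfl⟩ | ⟨z1, z2, z3, p1, p2, p3, q1, q2, hz, rfl, hR⟩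
  · rcases modGap_star (MP_symm hm) h2 with ⟨-, rfl⟩ | ⟨y1, y2, y3, r1, r2, r3, s1, s2, hy, rfl, hS⟩
    · have : 0 < Real.sqrt (s.1 + t.1) := Real.sqrt_pos.2 (by linarith)
      linarith
    · rw [add_comm s.1, hS]; linarith
  · rcases modGap_star (MP_symm hm) h2 with ⟨-, rfl⟩ | ⟨y1, y2, y3, r1, r2, r3, s1, s2, hy, rfl, hS⟩
    · rw [hR]; linarith
    · have h3 : z3 + pl z1 z2 = y3 + pl y1 y2 := by rw [← hR, ← hS, add_comm]
      have h4 : sv z3 z1 z2 + sv y3 y1 y2 = (z3 + pl z1 z2) ^ 2 := by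
        rw [← hR, Real.sq_sqrt (by linarith), hz, hy]; ring
      have h5 := nondeg p1 p2 p3 r1 r2 r3 q1 q2 s1 s2 h3 h4
      rw [hR]; linarith

/-- A placed tree of minimal length is nondegenerate. -/
theorem nonDeg_of_min {E : Type} [NormedAddCommGroup E] [InnerProductSpace ℝ E] {ι : Type}
    [Fintype ι] [DecidableEq ι] (e : ι → E) (he : Orthonormal ℝ e) (p : ET E × ET E)
    (hp : leaves p.1 + leaves p.2 = (Finset.univ : Finset ι).val.map e)
    (hmin : 2 * pwlen dist p = L2 v1 (pshape p)) : NonDeg p := by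
  intro ed hed heq
  obtain ⟨q, hq, hq1, hq2⟩ := reroot p ed hed
  have hmin' : 2 * pwlen dist q = L2 v1 (pshape q) := by
    rw [← LEq_wlen hq dist dist_comm, hmin]
    exact L2_ueq Adm_v1 (LEq_ueq hq)
  obtain ⟨s, t, ρ1, ρ2, hm, h1, h2, h3⟩ := lower_eq e he q
    (by rw [← LEq_leaves hq]; exact hp) hmin'
  have h4 := Rt_gap hm h1 h2
  rw [h3, hq1, hq2, heq, dist_self] at h4
  linarith

/-- minimising states are critical -/
theorem good_of_MP {x y : Tr} {s t : ℝ × ℝ} (hm : MP v1 x s y t) :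
    ∃ ρ, Good x s.1 s.2 t.1 ρ ∧ Rt x s ρ := by
  induction x generalizing y s t with
  | leaf u =>
    have hs : s = ((1 : ℝ), (0 : ℝ)) := hm.1
    have pt := (SS_adm Adm_v1 y).2.2 _ hm.2.1
    subst hs
    exact ⟨0, Good.leaf _ pt, Or.inl ⟨rfl, rfl⟩⟩
  | node l r ihl ihr =>
    obtain ⟨a, ha, b, hb, hs, hml, hmr⟩ := MP_node Adm_v1 hm
    have pa := (SS_adm Adm_v1 l).2.2 _ ha
    have pb := (SS_adm Adm_v1 r).2.2 _ hb
    have pt := (SS_adm Adm_v1 y).2.2 _ hm.2.1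
    have z1 := zl_pos pa pb pt
    have z2 := zl_pos pb pa pt
    have z3 := zl_pos pt pa pb
    obtain ⟨g1, g2, g3⟩ := sv_zl3 pa pb pt
    obtain ⟨ρ1, hg1, hR1⟩ := ihl hml
    obtain ⟨ρ2, hg2, hR2⟩ := ihr hmr
    have hRn1 : Rt (BT.node r y) (mg b t (w0 b.1 t.1 a.1)) (pl (zl b.1 t.1 a.1) (zl t.1 b.1 a.1)) :=
      Or.inr ⟨r, y, b, t, _, rfl, hb, hm.2.1, w0_mem pb pt pa, rfl, (modGap_rho pb pt pa).symm⟩
    have hRn2 : Rt (BT.node l y) (mg a t (w0 a.1 t.1 b.1)) (pl (zl a.1 t.1 b.1) (zl t.1 a.1 b.1)) :=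
      Or.inr ⟨l, y, a, t, _, rfl, ha, hm.2.1, w0_mem pa pt pb, rfl, (modGap_rho pa pt pb).symm⟩
    have hgap1 := Rt_gap hml hR1 hRn1
    have hgap2 := Rt_gap hmr hR2 hRn2
    have e1 : zl b.1 t.1 a.1 = zl b.1 a.1 t.1 := zl_swap _ _ _
    have e2 : zl t.1 b.1 a.1 = zl t.1 a.1 b.1 := zl_swap _ _ _
    have e3 : zl a.1 t.1 b.1 = zl a.1 b.1 t.1 := zl_swap _ _ _
    have hv1 := star_val pb pt pa
    have hv2 := star_val pa pt pb
    have hc := star_cost pa pb pt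
    have hm1 : (mg b t (zl b.1 t.1 a.1 / (zl b.1 t.1 a.1 + zl t.1 b.1 a.1))).1 =
        (zl a.1 b.1 t.1 + pl (zl b.1 a.1 t.1) (zl t.1 a.1 b.1)) ^ 2 - a.1 := by
      rw [e1, e2] at hv1 ⊢
      simp only [mg]
      linarith
    have hm2 : (mg a t (zl a.1 t.1 b.1 / (zl a.1 t.1 b.1 + zl t.1 a.1 b.1))).1 =
        (zl b.1 a.1 t.1 + pl (zl a.1 b.1 t.1) (zl t.1 a.1 b.1)) ^ 2 - b.1 := by
      rw [e3] at hv2 ⊢
      simp only [mg]
      linarith
    rw [hm1] at hg1 hgap1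
    rw [hm2] at hg2 hgap2
    rw [e1, e2, add_sub_cancel, Real.sqrt_sq (by have := pl_pos z2 z3; linarith)] at hgap1
    rw [e3, add_sub_cancel, Real.sqrt_sq (by have := pl_pos z1 z3; linarith)] at hgap2
    refine ⟨pl (zl a.1 b.1 t.1) (zl b.1 a.1 t.1), ?_, ?_⟩
    · refine Good.node l r a.1 a.2 b.1 b.2 t.1 (zl a.1 b.1 t.1) (zl b.1 a.1 t.1) (zl t.1 a.1 b.1)
        ρ1 ρ2 s.1 s.2 z1 z2 z3 g1.symm g2.symm g3.symm pa pb pt ?_ ?_ hg1 (by linarith) hg2
        (by linarith)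
      · rw [hs]
        simp only [mg]
        field_simp
        ring
      · rw [hs]
        simp only [mg]
        rw [hc, Real.sqrt_sq]
        have := pl_lt_left z1 z2
        linarith
    · exact Or.inr ⟨l, r, a, b, _, rfl, ha, hb, w0_mem pa pb pt, hs, (modGap_rho pa pb pt).symm⟩

/-- Every pair of trees with `d` leaves can be placed with length `L2 / 2`. -/
theorem exists_place_min {E : Type} [NormedAddCommGroup E] [InnerProductSpace ℝ E] {d : ℕ}
    (e : Fin d → E) (he : Orthonormal ℝ e) (x y : Tr) (hd : size x + size y = d) :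
    ∃ p : ET E × ET E, pshape p = (x, y) ∧
      leaves p.1 + leaves p.2 = (Finset.univ : Finset (Fin d)).val.map e ∧
      2 * pwlen dist p = L2 v1 (x, y) := by
  obtain ⟨s, t, hm⟩ := exists_MP Adm_v1 x y
  obtain ⟨ρ1, hg1, hR1⟩ := good_of_MP hm
  obtain ⟨ρ2, hg2, hR2⟩ := good_of_MP (MP_symm hm)
  obtain ⟨p, h1, h2, h3⟩ := exists_placement e he x y _ _ _ _ _ _ hg1 hg2 (Rt_gap hm hR1 hR2) hd
  refine ⟨p, h1, h2, ?_⟩
  rw [h3, ← hm.2.2, fin2]

end Pool.Agent.Helper29.Smith
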