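import Pool.Agent.Helper29.Smith.Fun

/-! Nondegeneracy: at a critical point all internal edges have positive length. -/

set_option linter.unusedVariables false
set_option linter.unusedSectionVars false

namespace Pool.Agent.Helper29.Smith

lemma cubic_pos_aux {p q e : ℝ} (hp : 0 < p) (hq : 0 < q) (he : 0 < e) (hpq : q ≤ p)
    (h2 : 0 < sv q p e) : 0 < 4 * e ^ 2 - (p + q) * e + p * q := by
  have hη : 0 < 2 * q ^ 2 + p * q - e * (p - q) := by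
    unfold sv at h2; linarith
  rcases lt_or_ge (p ^ 2 - 14 * p * q + q ^ 2) 0 with h | h
  · nlinarith [sq_nonneg (8 * e - (p + q))]
  · have h13 : 13 * q ≤ p := by
      by_contra hc
      push Not at hc
      nlinarith [mul_pos hp hq, mul_le_mul_of_nonneg_left hpq hq.le]
    have h3 : 0 ≤ p ^ 2 - 8 * p * q - 17 * q ^ 2 := by nlinarith
    have h4 : 0 < (p - q) ^ 2 * (4 * e ^ 2 - (p + q) * e + p * q) := by
      have e1 : (p - q) ^ 2 * (4 * e ^ 2 - (p + q) * e + p * q) =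
          18 * q ^ 3 * (p + q) + 4 * (2 * q ^ 2 + p * q - e * (p - q)) ^ 2 +
          (2 * q ^ 2 + p * q - e * (p - q)) * (p ^ 2 - 8 * p * q - 17 * q ^ 2) := by ring
      rw [e1]
      have : 0 < 18 * q ^ 3 * (p + q) := by positivity
      have := mul_nonneg hη.le h3
      positivity
    exact pos_of_mul_pos_of_pos_left' h4 (sq_nonneg _)
where
  pos_of_mul_pos_of_pos_left' {a b : ℝ} (h : 0 < a * b) (ha : 0 ≤ a) : 0 < b := by
    by_contra hb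
    push Not at hb
    nlinarith [mul_nonneg ha (neg_nonneg.2 hb)]

lemma cubic_pos {p q e : ℝ} (hp : 0 < p) (hq : 0 < q) (he : 0 < e) (h1 : 0 < sv p q e)
    (h2 : 0 < sv q p e) : 0 < 4 * e ^ 2 - (p + q) * e + p * q := by
  rcases le_total q p with h | h
  · exact cubic_pos_aux hp hq he h h2
  · have := cubic_pos_aux hq hp he h h1
    linarith

lemma pl_mul {x y : ℝ} (hx : 0 < x) (hy : 0 < y) : pl x y * (x + y) = x * y := by
  unfold pl; field_simp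

lemma four_pl_le {x y : ℝ} (hx : 0 < x) (hy : 0 < y) : 4 * pl x y ≤ x + y := by
  unfold pl
  rw [mul_div_assoc', div_le_iff₀ (by positivity)]
  nlinarith [sq_nonneg (x - y)]

lemma nondeg_aux {p1 p2 p3 q1 q2 q3 : ℝ} (hp1 : 0 < p1) (hp2 : 0 < p2) (hp3 : 0 < p3)
    (hq1 : 0 < q1) (hq2 : 0 < q2) (hq3 : 0 < q3)
    (hP1 : 0 < sv p1 p2 p3) (hP2 : 0 < sv p2 p1 p3)
    (hR : p3 + pl p1 p2 = q3 + pl q1 q2)
    (hV : sv p3 p1 p2 + sv q3 q1 q2 = (p3 + pl p1 p2) ^ 2)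
    (hle : p3 ≤ pl q1 q2) (hr : pl p1 p2 ≤ pl q1 q2) : False := by
  have c := cubic_pos hp1 hp2 hp3 hP1 hP2
  have a1 := pl_mul hp1 hp2
  have a2 := pl_mul hq1 hq2
  have b2 := four_pl_le hq1 hq2
  have k1 := pl_pos hp1 hp2
  have k2 := pl_pos hq1 hq2
  set rP := pl p1 p2
  set rQ := pl q1 q2
  have hq3' : q3 = p3 + rP - rQ := by linarith
  have e1 : sv p3 p1 p2 = p3 ^ 2 + (p1 + p2) * (p3 - rP) / 2 := by
    unfold sv; linarith
  have e2 : sv q3 q1 q2 = q3 ^ 2 + (q1 + q2) * (q3 - rQ) / 2 := by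
    unfold sv; linarith
  rw [e1, e2, hq3'] at hV
  -- ((p1+p2)(p3-rP))/2 = 2 p3 rP + rP^2 - (p3+rP-rQ)^2 + (q1+q2)(2 rQ - p3 - rP)/2
  have h3 : 0 ≤ 2 * rQ - p3 - rP := by linarith
  have h4 : 2 * rQ * (2 * rQ - p3 - rP) ≤ (q1 + q2) * (2 * rQ - p3 - rP) / 2 := by
    nlinarith [mul_nonneg h3 (sub_nonneg.2 b2)]
  have h5 : 4 * p3 ^ 2 ≤ (p1 + p2) * (p3 - rP) := by
    obtain ⟨t, ht⟩ : ∃ t, t = rQ - p3 := ⟨_, rfl⟩
    have ht0 : 0 ≤ t := by linarith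
    have hrQ : rQ = p3 + t := by linarith
    rw [hrQ] at hV h4
    nlinarith [mul_nonneg hp3.le ht0, mul_nonneg ht0 ht0]
  linarith

theorem nondeg {p1 p2 p3 q1 q2 q3 : ℝ} (hp1 : 0 < p1) (hp2 : 0 < p2) (hp3 : 0 < p3)
    (hq1 : 0 < q1) (hq2 : 0 < q2) (hq3 : 0 < q3)
    (hP1 : 0 < sv p1 p2 p3) (hP2 : 0 < sv p2 p1 p3)
    (hQ1 : 0 < sv q1 q2 q3) (hQ2 : 0 < sv q2 q1 q3)
    (hR : p3 + pl p1 p2 = q3 + pl q1 q2)
    (hV : sv p3 p1 p2 + sv q3 q1 q2 = (p3 + pl p1 p2) ^ 2) :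
    pl q1 q2 < p3 := by
  by_contra hle
  push Not at hle
  rcases le_total (pl p1 p2) (pl q1 q2) with hr | hr
  · exact nondeg_aux hp1 hp2 hp3 hq1 hq2 hq3 hP1 hP2 hR hV hle hr
  · refine nondeg_aux hq1 hq2 hq3 hp1 hp2 hp3 hQ1 hQ2 hR.symm ?_ (by linarith) hr
    rw [← hR]; linarith

end Pool.Agent.Helper29.Smith
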