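import Pool.Agent.Helper29.Smith.Defs

/-! The star lemma. -/

set_option linter.unusedVariables false
set_option linter.unusedSectionVars false

namespace Pool.Agent.Helper29.Smith

lemma qq_pos (w : ℝ) : 0 < qq w := by
  unfold qq
  nlinarith [sq_nonneg (w - 1 / 2)]

lemma sg_comm (A B C : ℝ) : sg A B C = sg B A C := by
  unfold sg; congr 1; ring

lemma sg_rot (A B C : ℝ) : sg A B C = sg B C A := by
  unfold sg; congr 1; ring

lemma SL_comm (A B C : ℝ) : SL A B C = SL B A C := by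
  unfold SL; rw [sg_comm]; congr 1; ring

lemma SL_rot (A B C : ℝ) : SL A B C = SL B C A := by
  unfold SL; rw [sg_rot]; congr 1; ring

lemma sg_swap (A B C : ℝ) : sg A B C = sg A C B := by
  unfold sg; congr 1; ring

lemma SL_swap (A B C : ℝ) : SL A B C = SL A C B := by
  unfold SL; rw [sg_swap]; congr 1; ring

lemma zl_swap (A B C : ℝ) : zl A B C = zl A C B := by
  unfold zl; rw [sg_swap, SL_swap]

lemma sg_nonneg (A B C : ℝ) : 0 ≤ sg A B C := Real.sqrt_nonneg _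

lemma sg_sq {A B C : ℝ} (hA : 0 < A) (hB : 0 < B) (hC : 0 < C) :
    sg A B C ^ 2 = (A * B + B * C + C * A) / 3 := by
  unfold sg; rw [Real.sq_sqrt]; positivity

lemma SL_pos {A B C : ℝ} (hA : 0 < A) (hB : 0 < B) (hC : 0 < C) : 0 < SL A B C := by
  have := sg_nonneg A B C
  unfold SL; positivity

lemma SL_sq {A B C : ℝ} (hA : 0 < A) (hB : 0 < B) (hC : 0 < C) :
    SL A B C ^ 2 = A + B + C + 3 * sg A B C := by
  have := sg_nonneg A B C
  unfold SL; rw [Real.sq_sqrt]; positivity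

lemma zl_pos {A B C : ℝ} (hA : 0 < A) (hB : 0 < B) (hC : 0 < C) : 0 < zl A B C := by
  have := sg_nonneg A B C
  have := SL_pos hA hB hC
  unfold zl; positivity

/-- the three legs with common denominators -/
lemma zl_forms (A B C : ℝ) : zl A B C = (A + sg A B C) / SL A B C ∧
    zl B A C = (B + sg A B C) / SL A B C ∧ zl C A B = (C + sg A B C) / SL A B C := by
  refine ⟨rfl, ?_, ?_⟩
  · unfold zl; rw [← sg_comm, ← SL_comm]
  · unfold zl; rw [sg_rot C A B, SL_rot C A B]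

lemma zl_sum {A B C : ℝ} (hA : 0 < A) (hB : 0 < B) (hC : 0 < C) :
    zl A B C + zl B A C + zl C A B = SL A B C := by
  obtain ⟨h1, h2, h3⟩ := zl_forms A B C
  rw [h1, h2, h3]
  have h4 := SL_pos hA hB hC
  have h5 := SL_sq hA hB hC
  field_simp
  linarith

lemma sv_zl {A B C : ℝ} (hA : 0 < A) (hB : 0 < B) (hC : 0 < C) :
    sv (zl A B C) (zl B A C) (zl C A B) = A := by
  obtain ⟨h1, h2, h3⟩ := zl_forms A B C
  rw [h1, h2, h3]
  have h4 := SL_pos hA hB hC
  have h5 := SL_sq hA hB hC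
  have h6 := sg_sq hA hB hC
  unfold sv
  field_simp
  rw [h5]
  nlinarith

lemma sv_swap (z1 z2 z3 : ℝ) : sv z1 z2 z3 = sv z1 z3 z2 := by unfold sv; ring

/-- the three values -/
lemma sv_zl3 {A B C : ℝ} (hA : 0 < A) (hB : 0 < B) (hC : 0 < C) :
    sv (zl A B C) (zl B A C) (zl C A B) = A ∧ sv (zl B A C) (zl A B C) (zl C A B) = B ∧
      sv (zl C A B) (zl A B C) (zl B A C) = C := by
  refine ⟨sv_zl hA hB hC, ?_, ?_⟩
  · have := sv_zl hB hA hC
    rw [zl_swap C B A] at this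
    exact this
  · have := sv_zl hC hA hB
    rw [zl_swap A C B, zl_swap B C A] at this
    exact this

lemma star_F (z1 z2 z3 w : ℝ) : (sv z1 z2 z3 + sv z2 z1 z3) * qq w =
    (z1 / 2 + z2 + w * (z1 - z2) / 2) ^ 2 + 3 / 4 * (w * (z1 + z2) - z1) ^ 2 := by
  unfold sv qq; ring

lemma star_G (z1 z2 z3 w : ℝ) :
    (1 - w) ^ 2 * sv z1 z2 z3 + w ^ 2 * sv z2 z1 z3 + sv z3 z1 z2 =
    (z1 / 2 + z3 - w * (z1 - z2) / 2) ^ 2 + 3 / 4 * (w * (z1 + z2) - z1) ^ 2 := by
  unfold sv; ring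

/-- value of the merged branch -/
lemma star_val {A B C : ℝ} (hA : 0 < A) (hB : 0 < B) (hC : 0 < C) :
    (1 - zl A B C / (zl A B C + zl B A C)) ^ 2 * A + (zl A B C / (zl A B C + zl B A C)) ^ 2 * B + C
      = (zl C A B + pl (zl A B C) (zl B A C)) ^ 2 := by
  obtain ⟨h1, h2, h3⟩ := sv_zl3 hA hB hC
  have p1 := zl_pos hA hB hC
  have p2 := zl_pos hB hA hC
  set x := zl A B C
  set y := zl B A C
  set z := zl C A B
  rw [← h1, ← h2, ← h3, star_G]
  unfold pl
  field_simp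
  ring

/-- cost of the merge -/
lemma star_cost {A B C : ℝ} (hA : 0 < A) (hB : 0 < B) (hC : 0 < C) :
    (A + B) * qq (zl A B C / (zl A B C + zl B A C))
      = (zl A B C + zl B A C - pl (zl A B C) (zl B A C)) ^ 2 := by
  obtain ⟨h1, h2, h3⟩ := sv_zl3 hA hB hC
  have p1 := zl_pos hA hB hC
  have p2 := zl_pos hB hA hC
  set x := zl A B C
  set y := zl B A C
  set z := zl C A B
  rw [← h1, ← h2, star_F]
  unfold pl
  field_simp
  ring

theorem star_le {A B C : ℝ} (hA : 0 < A) (hB : 0 < B) (hC : 0 < C) (w : ℝ) :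
    SL A B C ≤ Real.sqrt ((A + B) * qq w) + Real.sqrt ((1 - w) ^ 2 * A + w ^ 2 * B + C) := by
  obtain ⟨h1, h2, h3⟩ := sv_zl3 hA hB hC
  rw [← zl_sum hA hB hC]
  set x := zl A B C
  set y := zl B A C
  set z := zl C A B
  rw [← h1, ← h2, ← h3, star_F, star_G]
  have e1 : x / 2 + y + w * (x - y) / 2 ≤
      Real.sqrt ((x / 2 + y + w * (x - y) / 2) ^ 2 + 3 / 4 * (w * (x + y) - x) ^ 2) :=
    Real.le_sqrt_of_sq_le (by nlinarith [sq_nonneg (w * (x + y) - x)])
  have e2 : x / 2 + z - w * (x - y) / 2 ≤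
      Real.sqrt ((x / 2 + z - w * (x - y) / 2) ^ 2 + 3 / 4 * (w * (x + y) - x) ^ 2) :=
    Real.le_sqrt_of_sq_le (by nlinarith [sq_nonneg (w * (x + y) - x)])
  linarith

theorem star_eq {A B C : ℝ} (hA : 0 < A) (hB : 0 < B) (hC : 0 < C) (w : ℝ)
    (h : Real.sqrt ((A + B) * qq w) + Real.sqrt ((1 - w) ^ 2 * A + w ^ 2 * B + C) = SL A B C) :
    w = zl A B C / (zl A B C + zl B A C) := by
  obtain ⟨h1, h2, h3⟩ := sv_zl3 hA hB hC
  have p1 := zl_pos hA hB hC
  have p2 := zl_pos hB hA hC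
  rw [← zl_sum hA hB hC] at h
  set x := zl A B C
  set y := zl B A C
  set z := zl C A B
  rw [← h1, ← h2, ← h3, star_F, star_G] at h
  by_contra hne
  have hpos : 0 < (w * (x + y) - x) ^ 2 := by
    have : w * (x + y) - x ≠ 0 := by
      intro h0
      apply hne
      rw [eq_div_iff (by positivity)]
      linarith
    positivity
  have e1 : x / 2 + y + w * (x - y) / 2 <
      Real.sqrt ((x / 2 + y + w * (x - y) / 2) ^ 2 + 3 / 4 * (w * (x + y) - x) ^ 2) :=
    Real.lt_sqrt_of_sq_lt (by nlinarith)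
  have e2 : x / 2 + z - w * (x - y) / 2 ≤
      Real.sqrt ((x / 2 + z - w * (x - y) / 2) ^ 2 + 3 / 4 * (w * (x + y) - x) ^ 2) :=
    Real.le_sqrt_of_sq_le (by nlinarith [sq_nonneg (w * (x + y) - x)])
  linarith

end Pool.Agent.Helper29.Smith
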