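import Mathlib

/-! Definitions used in the statement of the main theorem: rooted binary trees, the good binary
tree `G_d`, the unrooted tree `T_d`, straight-line trees containing the vertices of a regular
simplex, and Steiner minimal trees. -/

set_option linter.unusedVariables false
set_option linter.unusedSectionVars false

namespace Pool.Agent.Helper29.Steiner

/-- Rooted binary trees (with labels at the leaves): every internal node has exactly two
children. -/
inductive BT (α : Type) : Type
  | leaf (a : α) : BT α
  | node (l r : BT α) : BT α

/-- Rooted binary trees (without labels). -/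
abbrev Tr := BT Unit

/-- The tree with a single node. -/
abbrev o : Tr := BT.leaf ()

/-- The full binary tree `F_k` of height `k`. -/
def fullTree : ℕ → Tr
  | 0 => o
  | k + 1 => BT.node (fullTree k) (fullTree k)

/-- The good binary tree `G_d` by the explicit recursion of the problem file: with
`k = Nat.log 2 (d - 1)`, that is `2^k < d ≤ 2^(k+1)`, `G_2 = F_1`, and for `d > 2` the root of
`G_d` has child subtrees `F_{k-1}` and `G_{d - 2^{k-1}}` if `d ≤ 3 * 2^{k-1}`, and `F_k` and
`G_{d - 2^k}` otherwise. (`G_1` is a single node.) -/
def goodTree (d : ℕ) : Tr :=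
  if h : d ≤ 1 then o
  else if h2 : d = 2 then BT.node o o
  else if d ≤ 3 * 2 ^ (Nat.log 2 (d - 1) - 1) then
    BT.node (fullTree (Nat.log 2 (d - 1) - 1)) (goodTree (d - 2 ^ (Nat.log 2 (d - 1) - 1)))
  else BT.node (fullTree (Nat.log 2 (d - 1))) (goodTree (d - 2 ^ (Nat.log 2 (d - 1))))
termination_by d
decreasing_by
  · have := Nat.pow_pos (n := Nat.log 2 (d - 1) - 1) (show 0 < 2 by norm_num)
    omega
  · have := Nat.pow_pos (n := Nat.log 2 (d - 1)) (show 0 < 2 by norm_num)
    omega

/-- The two child subtrees of the root (junk for a single node). -/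
def split {α : Type} : BT α → BT α × BT α
  | BT.leaf a => (BT.leaf a, BT.leaf a)
  | BT.node l r => (l, r)

/-- The two child subtrees of the root of `G_d`. The unrooted tree `T_d` is obtained by joining
their roots with an edge. -/
def tdPair (d : ℕ) : Tr × Tr := split (goodTree d)

end Pool.Agent.Helper29.Steiner

namespace Pool.Agent.Helper29.Smith

open Pool.Agent.Helper29.Steiner BT

/-- The vertices of a rooted tree: a single vertex, or the root (`none`), the vertices of the left
subtree and the vertices of the right subtree. -/
def Vx : Tr → Type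
  | BT.leaf _ => Unit
  | BT.node l r => Option (Vx l ⊕ Vx r)

/-- The root vertex. -/
def rt : (x : Tr) → Vx x
  | BT.leaf _ => ()
  | BT.node _ _ => (none : Option _)

/-- Adjacency of the vertices of a rooted tree: the root is joined to the roots of the two
subtrees, and the two subtrees keep their edges. -/
def Ad : (x : Tr) → Vx x → Vx x → Prop
  | BT.leaf _, _, _ => False
  | BT.node _ _, none, none => False
  | BT.node l _, none, some (Sum.inl v) => v = rt l
  | BT.node _ r, none, some (Sum.inr v) => v = rt r
  | BT.node l _, some (Sum.inl u), none => u = rt l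
  | BT.node _ r, some (Sum.inr u), none => u = rt r
  | BT.node l _, some (Sum.inl u), some (Sum.inl v) => Ad l u v
  | BT.node _ r, some (Sum.inr u), some (Sum.inr v) => Ad r u v
  | BT.node _ _, some (Sum.inl _), some (Sum.inr _) => False
  | BT.node _ _, some (Sum.inr _), some (Sum.inl _) => False

lemma Ad_symm : ∀ (x : Tr) (u v : Vx x), Ad x u v → Ad x v u
  | BT.leaf _, _, _ => fun h => h
  | BT.node _ _, none, none => fun h => h
  | BT.node _ _, none, some (Sum.inl v) => fun h => h
  | BT.node _ _, none, some (Sum.inr v) => fun h => h
  | BT.node _ _, some (Sum.inl u), none => fun h => h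
  | BT.node _ _, some (Sum.inr u), none => fun h => h
  | BT.node l _, some (Sum.inl u), some (Sum.inl v) => Ad_symm l u v
  | BT.node _ r, some (Sum.inr u), some (Sum.inr v) => Ad_symm r u v
  | BT.node _ _, some (Sum.inl _), some (Sum.inr _) => fun h => h
  | BT.node _ _, some (Sum.inr _), some (Sum.inl _) => fun h => h

lemma Ad_irrefl : ∀ (x : Tr) (u : Vx x), ¬ Ad x u u
  | BT.leaf _, _ => fun h => h
  | BT.node _ _, none => fun h => h
  | BT.node l _, some (Sum.inl u) => Ad_irrefl l u
  | BT.node _ r, some (Sum.inr u) => Ad_irrefl r u

/-- Adjacency of the tree of a pair of rooted trees: the disjoint union of the two trees, with an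
edge joining the two roots. -/
def PAd (p : Tr × Tr) : Vx p.1 ⊕ Vx p.2 → Vx p.1 ⊕ Vx p.2 → Prop
  | Sum.inl u, Sum.inl v => Ad p.1 u v
  | Sum.inr u, Sum.inr v => Ad p.2 u v
  | Sum.inl u, Sum.inr v => u = rt p.1 ∧ v = rt p.2
  | Sum.inr u, Sum.inl v => u = rt p.2 ∧ v = rt p.1

/-- The unrooted tree of a pair of rooted trees: the disjoint union of the two trees, with an edge
joining the two roots. In particular `UG (tdPair d)` is the tree `T_d`. -/
def UG (p : Tr × Tr) : SimpleGraph (Vx p.1 ⊕ Vx p.2) where
  Adj := PAd p
  symm := ⟨by
    rintro (u | u) (v | v) h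
    · exact Ad_symm _ _ _ h
    · exact ⟨h.2, h.1⟩
    · exact ⟨h.2, h.1⟩
    · exact Ad_symm _ _ _ h⟩
  loopless := ⟨by
    rintro (u | u) h
    · exact Ad_irrefl _ _ h
    · exact Ad_irrefl _ _ h⟩

/-- A finite tree drawn in `ℝ^d` with straight edges, having the standard basis vectors
`e_1, ..., e_d` among its vertices. -/
structure STree (d : ℕ) where
  /-- the vertices -/
  V : Type
  /-- there are finitely many vertices -/
  fin : Fintype V
  /-- the underlying abstract tree -/
  G : SimpleGraph V
  tree : G.IsTree
  /-- the positions of the vertices -/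
  pos : V → EuclideanSpace ℝ (Fin d)
  /-- the terminals -/
  term : Fin d → V
  term_pos : ∀ i, pos (term i) = EuclideanSpace.single i 1

/-- Total length: the sum over all edges of the Euclidean distance of the end points. -/
noncomputable def STree.len {d : ℕ} (t : STree d) : ℝ :=
  ∑ᶠ e ∈ t.G.edgeSet, Sym2.lift ⟨fun u v => dist (t.pos u) (t.pos v), fun u v => dist_comm _ _⟩ e

/-- The drawing is an embedding: different vertices have different positions, and the open segment
of an edge does not meet the closed segment of any other edge. -/
structure STree.Embedded {d : ℕ} (t : STree d) : Prop where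
  inj : Function.Injective t.pos
  nocross : ∀ u v u' v' : t.V, t.G.Adj u v → t.G.Adj u' v' → s(u, v) ≠ s(u', v') →
    Disjoint (openSegment ℝ (t.pos u) (t.pos v)) (segment ℝ (t.pos u') (t.pos v'))

/-- Steiner minimal tree of `e_1, ..., e_d`: an embedded straight-line tree containing the
terminals, whose additional vertices (Steiner points) have degree at least three, and whose total
length is minimal among all embedded straight-line trees containing the terminals (with arbitrary
additional vertices). -/
def IsSMT {d : ℕ} (t : STree d) : Prop :=
  t.Embedded ∧ (∀ v : t.V, v ∉ Set.range t.term → 3 ≤ (t.G.neighborSet v).ncard) ∧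
    ∀ t' : STree d, t'.Embedded → t.len ≤ t'.len

end Pool.Agent.Helper29.Smith
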