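import Pool.Agent.Helper29.Smith.TwoPort

/-! Algebra of the swap of two leaves. -/

set_option linter.unusedVariables false
set_option linter.unusedSectionVars false

namespace Pool.Agent.Helper29.Smith

/-- value seen from the first port -/
noncomputable def W2 (x y c A B n δ : ℝ) : ℝ := (A * y ^ 2 + B * c ^ 2 + 2 * n * c * y) / δ ^ 2
/-- value seen from the second port -/
noncomputable def W3 (x y c A B n δ : ℝ) : ℝ := (B * x ^ 2 + A * c ^ 2 + 2 * n * c * x) / δ ^ 2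
/-- cross term -/
noncomputable def Om (x y c A B n δ : ℝ) : ℝ :=
  (B * x * c ^ 2 + n * c * (c ^ 2 + x * y) + A * y * c ^ 2) / δ ^ 3

/-- the total as a function of the two loop resistances -/
noncomputable def Ph (w2 w3 om γ R2 R3 v2 v3 : ℝ) : ℝ :=
  R2 + R3 + ((v2 + w2) * R3 + (v3 + w3) * R2 - 2 * om) / (R2 * R3 - γ ^ 2)

lemma sw_val {x y c A B n δ v z u ρ : ℝ} (hx : 0 < x) (hδ : 0 < δ) (hu : 1 < u)
    (hy : y = (δ + c ^ 2) / x) (hz : z = (u - 1) / x) (hρ : ρ = (u * δ + c ^ 2) / (x * δ)) :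
    (B + 2 * n * (c / (x + 1 / z)) + (A + v / z ^ 2) * (c / (x + 1 / z)) ^ 2) /
      (y - c ^ 2 / (x + 1 / z)) ^ 2 =
    W3 x y c A B n δ - 2 * Om x y c A B n δ / ρ + (v + W2 x y c A B n δ) * (c / δ) ^ 2 / ρ ^ 2 := by
  have hu1 : 0 < u - 1 := by linarith
  have hu0 : 0 < u := by linarith
  have h1 : 0 < u * δ + c ^ 2 := by positivity
  have e1 : x + 1 / z = x * u / (u - 1) := by rw [hz]; field_simp; ring
  have e2 : y - c ^ 2 / (x + 1 / z) = (u * δ + c ^ 2) / (x * u) := by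
    rw [e1, hy]; field_simp; ring
  rw [e2, e1, hz, hρ]
  unfold W2 W3 Om
  rw [hy]
  field_simp
  ring

lemma sw_cost {x y c A B n δ v z u ρ : ℝ} (hx : 0 < x) (hδ : 0 < δ) (hu : 1 < u)
    (hy : y = (δ + c ^ 2) / x) (hz : z = (u - 1) / x) (hρ : ρ = (u * δ + c ^ 2) / (x * δ)) :
    z + v / z - (A + v / z ^ 2) / (x + 1 / z) -
      (1 + (B + 2 * n * (c / (x + 1 / z)) + (A + v / z ^ 2) * (c / (x + 1 / z)) ^ 2)) /
        (y - c ^ 2 / (x + 1 / z)) =
    ρ - (x + y) / δ + (c / δ) ^ 2 / ρ - (A * y + B * x + 2 * n * c) / δ +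
      (v + W2 x y c A B n δ) / ρ := by
  have hu1 : 0 < u - 1 := by linarith
  have hu0 : 0 < u := by linarith
  have h1 : 0 < u * δ + c ^ 2 := by positivity
  have e1 : x + 1 / z = x * u / (u - 1) := by rw [hz]; field_simp; ring
  have e2 : y - c ^ 2 / (x + 1 / z) = (u * δ + c ^ 2) / (x * u) := by
    rw [e1, hy]; field_simp; ring
  rw [e2, e1, hz, hρ]
  unfold W2
  rw [hy]
  field_simp
  ring

lemma sw_total {x y c A B n δ v v' z u ρ R : ℝ} (hx : 0 < x) (hδ : 0 < δ) (hu : 1 < u)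
    (hy : y = (δ + c ^ 2) / x) (hz : z = (u - 1) / x) (hρ : ρ = (u * δ + c ^ 2) / (x * δ))
    (hR : 0 < R) :
    z + v / z - (A + v / z ^ 2) / (x + 1 / z) -
      (1 + (B + 2 * n * (c / (x + 1 / z)) + (A + v / z ^ 2) * (c / (x + 1 / z)) ^ 2)) /
        (y - c ^ 2 / (x + 1 / z)) + R +
      ((B + 2 * n * (c / (x + 1 / z)) + (A + v / z ^ 2) * (c / (x + 1 / z)) ^ 2) /
      (y - c ^ 2 / (x + 1 / z)) ^ 2 + v') / R =
    Ph (W2 x y c A B n δ) (W3 x y c A B n δ) (Om x y c A B n δ) (c / δ) ρ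
      (R + (c / δ) ^ 2 / ρ) v v' - (x + y) / δ - (A * y + B * x + 2 * n * c) / δ := by
  rw [sw_val hx hδ hu hy hz hρ, sw_cost hx hδ hu hy hz hρ]
  have hρ0 : 0 < ρ := by rw [hρ]; positivity
  generalize W2 x y c A B n δ = w2
  generalize W3 x y c A B n δ = w3
  generalize Om x y c A B n δ = om
  generalize (A * y + B * x + 2 * n * c) / δ = k1
  generalize (x + y) / δ = k2
  generalize c / δ = γ
  unfold Ph
  have e : ρ * (R + γ ^ 2 / ρ) - γ ^ 2 = ρ * R := by field_simp; ring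
  rw [e]
  field_simp
  ring

/-- the optimisation over the two loop resistances -/
lemma real_swap {w2 w3 om γ R2 R3 v2 v3 ρ2 : ℝ} (hv : v2 < v3) (hw : w3 < w2) (hρ2 : 0 ≤ ρ2)
    (hR2 : ρ2 < R2) (hΔ : γ ^ 2 < R2 * R3) :
    ∃ R2' R3' : ℝ, ρ2 < R2' ∧ γ ^ 2 < R2' * R3' ∧
      Ph w2 w3 om γ R2' R3' v3 v2 < Ph w2 w3 om γ R2 R3 v2 v3 := by
  have hR2p : 0 < R2 := lt_of_le_of_lt hρ2 hR2
  have hR3p : 0 < R3 := by
    by_contra hc
    push Not at hc
    nlinarith [sq_nonneg γ, mul_nonneg hR2p.le (neg_nonneg.2 hc)]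
  have hD : 0 < R2 * R3 - γ ^ 2 := by linarith
  rcases lt_trichotomy R2 R3 with h | h | h
  · refine ⟨R3, R2, by linarith, by linarith, ?_⟩
    unfold Ph
    rw [mul_comm R3 R2]
    have : ((v3 + w2) * R2 + (v2 + w3) * R3 - 2 * om) / (R2 * R3 - γ ^ 2) <
        ((v2 + w2) * R3 + (v3 + w3) * R2 - 2 * om) / (R2 * R3 - γ ^ 2) := by
      apply div_lt_div_of_pos_right _ hD
      nlinarith [mul_pos (sub_pos.2 hw) (sub_pos.2 h)]
    linarith
  · -- equal resistances: perturb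
    subst h
    obtain ⟨N, hN⟩ : ∃ N, N = (v3 + w2 + (v2 + w3)) * R2 - 2 * om := ⟨_, rfl⟩
    obtain ⟨δ, hδ⟩ : ∃ δ, δ = v3 + w2 - (v2 + w3) := ⟨_, rfl⟩
    have hδ0 : 0 < δ := by linarith
    obtain ⟨Δ, hΔ'⟩ : ∃ Δ, Δ = R2 * R2 - γ ^ 2 := ⟨_, rfl⟩
    have hΔ0 : 0 < Δ := by linarith
    obtain ⟨t, ht0, ht1, ht2, ht3⟩ : ∃ t : ℝ, 0 < t ∧ t ^ 2 < Δ ∧ t * N < δ * Δ ∧ t < R2 := by
      have hN1 : 0 < |N| + 1 := by positivity
      refine ⟨min (min 1 (Δ / 2)) (min (R2 / 2) (δ * Δ / (|N| + 1))), ?_, ?_, ?_, ?_⟩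
      · apply lt_min (lt_min one_pos (by positivity)) (lt_min (by positivity) (by positivity))
      · have a1 : min (min 1 (Δ / 2)) (min (R2 / 2) (δ * Δ / (|N| + 1))) ≤ 1 :=
          (min_le_left _ _).trans (min_le_left _ _)
        have a2 : min (min 1 (Δ / 2)) (min (R2 / 2) (δ * Δ / (|N| + 1))) ≤ Δ / 2 :=
          (min_le_left _ _).trans (min_le_right _ _)
        have a3 : 0 < min (min 1 (Δ / 2)) (min (R2 / 2) (δ * Δ / (|N| + 1))) :=
          lt_min (lt_min one_pos (by positivity)) (lt_min (by positivity) (by positivity))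
        nlinarith
      · have a2 : min (min 1 (Δ / 2)) (min (R2 / 2) (δ * Δ / (|N| + 1))) ≤ δ * Δ / (|N| + 1) :=
          (min_le_right _ _).trans (min_le_right _ _)
        have a3 : 0 < min (min 1 (Δ / 2)) (min (R2 / 2) (δ * Δ / (|N| + 1))) :=
          lt_min (lt_min one_pos (by positivity)) (lt_min (by positivity) (by positivity))
        have a4 : δ * Δ / (|N| + 1) * (|N| + 1) = δ * Δ := by field_simp
        have a5 := le_abs_self N
        have a6 := abs_nonneg N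
        generalize min (min 1 (Δ / 2)) (min (R2 / 2) (δ * Δ / (|N| + 1))) = t at a2 a3
        have a7 : t * (|N| + 1) ≤ δ * Δ := by
          rw [← a4]; exact mul_le_mul_of_nonneg_right a2 hN1.le
        nlinarith
      · have a1 : min (min 1 (Δ / 2)) (min (R2 / 2) (δ * Δ / (|N| + 1))) ≤ R2 / 2 :=
          (min_le_right _ _).trans (min_le_left _ _)
        linarith
    refine ⟨R2 + t, R2 - t, by linarith, by nlinarith, ?_⟩
    unfold Ph
    have e1 : (R2 + t) * (R2 - t) - γ ^ 2 = Δ - t ^ 2 := by rw [hΔ']; ring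
    have e2 : (v3 + w2) * (R2 - t) + (v2 + w3) * (R2 + t) - 2 * om = N - t * δ := by
      rw [hN, hδ]; ring
    have e3 : (v2 + w2) * R2 + (v3 + w3) * R2 - 2 * om = N := by rw [hN]; ring
    rw [e1, e2, e3, ← hΔ']
    have : (N - t * δ) / (Δ - t ^ 2) < N / Δ := by
      rw [div_lt_div_iff₀ (by linarith) hΔ0]
      nlinarith
    linarith
  · refine ⟨R2, R3, hR2, hΔ, ?_⟩
    unfold Ph
    have : ((v3 + w2) * R3 + (v2 + w3) * R2 - 2 * om) / (R2 * R3 - γ ^ 2) <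
        ((v2 + w2) * R3 + (v3 + w3) * R2 - 2 * om) / (R2 * R3 - γ ^ 2) := by
      apply div_lt_div_of_pos_right _ hD
      nlinarith [mul_pos (sub_pos.2 hv) (sub_pos.2 h)]
    linarith

end Pool.Agent.Helper29.Smith
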