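import Pool.Agent.Helper29.Smith.ChainMin
import Pool.Agent.Helper29.Smith.SwapAlg

/-! The swap of two leaves. -/

set_option linter.unusedVariables false
set_option linter.unusedSectionVars false

namespace Pool.Agent.Helper29.Smith

open Pool.Agent.Helper29.Steiner BT

variable {α : Type} {val : α → Set (ℝ × ℝ)}

/-- the bound obtained from the trial legs `z`, `R` -/
noncomputable def tot (D : TPD) (p1 r2 : ℝ) (sa sC : ℝ × ℝ) (z R : ℝ) (t t' : ℝ × ℝ) : ℝ :=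
  (D.K (1 / p1 + 1 / z) (sa.1 / p1 ^ 2 + t.1 / z ^ 2)
      ((sa.2 + p1 + sa.1 / p1) + (t.2 + z + t.1 / z)) + (sC.2 + r2 + sC.1 / r2)) -
    (1 + (D.S (1 / p1 + 1 / z) (sa.1 / p1 ^ 2 + t.1 / z ^ 2) + sC.1 / r2 ^ 2)) /
      (D.H (1 / p1 + 1 / z) + 1 / r2) + t'.2 + R +
    ((D.S (1 / p1 + 1 / z) (sa.1 / p1 ^ 2 + t.1 / z ^ 2) + sC.1 / r2 ^ 2) /
      (D.H (1 / p1 + 1 / z) + 1 / r2) ^ 2 + t'.1) / R

lemma L2_le_tot (h : Adm val) {a b B C : BT α} {M : List (BT α)} {D : TPD} (hTP : TP val M D)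
    {sa sb sB sC : ℝ × ℝ} (ha : sa ∈ SS val a) (hb : sb ∈ SS val b) (hB : sB ∈ SS val B)
    (hC : sC ∈ SS val C) {p1 r2 z R : ℝ} (hp1 : 0 < p1) (hr2 : 0 < r2) (hz : 0 < z)
    (hR : 0 < R) :
    L2 val (node (chain (node a b) M) C, B) ≤ tot D p1 r2 sa sC z R sb sB := by
  have qa := (SS_adm h _).2.2 _ ha
  have qb := (SS_adm h _).2.2 _ hb
  have qC := (SS_adm h _).2.2 _ hC
  have h1 := (Lg_state h ha hp1).merge (Lg_state h hb hz) (by positivity) (by positivity)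
    (by positivity) (by positivity)
  have hG : 0 < 1 / p1 + 1 / z := by positivity
  have hS : 0 < sa.1 / p1 ^ 2 + sb.1 / z ^ 2 := by positivity
  have h2 := hTP.fwd _ _ _ _ hG hS h1
  have hG' := TPD.H_pos hTP.ok hG
  have hS' := TPD.S_pos hTP.ok hG hS
  have h3 := h2.merge (Lg_state h hC hr2) hG' (by positivity) hS' (by positivity)
  exact h3.final h (by positivity) (by positivity) hB hR

lemma tot_eq {D : TPD} (hD : D.Ok) {p1 r2 z R : ℝ} {sa sC t t' : ℝ × ℝ} (hp1 : 0 < p1)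
    (hr2 : 0 < r2) (hz : 0 < z) (hR : 0 < R) {x y δ A B : ℝ} (hx : x = D.q1 + 1 / p1)
    (hy : y = D.q2 + 1 / r2) (hδ : δ = x * y - D.c ^ 2) (hA : A = D.n11 + sa.1 / p1 ^ 2)
    (hB : B = D.n22 + sC.1 / r2 ^ 2) :
    tot D p1 r2 sa sC z R t t' =
      Ph (W2 x y D.c A B D.n12 δ) (W3 x y D.c A B D.n12 δ) (Om x y D.c A B D.n12 δ) (D.c / δ)
        (z + y / δ) (R + (D.c / δ) ^ 2 / (z + y / δ)) t.1 t'.1 - (x + y) / δ -
        (A * y + B * x + 2 * D.n12 * D.c) / δ + D.k + (sa.2 + p1 + sa.1 / p1) +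
        (sC.2 + r2 + sC.1 / r2) + t.2 + t'.2 := by
  obtain ⟨hc, hq1, hq2, _, _, _⟩ := hD
  have hp1' : 0 < 1 / p1 := by positivity
  have hr2' : 0 < 1 / r2 := by positivity
  have hx0 : D.c < x := by rw [hx]; linarith
  have hy0 : D.c < y := by rw [hy]; linarith
  have hxp : 0 < x := hc.trans hx0
  have hδ0 : 0 < δ := by rw [hδ]; nlinarith
  have hu : 1 < x * z + 1 := by nlinarith [mul_pos hxp hz]
  have e1 : y = (δ + D.c ^ 2) / x := by rw [hδ]; field_simp; ring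
  have e2 : z = (x * z + 1 - 1) / x := by field_simp; ring
  have e3 : z + y / δ = ((x * z + 1) * δ + D.c ^ 2) / (x * δ) := by
    rw [e1]; field_simp; ring
  have key := sw_total (A := A) (B := B) (n := D.n12) (v := t.1) (v' := t'.1) hxp hδ0 hu e1 e2 e3
    hR
  have f1 : D.q1 + (1 / p1 + 1 / z) = x + 1 / z := by rw [hx]; ring
  have f2 : D.H (1 / p1 + 1 / z) + 1 / r2 = y - D.c ^ 2 / (x + 1 / z) := by
    unfold TPD.H; rw [f1, hy]; ring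
  have f3 : D.S (1 / p1 + 1 / z) (sa.1 / p1 ^ 2 + t.1 / z ^ 2) + sC.1 / r2 ^ 2 =
      B + 2 * D.n12 * (D.c / (x + 1 / z)) + (A + t.1 / z ^ 2) * (D.c / (x + 1 / z)) ^ 2 := by
    unfold TPD.S; rw [f1, hA, hB]; ring
  have f4 : D.K (1 / p1 + 1 / z) (sa.1 / p1 ^ 2 + t.1 / z ^ 2)
      ((sa.2 + p1 + sa.1 / p1) + (t.2 + z + t.1 / z)) =
      D.k + (sa.2 + p1 + sa.1 / p1) + t.2 + (z + t.1 / z - (A + t.1 / z ^ 2) / (x + 1 / z)) := by
    unfold TPD.K; rw [f1, hA]; ring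
  unfold tot
  rw [f2, f3, f4]
  linarith

/-- The swap of `B` and `b`. -/
theorem swap_step (h : Adm val) {a b B C : BT α} {M : List (BT α)} {D : TPD} (hTP : TP val M D)
    {sa sb sB sC : ℝ × ℝ} (ha : sa ∈ SS val a) (hb : sb ∈ SS val b) (hB : sB ∈ SS val B)
    (hC : sC ∈ SS val C) {p1 p2 r2 R : ℝ} (hp1 : 0 < p1) (hr2 : 0 < r2) (hp2 : 0 < p2)
    (hR : 0 < R) (hv : sB.1 < sb.1)
    (hE : 0 < (sa.1 / p1 ^ 2 + D.n11) * ((D.q2 + 1 / r2) ^ 2 - D.c ^ 2)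
      - (sC.1 / r2 ^ 2 + D.n22) * ((D.q1 + 1 / p1) ^ 2 - D.c ^ 2)
      + 2 * D.n12 * D.c * ((D.q2 + 1 / r2) - (D.q1 + 1 / p1))) :
    L2 val (node (chain (node a b) M) C, B) < tot D p1 r2 sa sC p2 R sB sb := by
  obtain ⟨x, hx⟩ : ∃ x, x = D.q1 + 1 / p1 := ⟨_, rfl⟩
  obtain ⟨y, hy⟩ : ∃ y, y = D.q2 + 1 / r2 := ⟨_, rfl⟩
  obtain ⟨δ, hδ⟩ : ∃ δ, δ = x * y - D.c ^ 2 := ⟨_, rfl⟩
  obtain ⟨A, hA⟩ : ∃ A, A = D.n11 + sa.1 / p1 ^ 2 := ⟨_, rfl⟩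
  obtain ⟨B', hB'⟩ : ∃ B', B' = D.n22 + sC.1 / r2 ^ 2 := ⟨_, rfl⟩
  obtain ⟨hc, hq1, hq2, _, _, _⟩ := id hTP.ok
  have hp1' : 0 < 1 / p1 := by positivity
  have hr2' : 0 < 1 / r2 := by positivity
  have hx0 : D.c < x := by rw [hx]; linarith
  have hy0 : D.c < y := by rw [hy]; linarith
  have hxp : 0 < x := hc.trans hx0
  have hyp : 0 < y := hc.trans hy0
  have hδ0 : 0 < δ := by rw [hδ]; nlinarith
  have hw : W3 x y D.c A B' D.n12 δ < W2 x y D.c A B' D.n12 δ := by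
    unfold W2 W3
    apply div_lt_div_of_pos_right _ (by positivity)
    rw [← hx, ← hy, add_comm (sa.1 / p1 ^ 2), add_comm (sC.1 / r2 ^ 2), ← hA, ← hB'] at hE
    nlinarith
  have hρ : 0 < y / δ := by positivity
  have hR2 : 0 < p2 + y / δ := by positivity
  have hΔ : (D.c / δ) ^ 2 < (p2 + y / δ) * (R + (D.c / δ) ^ 2 / (p2 + y / δ)) := by
    rw [mul_add, mul_div_cancel₀ _ hR2.ne']
    nlinarith [mul_pos hR2 hR]
  obtain ⟨R2', R3', g1, g2, g3⟩ := real_swap (om := Om x y D.c A B' D.n12 δ) hv hw hρ.le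
    (by linarith : y / δ < p2 + y / δ) hΔ
  have hR2' : 0 < R2' := by linarith
  have hz' : 0 < R2' - y / δ := by linarith
  have hR' : 0 < R3' - (D.c / δ) ^ 2 / R2' := by
    rw [sub_pos, div_lt_iff₀ hR2']; linarith
  have k1 := L2_le_tot h hTP ha hb hB hC hp1 hr2 hz' hR'
  refine lt_of_le_of_lt k1 ?_
  rw [tot_eq hTP.ok hp1 hr2 hz' hR' hx hy hδ hA hB', tot_eq hTP.ok hp1 hr2 hp2 hR hx hy hδ hA hB']
  have e1 : R2' - y / δ + y / δ = R2' := by ring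
  have e2 : R3' - (D.c / δ) ^ 2 / R2' + (D.c / δ) ^ 2 / R2' = R3' := by ring
  rw [e1, e2]
  linarith

end Pool.Agent.Helper29.Smith
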