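import Pool.Agent.Helper29.Smith.TwoPort2

/-! Two-ports of chains of side branches. -/

set_option linter.unusedVariables false
set_option linter.unusedSectionVars false

namespace Pool.Agent.Helper29.Smith

open Pool.Agent.Helper29.Steiner BT

variable {α : Type} {val : α → Set (ℝ × ℝ)}

/-- the list `M` of side branches realises the two-port `D` -/
structure TP (val : α → Set (ℝ × ℝ)) (M : List (BT α)) (D : TPD) : Prop where
  ok : D.Ok
  fwd : ∀ (X : BT α) (g s K : ℝ), 0 < g → 0 < s → Lg val X g s K →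
    Lg val (chain X M) (D.H g) (D.S g s) (D.K g s K)
  bwd : ∀ (X : BT α) (g s K : ℝ), 0 < g → 0 < s → Lg val X g s K →
    Lg val (chain X M.reverse) (D.tr.H g) (D.tr.S g s) (D.tr.K g s K)

lemma TP.tr {M : List (BT α)} {D : TPD} (h : TP val M D) : TP val M.reverse D.tr :=
  ⟨h.ok.tr, h.bwd, by rw [List.reverse_reverse]; exact h.fwd⟩

lemma TP_edge {l : ℝ} (hl : 0 < l) : TP val [] (edgeD l) := by
  have key : ∀ (X : BT α) (g s K : ℝ), 0 < g → 0 < s → Lg val X g s K →
      Lg val X ((edgeD l).H g) ((edgeD l).S g s) ((edgeD l).K g s K) := by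
    intro X g s K hg hs hX
    rw [edgeD_H hl hg, edgeD_S hl hg, edgeD_K hl hg]
    exact hX.edge hg hl.le
  exact ⟨edgeD_ok hl, key, key⟩

lemma chain_snoc (X m : BT α) (M : List (BT α)) : chain X (M ++ [m]) = node (chain X M) m := by
  simp only [chain, List.foldl_append, List.foldl_cons, List.foldl_nil]

lemma chain_rev_snoc (X m : BT α) (M : List (BT α)) :
    chain X (M ++ [m]).reverse = chain (node X m) M.reverse := by
  rw [List.reverse_append]; rfl

lemma TP_snoc {M : List (BT α)} {D : TPD} (h : TP val M D) {m : BT α} {gm sm Km l : ℝ}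
    (hm : Lg val m gm sm Km) (hg : 0 < gm) (hs : 0 < sm) (hl : 0 < l) :
    TP val (M ++ [m]) (D.snoc gm sm Km l) := by
  refine ⟨TPD.snoc_ok h.ok hg hs hl, ?_, ?_⟩
  · intro X g s K hg' hs' hX
    have h1 := h.fwd X g s K hg' hs' hX
    have hH := TPD.H_pos h.ok hg'
    have hS := TPD.S_pos h.ok hg' hs'
    have h2 := h1.merge hm hH hg hS hs
    have h3 := h2.edge (by positivity) hl.le
    rw [chain_snoc, snoc_H h.ok hg' hg hl, snoc_S h.ok hg' hg hl, snoc_K h.ok hg' hg hl]
    exact h3
  · intro X g s K hg' hs' hX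
    have hp : 0 < 1 + l * g := by positivity
    have h1 := hX.edge hg' hl.le
    have h2 := h1.merge hm (by positivity) hg (by positivity) hs
    have h3 := h.bwd _ _ _ _ (by positivity) (by positivity) h2
    rw [chain_rev_snoc, snoc_tr_H h.ok hg' hg hl, snoc_tr_S h.ok hg' hg hl,
      snoc_tr_K h.ok hg' hg hl]
    rw [add_comm gm, add_comm sm, add_comm Km]
    exact h3

/-- a state with a leg -/
lemma Lg_state (h : Adm val) {X : BT α} {a : ℝ × ℝ} (ha : a ∈ SS val X) {z : ℝ} (hz : 0 < z) :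
    Lg val X (1 / z) (a.1 / z ^ 2) (a.2 + z + a.1 / z) := by
  refine ⟨a.2, ?_, ?_⟩
  · have : a.1 / z ^ 2 / (1 / z) ^ 2 = a.1 := by field_simp
    rw [this]; exact ha
  · have : a.2 + z + a.1 / z - (1 + a.1 / z ^ 2) / (1 / z) = a.2 := by field_simp; ring
    rw [this]

end Pool.Agent.Helper29.Smith
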