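import Pool.Agent.Helper29.Steiner.Shape

/-! Labelled binary trees, their vertex types and the unrooted tree graph of a pair. -/

set_option linter.unusedVariables false
set_option linter.unusedSectionVars false

namespace Pool.Agent.Helper29.Smith

open Pool.Agent.Helper29.Steiner BT

/-- binary trees with a label at every vertex -/
inductive ET (X : Type) : Type
  | leaf (x : X) : ET X
  | node (x : X) (l r : ET X) : ET X

namespace ET

variable {X : Type}

/-- label of the root -/
def pos : ET X → X
  | leaf x => x
  | node x _ _ => x

/-- underlying unlabelled tree -/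
def shape : ET X → Tr
  | leaf _ => BT.leaf ()
  | node _ l r => BT.node (shape l) (shape r)

/-- multiset of labels of the leaves -/
def leaves : ET X → Multiset X
  | leaf x => {x}
  | node _ l r => leaves l + leaves r

/-- sum of a weight over the edges -/
def wlen (w : X → X → ℝ) : ET X → ℝ
  | leaf _ => 0
  | node x l r => w x (pos l) + w x (pos r) + wlen w l + wlen w r

/-- list of the edges, as pairs of labels -/
def edges : ET X → List (X × X)
  | leaf _ => []
  | node x l r => (x, pos l) :: (x, pos r) :: (edges l ++ edges r)

end ET

open ET

/-- shape of a pair -/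
def pshape {X : Type} (p : ET X × ET X) : Tr × Tr := (shape p.1, shape p.2)

/-- sum of a weight over the edges of a pair (the two roots are joined by an edge) -/
def pwlen {X : Type} (w : X → X → ℝ) (p : ET X × ET X) : ℝ :=
  w (pos p.1) (pos p.2) + wlen w p.1 + wlen w p.2

/-- edges of a pair -/
def pedges {X : Type} (p : ET X × ET X) : List (X × X) :=
  (pos p.1, pos p.2) :: (edges p.1 ++ edges p.2)

instance instFintypeVx : (x : Tr) → Fintype (Vx x)
  | BT.leaf _ => inferInstanceAs (Fintype Unit)
  | BT.node l r =>
    have := instFintypeVx l
    have := instFintypeVx r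
    inferInstanceAs (Fintype (Option (Vx l ⊕ Vx r)))

instance instDecEqVx : (x : Tr) → DecidableEq (Vx x)
  | BT.leaf _ => inferInstanceAs (DecidableEq Unit)
  | BT.node l r =>
    have := instDecEqVx l
    have := instDecEqVx r
    inferInstanceAs (DecidableEq (Option (Vx l ⊕ Vx r)))

/-- is the vertex a leaf -/
def isLf : (x : Tr) → Vx x → Prop
  | BT.leaf _, _ => True
  | BT.node _ _, none => False
  | BT.node l _, some (Sum.inl u) => isLf l u
  | BT.node _ r, some (Sum.inr u) => isLf r u

/-- label of a vertex -/
def lab {X : Type} : (a : ET X) → Vx (shape a) → X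
  | ET.leaf x, _ => x
  | ET.node x _ _, none => x
  | ET.node _ l _, some (Sum.inl u) => lab l u
  | ET.node _ _ r, some (Sum.inr u) => lab r u

/-- label of a vertex of a pair -/
def plab {X : Type} (p : ET X × ET X) : Vx (pshape p).1 ⊕ Vx (pshape p).2 → X :=
  Sum.elim (lab p.1) (lab p.2)

end Pool.Agent.Helper29.Smith
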