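import Pool.Agent.Helper29.Smith.Nondeg

/-! Branches with resistances, two-ports. -/

set_option linter.unusedVariables false
set_option linter.unusedSectionVars false

namespace Pool.Agent.Helper29.Smith

open Pool.Agent.Helper29.Steiner BT

variable {α : Type} {val : α → Set (ℝ × ℝ)}

/-- `Lg val X g s K`: the branch `X` is available with leg `1 / g`, value `s / g ^ 2` and
cost at most `K - (1 + s) / g`. -/
def Lg (val : α → Set (ℝ × ℝ)) (X : BT α) (g s K : ℝ) : Prop :=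
  ∃ c, (s / g ^ 2, c) ∈ SS val X ∧ c ≤ K - (1 + s) / g

lemma two_sqrt_le {a b T : ℝ} (ha : 0 ≤ a) (hb : 0 ≤ b) (hT : 0 < T) :
    2 * Real.sqrt (b * a) ≤ T * a + b / T := by
  have h1 : 0 ≤ T * a := by positivity
  have h2 : 0 ≤ b / T := by positivity
  have h3 : b * a = (T * a) * (b / T) := by field_simp
  rw [h3, Real.sqrt_mul h1]
  nlinarith [sq_nonneg (Real.sqrt (T * a) - Real.sqrt (b / T)), Real.sq_sqrt h1, Real.sq_sqrt h2]

lemma Lg.merge {X Y : BT α} {g1 s1 K1 g2 s2 K2 : ℝ} (h1 : Lg val X g1 s1 K1)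
    (h2 : Lg val Y g2 s2 K2) (hg1 : 0 < g1) (hg2 : 0 < g2) (hs1 : 0 < s1) (hs2 : 0 < s2) :
    Lg val (node X Y) (g1 + g2) (s1 + s2) (K1 + K2) := by
  obtain ⟨c1, m1, i1⟩ := h1
  obtain ⟨c2, m2, i2⟩ := h2
  have hw : g2 / (g1 + g2) ∈ Set.Icc (0 : ℝ) 1 := by
    constructor
    · positivity
    · rw [div_le_one (by positivity)]; linarith
  refine ⟨(mg (s1 / g1 ^ 2, c1) (s2 / g2 ^ 2, c2) (g2 / (g1 + g2))).2,
    ⟨_, m1, _, m2, g2 / (g1 + g2), hw, ?_⟩, ?_⟩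
  · apply Prod.ext
    · simp only [mg]
      field_simp
      ring
    · rfl
  · simp only [mg]
    have h3 := two_sqrt_le (a := qq (g2 / (g1 + g2))) (b := s1 / g1 ^ 2 + s2 / g2 ^ 2)
      (T := (g1 + g2) / (g1 * g2)) (qq_pos _).le (by positivity) (by positivity)
    have h4 : (g1 + g2) / (g1 * g2) * qq (g2 / (g1 + g2)) +
        (s1 / g1 ^ 2 + s2 / g2 ^ 2) / ((g1 + g2) / (g1 * g2)) =
        (1 + s1) / g1 + (1 + s2) / g2 - (1 + (s1 + s2)) / (g1 + g2) := by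
      unfold qq
      field_simp
      ring
    rw [h4] at h3
    linarith

lemma Lg.edge {X : BT α} {g s K l : ℝ} (h : Lg val X g s K) (hg : 0 < g) (hl : 0 ≤ l) :
    Lg val X (g / (1 + l * g)) (s / (1 + l * g) ^ 2) (K + l - s * l / (1 + l * g)) := by
  obtain ⟨c, m, i⟩ := h
  have hp : 0 < 1 + l * g := by positivity
  refine ⟨c, ?_, ?_⟩
  · have : s / (1 + l * g) ^ 2 / (g / (1 + l * g)) ^ 2 = s / g ^ 2 := by field_simp
    rw [this]; exact m
  · have : K + l - s * l / (1 + l * g) - (1 + s / (1 + l * g) ^ 2) / (g / (1 + l * g)) =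
        K - (1 + s) / g := by
      field_simp
      ring
    rw [this]; exact i

lemma Lg.final (h : Adm val) {X Y : BT α} {g s K R : ℝ} {t : ℝ × ℝ} (hX : Lg val X g s K)
    (hg : 0 < g) (hs : 0 < s) (ht : t ∈ SS val Y) (hR : 0 < R) :
    L2 val (X, Y) ≤ K - (1 + s) / g + t.2 + R + (s / g ^ 2 + t.1) / R := by
  obtain ⟨c, m, i⟩ := hX
  refine (L2_le h m ht).trans ?_
  have pt := (SS_adm h Y).2.2 _ ht
  simp only [fin2]
  have h3 := two_sqrt_le (a := 1) (b := s / g ^ 2 + t.1) (T := R) zero_le_one (by positivity) hR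
  rw [mul_one, mul_one] at h3
  linarith

/-- data of a two-port -/
structure TPD where
  q1 : ℝ
  q2 : ℝ
  c : ℝ
  n11 : ℝ
  n12 : ℝ
  n22 : ℝ
  k : ℝ

/-- transposed two-port -/
def TPD.tr (D : TPD) : TPD := ⟨D.q2, D.q1, D.c, D.n22, D.n12, D.n11, D.k⟩

lemma TPD.tr_tr (D : TPD) : D.tr.tr = D := rfl

/-- sign conditions -/
structure TPD.Ok (D : TPD) : Prop where
  c : 0 < D.c
  q1 : D.c ≤ D.q1
  q2 : D.c ≤ D.q2
  n11 : 0 ≤ D.n11
  n12 : 0 ≤ D.n12
  n22 : 0 ≤ D.n22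

lemma TPD.Ok.tr {D : TPD} (h : D.Ok) : D.tr.Ok := ⟨h.c, h.q2, h.q1, h.n22, h.n12, h.n11⟩

/-- conductance seen through the two-port -/
noncomputable def TPD.H (D : TPD) (g : ℝ) : ℝ := D.q2 - D.c ^ 2 / (D.q1 + g)

/-- normalised value seen through the two-port -/
noncomputable def TPD.S (D : TPD) (g s : ℝ) : ℝ :=
  D.n22 + 2 * D.n12 * (D.c / (D.q1 + g)) + (D.n11 + s) * (D.c / (D.q1 + g)) ^ 2

/-- cost seen through the two-port -/
noncomputable def TPD.K (D : TPD) (g s K : ℝ) : ℝ := D.k + K - (D.n11 + s) / (D.q1 + g)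

lemma TPD.H_pos {D : TPD} (h : D.Ok) {g : ℝ} (hg : 0 < g) : 0 < D.H g := by
  obtain ⟨h1, h2, h3, _, _, _⟩ := h
  unfold TPD.H
  rw [sub_pos, div_lt_iff₀ (by linarith)]
  nlinarith

lemma TPD.S_pos {D : TPD} (h : D.Ok) {g s : ℝ} (hg : 0 < g) (hs : 0 < s) : 0 < D.S g s := by
  obtain ⟨h1, h2, h3, h4, h5, h6⟩ := h
  unfold TPD.S
  have : 0 < D.q1 + g := by linarith
  positivity

/-- the single edge -/
noncomputable def edgeD (l : ℝ) : TPD := ⟨1 / l, 1 / l, 1 / l, 0, 0, 0, l⟩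

lemma edgeD_tr (l : ℝ) : (edgeD l).tr = edgeD l := rfl

lemma edgeD_ok {l : ℝ} (hl : 0 < l) : (edgeD l).Ok :=
  ⟨by unfold edgeD; positivity, le_rfl, le_rfl, le_rfl, le_rfl, le_rfl⟩

lemma edgeD_H {l g : ℝ} (hl : 0 < l) (hg : 0 < g) : (edgeD l).H g = g / (1 + l * g) := by
  simp only [TPD.H, edgeD]
  field_simp
  ring

lemma edgeD_S {l g s : ℝ} (hl : 0 < l) (hg : 0 < g) : (edgeD l).S g s = s / (1 + l * g) ^ 2 := by
  simp only [TPD.S, edgeD]
  field_simp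
  ring

lemma edgeD_K {l g s K : ℝ} (hl : 0 < l) (hg : 0 < g) :
    (edgeD l).K g s K = K + l - s * l / (1 + l * g) := by
  simp only [TPD.K, edgeD]
  field_simp
  ring

/-- add a side branch `(gm, sm, Km)` at the second port, followed by an edge `l` -/
noncomputable def TPD.snoc (D : TPD) (gm sm Km l : ℝ) : TPD where
  q1 := D.q1 - l * D.c ^ 2 / (1 + l * (D.q2 + gm))
  q2 := (D.q2 + gm) / (1 + l * (D.q2 + gm))
  c := D.c / (1 + l * (D.q2 + gm))
  n11 := D.n11 + 2 * D.n12 * (l * D.c / (1 + l * (D.q2 + gm))) +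
    (D.n22 + sm) * (l * D.c / (1 + l * (D.q2 + gm))) ^ 2
  n12 := (D.n12 + (D.n22 + sm) * (l * D.c / (1 + l * (D.q2 + gm)))) / (1 + l * (D.q2 + gm))
  n22 := (D.n22 + sm) / (1 + l * (D.q2 + gm)) ^ 2
  k := D.k + Km + l - (D.n22 + sm) * l / (1 + l * (D.q2 + gm))

lemma TPD.snoc_ok {D : TPD} (h : D.Ok) {gm sm Km l : ℝ} (hg : 0 < gm) (hs : 0 < sm)
    (hl : 0 < l) : (D.snoc gm sm Km l).Ok := by
  obtain ⟨h1, h2, h3, h4, h5, h6⟩ := h
  have hq2 : 0 < D.q2 + gm := by linarith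
  have hu : 0 < 1 + l * (D.q2 + gm) := by positivity
  constructor
  · simp only [TPD.snoc]; positivity
  · simp only [TPD.snoc]
    rw [le_sub_iff_add_le, ← add_div, div_le_iff₀ hu]
    nlinarith [mul_le_mul h2 (by linarith : D.c ≤ D.q2 + gm) h1.le (by linarith), mul_pos hl h1]
  · simp only [TPD.snoc]
    exact div_le_div_of_nonneg_right (by linarith) hu.le
  · simp only [TPD.snoc]; positivity
  · simp only [TPD.snoc]; positivity
  · simp only [TPD.snoc]; positivity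

end Pool.Agent.Helper29.Smith
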