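import Pool.Agent.Helper29.Smith.TwoPort

/-! Composition identities for two-ports. -/

set_option linter.unusedVariables false
set_option linter.unusedSectionVars false

namespace Pool.Agent.Helper29.Smith

open Pool.Agent.Helper29.Steiner BT

section ids

/-- substitution lemma: `x = q1 + g`, `y = q2 + gm`, `u = 1 + l y`, `w = x u - l c ^ 2` -/
lemma sn_aux {D : TPD} (hD : D.Ok) {g gm l : ℝ} (hg : 0 < g) (hgm : 0 < gm) (hl : 0 < l) :
    ∃ u w : ℝ, 0 < u ∧ 0 < w ∧ 1 + l * (D.q2 + gm) = u ∧ D.q2 + gm = (u - 1) / l ∧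
      D.q1 + g = (w + l * D.c ^ 2) / u ∧ D.q1 - l * D.c ^ 2 / u + g = w / u ∧
      D.H g + gm = (w - D.q1 - g) / (l * (D.q1 + g)) ∧
      1 + l * (D.H g + gm) = w / (D.q1 + g) ∧ 0 < D.q1 + g := by
  obtain ⟨h1, h2, h3, _, _, _⟩ := hD
  have hy : 0 < D.q2 + gm := by linarith
  have hx : 0 < D.q1 + g := by linarith
  have hu : 0 < 1 + l * (D.q2 + gm) := by positivity
  have hw : 0 < (D.q1 + g) * (1 + l * (D.q2 + gm)) - l * D.c ^ 2 := by
    have : D.c ^ 2 ≤ (D.q1 + g) * (D.q2 + gm) := by nlinarith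
    nlinarith
  refine ⟨1 + l * (D.q2 + gm), (D.q1 + g) * (1 + l * (D.q2 + gm)) - l * D.c ^ 2, hu, hw, rfl,
    ?_, ?_, ?_, ?_, ?_, hx⟩
  · field_simp; ring
  · field_simp; ring
  · field_simp; ring
  · unfold TPD.H; field_simp; ring
  · unfold TPD.H; field_simp; ring

lemma snoc_H {D : TPD} (hD : D.Ok) {g gm sm Km l : ℝ} (hg : 0 < g) (hgm : 0 < gm) (hl : 0 < l) :
    (D.snoc gm sm Km l).H g = (D.H g + gm) / (1 + l * (D.H g + gm)) := by
  obtain ⟨u, w, hu, hw, e1, e2, e3, e4, e5, e6, hx⟩ := sn_aux hD hg hgm hl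
  rw [e6, e5]
  simp only [TPD.H, TPD.snoc]
  rw [e1, e4, e2]
  have hc := hD.c
  rw [e3] at hx ⊢
  have e7 : w - D.q1 - g = w - (w + l * D.c ^ 2) / u := by rw [← e3]; ring
  rw [e7]
  have : 0 < w + l * D.c ^ 2 := by positivity
  field_simp
  ring

lemma snoc_S {D : TPD} (hD : D.Ok) {g s gm sm Km l : ℝ} (hg : 0 < g) (hgm : 0 < gm)
    (hl : 0 < l) :
    (D.snoc gm sm Km l).S g s = (D.S g s + sm) / (1 + l * (D.H g + gm)) ^ 2 := by
  obtain ⟨u, w, hu, hw, e1, e2, e3, e4, e5, e6, hx⟩ := sn_aux hD hg hgm hl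
  rw [e6]
  simp only [TPD.S, TPD.snoc]
  rw [e1, e4]
  have hc := hD.c
  rw [e3] at hx ⊢
  have : 0 < w + l * D.c ^ 2 := by positivity
  field_simp
  ring

lemma snoc_K {D : TPD} (hD : D.Ok) {g s K gm sm Km l : ℝ} (hg : 0 < g) (hgm : 0 < gm)
    (hl : 0 < l) :
    (D.snoc gm sm Km l).K g s K = (D.K g s K + Km) + l -
      (D.S g s + sm) * l / (1 + l * (D.H g + gm)) := by
  obtain ⟨u, w, hu, hw, e1, e2, e3, e4, e5, e6, hx⟩ := sn_aux hD hg hgm hl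
  rw [e6]
  simp only [TPD.K, TPD.S, TPD.snoc]
  rw [e1, e4]
  have hc := hD.c
  rw [e3] at hx ⊢
  have : 0 < w + l * D.c ^ 2 := by positivity
  field_simp
  ring

/-- substitution lemma for the transposed maps: `u = 1 + l y`, `v = 1 + l g` -/
lemma st_aux {D : TPD} (hD : D.Ok) {g gm l : ℝ} (hg : 0 < g) (hgm : 0 < gm) (hl : 0 < l) :
    ∃ u v : ℝ, 0 < u ∧ 0 < v ∧ 0 < u * v - 1 ∧ 1 + l * (D.q2 + gm) = u ∧
      D.q2 + gm = (u - 1) / l ∧ g = (v - 1) / l ∧ 1 + l * g = v ∧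
      (D.q2 + gm) / u + g = (u * v - 1) / (l * u) ∧
      D.q2 + (gm + g / v) = (u * v - 1) / (l * v) := by
  obtain ⟨h1, h2, h3, _, _, _⟩ := hD
  have hy : 0 < D.q2 + gm := by linarith
  have hu : 0 < 1 + l * (D.q2 + gm) := by positivity
  have hv : 0 < 1 + l * g := by positivity
  refine ⟨1 + l * (D.q2 + gm), 1 + l * g, hu, hv, ?_, rfl, ?_, ?_, rfl, ?_, ?_⟩
  · have : 0 < l * g := by positivity
    have : 0 < l * (D.q2 + gm) := by positivity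
    nlinarith
  · field_simp; ring
  · field_simp; ring
  · field_simp; ring
  · field_simp; ring

lemma snoc_tr_H {D : TPD} (hD : D.Ok) {g gm sm Km l : ℝ} (hg : 0 < g) (hgm : 0 < gm)
    (hl : 0 < l) :
    (D.snoc gm sm Km l).tr.H g = D.tr.H (gm + g / (1 + l * g)) := by
  obtain ⟨u, v, hu, hv, hm, e1, e2, e3, e4, e5, e6⟩ := st_aux hD hg hgm hl
  rw [e4]
  simp only [TPD.H, TPD.tr, TPD.snoc]
  rw [e1, e5, e6]
  field_simp
  ring

lemma snoc_tr_S {D : TPD} (hD : D.Ok) {g s gm sm Km l : ℝ} (hg : 0 < g) (hgm : 0 < gm)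
    (hl : 0 < l) :
    (D.snoc gm sm Km l).tr.S g s = D.tr.S (gm + g / (1 + l * g)) (sm + s / (1 + l * g) ^ 2) := by
  obtain ⟨u, v, hu, hv, hm, e1, e2, e3, e4, e5, e6⟩ := st_aux hD hg hgm hl
  rw [e4]
  simp only [TPD.S, TPD.tr, TPD.snoc]
  rw [e1, e5, e6]
  field_simp
  ring

lemma snoc_tr_K {D : TPD} (hD : D.Ok) {g s K gm sm Km l : ℝ} (hg : 0 < g) (hgm : 0 < gm)
    (hl : 0 < l) :
    (D.snoc gm sm Km l).tr.K g s K = D.tr.K (gm + g / (1 + l * g)) (sm + s / (1 + l * g) ^ 2)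
      (Km + (K + l - s * l / (1 + l * g))) := by
  obtain ⟨u, v, hu, hv, hm, e1, e2, e3, e4, e5, e6⟩ := st_aux hD hg hgm hl
  rw [e4]
  simp only [TPD.K, TPD.tr, TPD.snoc]
  rw [e1, e5, e6]
  field_simp
  ring

end ids

end Pool.Agent.Helper29.Smith
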