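import Pool.Agent.Helper29.Smith.Defs

/-! The graph of a pair: it is a tree, degrees, edges, invariance. -/

set_option linter.unusedVariables false
set_option linter.unusedSectionVars false

namespace Pool.Agent.Helper29.Smith

open Pool.Agent.Helper29.Steiner BT ET

/-! ### auxiliary facts on vertices -/

theorem modG2_sum_leaf {M : Type*} [AddCommMonoid M] (f : Vx (BT.leaf ()) → M) :
    ∑ u, f u = f (() : Unit) := by
  have := Fintype.sum_unique (ι := Unit) (f := f)
  exact this

theorem modG2_sum_node {M : Type*} [AddCommMonoid M] (l r : Tr) (f : Vx (BT.node l r) → M) :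
    ∑ u, f u = f (none : Option (Vx l ⊕ Vx r)) +
      (∑ u : Vx l, f (some (Sum.inl u) : Option (Vx l ⊕ Vx r)) +
        ∑ u : Vx r, f (some (Sum.inr u) : Option (Vx l ⊕ Vx r))) := by
  have h := Fintype.sum_option (α := Vx l ⊕ Vx r) (f := f)
  rw [Fintype.sum_sum_type] at h
  exact h

theorem modG2_lab_rt {X : Type} : ∀ a : ET X, lab a (rt (shape a)) = pos a
  | ET.leaf _ => rfl
  | ET.node _ _ _ => rfl

theorem modG2_card_leaf : Fintype.card (Vx (BT.leaf ())) = 1 := rfl

theorem modG2_card_node (l r : Tr) :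
    Fintype.card (Vx (BT.node l r)) = Fintype.card (Vx l) + Fintype.card (Vx r) + 1 := by
  rw [← Finset.card_univ, Finset.card_eq_sum_ones, modG2_sum_node]
  simp only [Finset.sum_const, Finset.card_univ, smul_eq_mul, mul_one]
  ring

/-! ### invariance -/

/-- the equivalence for rotations -/
def modG2_rot (A B C : Type) : (Option (A ⊕ B) ⊕ C) ≃ (A ⊕ Option (B ⊕ C)) where
  toFun
    | Sum.inl none => Sum.inr none
    | Sum.inl (some (Sum.inl u)) => Sum.inl u
    | Sum.inl (some (Sum.inr v)) => Sum.inr (some (Sum.inl v))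
    | Sum.inr w => Sum.inr (some (Sum.inr w))
  invFun
    | Sum.inr none => Sum.inl none
    | Sum.inl u => Sum.inl (some (Sum.inl u))
    | Sum.inr (some (Sum.inl v)) => Sum.inl (some (Sum.inr v))
    | Sum.inr (some (Sum.inr w)) => Sum.inr w
  left_inv := by rintro ((_ | (_ | _)) | _) <;> rfl
  right_inv := by rintro (_ | (_ | (_ | _))) <;> rfl

/-- the equivalence for switches -/
def modG2_sw (A B C : Type) : (Option (A ⊕ B) ⊕ C) ≃ (Option (B ⊕ A) ⊕ C) where
  toFun
    | Sum.inl none => Sum.inl none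
    | Sum.inl (some (Sum.inl u)) => Sum.inl (some (Sum.inr u))
    | Sum.inl (some (Sum.inr v)) => Sum.inl (some (Sum.inl v))
    | Sum.inr w => Sum.inr w
  invFun
    | Sum.inl none => Sum.inl none
    | Sum.inl (some (Sum.inl u)) => Sum.inl (some (Sum.inr u))
    | Sum.inl (some (Sum.inr v)) => Sum.inl (some (Sum.inl v))
    | Sum.inr w => Sum.inr w
  left_inv := by rintro ((_ | (_ | _)) | _) <;> rfl
  right_inv := by rintro ((_ | (_ | _)) | _) <;> rfl

theorem modG2_comm_adj (a b : Tr) (u v : Vx a ⊕ Vx b) :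
    (UG (b, a)).Adj (Equiv.sumComm (Vx a) (Vx b) u) (Equiv.sumComm (Vx a) (Vx b) v) ↔
      (UG (a, b)).Adj u v := by
  rcases u with u | u <;> rcases v with v | v <;> exact Iff.rfl

theorem modG2_rot_adj (a b c : Tr) (u v : Option (Vx a ⊕ Vx b) ⊕ Vx c) :
    (UG (a, BT.node b c)).Adj (modG2_rot (Vx a) (Vx b) (Vx c) u)
      (modG2_rot (Vx a) (Vx b) (Vx c) v) ↔ (UG (BT.node a b, c)).Adj u v := by
  rcases u with (_ | (u | u)) | u <;> rcases v with (_ | (v | v)) | v
  · exact Iff.rfl
  · show (none : Option _) = rt (BT.node b c) ∧ v = rt a ↔ v = rt a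
    exact ⟨fun h => h.2, fun h => ⟨rfl, h⟩⟩
  · exact Iff.rfl
  · show v = rt c ↔ (none : Option _) = rt (BT.node a b) ∧ v = rt c
    exact ⟨fun h => ⟨rfl, h⟩, fun h => h.2⟩
  · show u = rt a ∧ (none : Option _) = rt (BT.node b c) ↔ u = rt a
    exact ⟨fun h => h.1, fun h => ⟨h, rfl⟩⟩
  · exact Iff.rfl
  · show u = rt a ∧ (some (Sum.inl v) : Option _) = rt (BT.node b c) ↔ False
    exact ⟨fun h => (nomatch h.2), fun h => h.elim⟩
  · show u = rt a ∧ (some (Sum.inr v) : Option _) = rt (BT.node b c) ↔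
      (some (Sum.inl u) : Option _) = rt (BT.node a b) ∧ v = rt c
    exact ⟨fun h => (nomatch h.2), fun h => (nomatch h.1)⟩
  · exact Iff.rfl
  · show (some (Sum.inl u) : Option _) = rt (BT.node b c) ∧ v = rt a ↔ False
    exact ⟨fun h => (nomatch h.1), fun h => h.elim⟩
  · exact Iff.rfl
  · show False ↔ (some (Sum.inr u) : Option _) = rt (BT.node a b) ∧ v = rt c
    exact ⟨fun h => h.elim, fun h => (nomatch h.1)⟩
  · show u = rt c ↔ u = rt c ∧ (none : Option _) = rt (BT.node a b)
    exact ⟨fun h => ⟨h, rfl⟩, fun h => h.1⟩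
  · show (some (Sum.inr u) : Option _) = rt (BT.node b c) ∧ v = rt a ↔
      u = rt c ∧ (some (Sum.inl v) : Option _) = rt (BT.node a b)
    exact ⟨fun h => (nomatch h.1), fun h => (nomatch h.2)⟩
  · show False ↔ u = rt c ∧ (some (Sum.inr v) : Option _) = rt (BT.node a b)
    exact ⟨fun h => h.elim, fun h => (nomatch h.2)⟩
  · exact Iff.rfl

theorem modG2_sw_adj (a b c : Tr) (u v : Option (Vx a ⊕ Vx b) ⊕ Vx c) :
    (UG (BT.node b a, c)).Adj (modG2_sw (Vx a) (Vx b) (Vx c) u)
      (modG2_sw (Vx a) (Vx b) (Vx c) v) ↔ (UG (BT.node a b, c)).Adj u v := by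
  rcases u with (_ | (u | u)) | u <;> rcases v with (_ | (v | v)) | v
  · exact Iff.rfl
  · exact Iff.rfl
  · exact Iff.rfl
  · show (none : Option _) = rt (BT.node b a) ∧ v = rt c ↔
      (none : Option _) = rt (BT.node a b) ∧ v = rt c
    exact ⟨fun h => ⟨rfl, h.2⟩, fun h => ⟨rfl, h.2⟩⟩
  · exact Iff.rfl
  · exact Iff.rfl
  · exact Iff.rfl
  · show (some (Sum.inr u) : Option _) = rt (BT.node b a) ∧ v = rt c ↔
      (some (Sum.inl u) : Option _) = rt (BT.node a b) ∧ v = rt c
    exact ⟨fun h => (nomatch h.1), fun h => (nomatch h.1)⟩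
  · exact Iff.rfl
  · exact Iff.rfl
  · exact Iff.rfl
  · show (some (Sum.inl u) : Option _) = rt (BT.node b a) ∧ v = rt c ↔
      (some (Sum.inr u) : Option _) = rt (BT.node a b) ∧ v = rt c
    exact ⟨fun h => (nomatch h.1), fun h => (nomatch h.1)⟩
  · show u = rt c ∧ (none : Option _) = rt (BT.node b a) ↔
      u = rt c ∧ (none : Option _) = rt (BT.node a b)
    exact ⟨fun h => ⟨h.1, rfl⟩, fun h => ⟨h.1, rfl⟩⟩
  · show u = rt c ∧ (some (Sum.inr v) : Option _) = rt (BT.node b a) ↔
      u = rt c ∧ (some (Sum.inl v) : Option _) = rt (BT.node a b)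
    exact ⟨fun h => (nomatch h.2), fun h => (nomatch h.2)⟩
  · show u = rt c ∧ (some (Sum.inl v) : Option _) = rt (BT.node b a) ↔
      u = rt c ∧ (some (Sum.inr v) : Option _) = rt (BT.node a b)
    exact ⟨fun h => (nomatch h.2), fun h => (nomatch h.2)⟩
  · exact Iff.rfl

/-- invariance of the graph -/
theorem UG_ueq {p q : Tr × Tr} (h : UEq p q) : Nonempty (UG p ≃g UG q) := by
  induction h with
  | refl p => exact ⟨SimpleGraph.Iso.refl⟩
  | symm _ ih => exact ⟨ih.some.symm⟩
  | trans _ _ ih1 ih2 => exact ⟨ih1.some.trans ih2.some⟩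
  | comm a b => exact ⟨⟨Equiv.sumComm (Vx a) (Vx b), fun {u v} => modG2_comm_adj a b u v⟩⟩
  | rot a b c => exact ⟨⟨modG2_rot (Vx a) (Vx b) (Vx c), fun {u v} => modG2_rot_adj a b c u v⟩⟩
  | sw a b c => exact ⟨⟨modG2_sw (Vx a) (Vx b) (Vx c), fun {u v} => modG2_sw_adj a b c u v⟩⟩

/-! ### sums over ordered adjacent pairs -/

open Classical in
theorem modG2_edge_sum {V : Type} [Fintype V] (G : SimpleGraph V) [DecidableRel G.Adj]
    (f : V → V → ℝ) (hf : ∀ u v, f u v = f v u) :
    ∑ u, ∑ v, (if G.Adj u v then f u v else 0) =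
      2 * ∑ e ∈ G.edgeFinset, Sym2.lift ⟨f, hf⟩ e := by
  have h1 : ∑ d : G.Dart, Sym2.lift ⟨f, hf⟩ d.edge =
      2 * ∑ e ∈ G.edgeFinset, Sym2.lift ⟨f, hf⟩ e := by
    have h2 := Finset.sum_fiberwise_of_maps_to (s := (Finset.univ : Finset G.Dart))
      (t := G.edgeFinset) (g := fun d => d.edge)
      (fun d _ => by rw [SimpleGraph.mem_edgeFinset]; exact d.edge_mem)
      (fun d => Sym2.lift ⟨f, hf⟩ d.edge)
    rw [← h2, Finset.mul_sum]
    refine Finset.sum_congr rfl fun e he => ?_
    rw [SimpleGraph.mem_edgeFinset] at he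
    have h3 : ∑ d ∈ Finset.univ.filter (fun d : G.Dart => d.edge = e),
        Sym2.lift ⟨f, hf⟩ d.edge =
        ∑ _d ∈ Finset.univ.filter (fun d : G.Dart => d.edge = e), Sym2.lift ⟨f, hf⟩ e :=
      Finset.sum_congr rfl fun d hd => by rw [(Finset.mem_filter.1 hd).2]
    rw [h3, Finset.sum_const, G.dart_edge_fiber_card e he]
    simp
  rw [← h1, ← Fintype.sum_prod_type']
  rw [← Finset.sum_filter]
  symm
  refine Finset.sum_bij' (fun d _ => d.toProd)
    (fun x hx => ⟨x, (Finset.mem_filter.1 hx).2⟩) ?_ ?_ ?_ ?_ ?_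
  · intro d _
    exact Finset.mem_filter.2 ⟨Finset.mem_univ _, d.adj⟩
  · intro x hx
    exact Finset.mem_univ _
  · intro d _
    rfl
  · intro x hx
    rfl
  · intro d _
    rfl

open Classical in
/-- sum over ordered adjacent pairs of a rooted tree -/
noncomputable def modG2_S (x : Tr) (f : Vx x → Vx x → ℝ) : ℝ :=
  ∑ u, ∑ v, (if Ad x u v then f u v else 0)

theorem modG2_S_leaf (f : Vx (BT.leaf ()) → Vx (BT.leaf ()) → ℝ) :
    modG2_S (BT.leaf ()) f = 0 := by
  unfold modG2_S
  apply Finset.sum_eq_zero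
  intro u _
  apply Finset.sum_eq_zero
  intro v _
  exact if_neg (fun h => h)

theorem modG2_S_node (l r : Tr) (f : Vx (BT.node l r) → Vx (BT.node l r) → ℝ)
    (hf : ∀ u v, f u v = f v u) :
    modG2_S (BT.node l r) f =
      2 * f (none : Option (Vx l ⊕ Vx r)) (some (Sum.inl (rt l)) : Option (Vx l ⊕ Vx r)) +
      2 * f (none : Option (Vx l ⊕ Vx r)) (some (Sum.inr (rt r)) : Option (Vx l ⊕ Vx r)) +
      modG2_S l (fun u v => f (some (Sum.inl u) : Option (Vx l ⊕ Vx r))
        (some (Sum.inl v) : Option (Vx l ⊕ Vx r))) +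
      modG2_S r (fun u v => f (some (Sum.inr u) : Option (Vx l ⊕ Vx r))
        (some (Sum.inr v) : Option (Vx l ⊕ Vx r))) := by
  classical
  unfold modG2_S
  rw [modG2_sum_node]
  simp only [modG2_sum_node l r]
  have e1 : (if Ad (BT.node l r) (none : Option (Vx l ⊕ Vx r)) (none : Option (Vx l ⊕ Vx r)) then
      f (none : Option (Vx l ⊕ Vx r)) (none : Option (Vx l ⊕ Vx r)) else 0) = 0 :=
    if_neg (fun h => h)
  have e2 : ∑ u : Vx l, (if Ad (BT.node l r) (none : Option (Vx l ⊕ Vx r))
      (some (Sum.inl u) : Option (Vx l ⊕ Vx r)) then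
      f (none : Option (Vx l ⊕ Vx r)) (some (Sum.inl u) : Option (Vx l ⊕ Vx r)) else 0) =
      f (none : Option (Vx l ⊕ Vx r)) (some (Sum.inl (rt l)) : Option (Vx l ⊕ Vx r)) := by
    rw [Finset.sum_eq_single (rt l)]
    · exact if_pos rfl
    · intro u _ hu
      exact if_neg hu
    · intro h
      exact absurd (Finset.mem_univ _) h
  have e3 : ∑ u : Vx r, (if Ad (BT.node l r) (none : Option (Vx l ⊕ Vx r))
      (some (Sum.inr u) : Option (Vx l ⊕ Vx r)) then
      f (none : Option (Vx l ⊕ Vx r)) (some (Sum.inr u) : Option (Vx l ⊕ Vx r)) else 0) =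
      f (none : Option (Vx l ⊕ Vx r)) (some (Sum.inr (rt r)) : Option (Vx l ⊕ Vx r)) := by
    rw [Finset.sum_eq_single (rt r)]
    · exact if_pos rfl
    · intro u _ hu
      exact if_neg hu
    · intro h
      exact absurd (Finset.mem_univ _) h
  have e4 : ∑ u : Vx l, ((if Ad (BT.node l r) (some (Sum.inl u) : Option (Vx l ⊕ Vx r))
      (none : Option (Vx l ⊕ Vx r)) then
      f (some (Sum.inl u) : Option (Vx l ⊕ Vx r)) (none : Option (Vx l ⊕ Vx r)) else 0)) =
      f (none : Option (Vx l ⊕ Vx r)) (some (Sum.inl (rt l)) : Option (Vx l ⊕ Vx r)) := by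
    rw [Finset.sum_eq_single (rt l)]
    · rw [hf]; exact if_pos rfl
    · intro u _ hu
      exact if_neg hu
    · intro h
      exact absurd (Finset.mem_univ _) h
  have e5 : ∑ u : Vx r, ((if Ad (BT.node l r) (some (Sum.inr u) : Option (Vx l ⊕ Vx r))
      (none : Option (Vx l ⊕ Vx r)) then
      f (some (Sum.inr u) : Option (Vx l ⊕ Vx r)) (none : Option (Vx l ⊕ Vx r)) else 0)) =
      f (none : Option (Vx l ⊕ Vx r)) (some (Sum.inr (rt r)) : Option (Vx l ⊕ Vx r)) := by
    rw [Finset.sum_eq_single (rt r)]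
    · rw [hf]; exact if_pos rfl
    · intro u _ hu
      exact if_neg hu
    · intro h
      exact absurd (Finset.mem_univ _) h
  have e6 : ∀ u : Vx l, ∑ v : Vx r, (if Ad (BT.node l r)
      (some (Sum.inl u) : Option (Vx l ⊕ Vx r)) (some (Sum.inr v) : Option (Vx l ⊕ Vx r)) then
      f (some (Sum.inl u) : Option (Vx l ⊕ Vx r)) (some (Sum.inr v) : Option (Vx l ⊕ Vx r))
      else 0) = 0 := fun u => Finset.sum_eq_zero fun v _ => if_neg (fun h => h)
  have e7 : ∀ u : Vx r, ∑ v : Vx l, (if Ad (BT.node l r)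
      (some (Sum.inr u) : Option (Vx l ⊕ Vx r)) (some (Sum.inl v) : Option (Vx l ⊕ Vx r)) then
      f (some (Sum.inr u) : Option (Vx l ⊕ Vx r)) (some (Sum.inl v) : Option (Vx l ⊕ Vx r))
      else 0) = 0 := fun u => Finset.sum_eq_zero fun v _ => if_neg (fun h => h)
  have e8 : ∀ u v : Vx l, (if Ad (BT.node l r)
      (some (Sum.inl u) : Option (Vx l ⊕ Vx r)) (some (Sum.inl v) : Option (Vx l ⊕ Vx r)) then
      f (some (Sum.inl u) : Option (Vx l ⊕ Vx r)) (some (Sum.inl v) : Option (Vx l ⊕ Vx r))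
      else 0) = (if Ad l u v then
      f (some (Sum.inl u) : Option (Vx l ⊕ Vx r)) (some (Sum.inl v) : Option (Vx l ⊕ Vx r))
      else 0) := fun u v => rfl
  have e9 : ∀ u v : Vx r, (if Ad (BT.node l r)
      (some (Sum.inr u) : Option (Vx l ⊕ Vx r)) (some (Sum.inr v) : Option (Vx l ⊕ Vx r)) then
      f (some (Sum.inr u) : Option (Vx l ⊕ Vx r)) (some (Sum.inr v) : Option (Vx l ⊕ Vx r))
      else 0) = (if Ad r u v then
      f (some (Sum.inr u) : Option (Vx l ⊕ Vx r)) (some (Sum.inr v) : Option (Vx l ⊕ Vx r))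
      else 0) := fun u v => rfl
  simp only [e6, e7, Finset.sum_add_distrib]
  rw [e1, e2, e3, e4, e5]
  simp only [e8, e9, Finset.sum_const_zero]
  ring

theorem modG2_S_wlen {X : Type} (w : X → X → ℝ) (hw : ∀ x y, w x y = w y x) :
    ∀ a : ET X, modG2_S (shape a) (fun u v => w (lab a u) (lab a v)) = 2 * wlen w a
  | ET.leaf x => by
    rw [wlen, mul_zero]
    exact modG2_S_leaf _
  | ET.node x l r => by
    have h := modG2_S_node (shape l) (shape r)
      (fun u v => w (lab (ET.node x l r) u) (lab (ET.node x l r) v)) (fun u v => hw _ _)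
    have hl := modG2_S_wlen w hw l
    have hr := modG2_S_wlen w hw r
    have h' : modG2_S (shape (ET.node x l r))
        (fun u v => w (lab (ET.node x l r) u) (lab (ET.node x l r) v)) =
        2 * w x (lab l (rt (shape l))) + 2 * w x (lab r (rt (shape r))) +
        modG2_S (shape l) (fun u v => w (lab l u) (lab l v)) +
        modG2_S (shape r) (fun u v => w (lab r u) (lab r v)) := h
    rw [h', hl, hr, modG2_lab_rt, modG2_lab_rt, wlen]
    ring

open Classical in
theorem modG2_pair_sum (p : Tr × Tr) (f : Vx p.1 ⊕ Vx p.2 → Vx p.1 ⊕ Vx p.2 → ℝ)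
    (hf : ∀ u v, f u v = f v u) :
    ∑ u, ∑ v, (if (UG p).Adj u v then f u v else 0) =
      2 * f (Sum.inl (rt p.1)) (Sum.inr (rt p.2)) +
      modG2_S p.1 (fun u v => f (Sum.inl u) (Sum.inl v)) +
      modG2_S p.2 (fun u v => f (Sum.inr u) (Sum.inr v)) := by
  rw [Fintype.sum_sum_type]
  simp only [Fintype.sum_sum_type]
  have e1 : ∀ u : Vx p.1, ∑ v : Vx p.2, (if (UG p).Adj (Sum.inl u) (Sum.inr v) then
      f (Sum.inl u) (Sum.inr v) else 0) =
      if u = rt p.1 then f (Sum.inl u) (Sum.inr (rt p.2)) else 0 := by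
    intro u
    rw [Finset.sum_eq_single (rt p.2)]
    · by_cases hu : u = rt p.1
      · rw [if_pos hu]; exact if_pos ⟨hu, rfl⟩
      · rw [if_neg hu]; exact if_neg fun h => hu h.1
    · intro v _ hv
      exact if_neg fun h => hv h.2
    · intro h
      exact absurd (Finset.mem_univ _) h
  have e2 : ∀ u : Vx p.2, ∑ v : Vx p.1, (if (UG p).Adj (Sum.inr u) (Sum.inl v) then
      f (Sum.inr u) (Sum.inl v) else 0) =
      if u = rt p.2 then f (Sum.inr u) (Sum.inl (rt p.1)) else 0 := by
    intro u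
    rw [Finset.sum_eq_single (rt p.1)]
    · by_cases hu : u = rt p.2
      · rw [if_pos hu]; exact if_pos ⟨hu, rfl⟩
      · rw [if_neg hu]; exact if_neg fun h => hu h.1
    · intro v _ hv
      exact if_neg fun h => hv h.2
    · intro h
      exact absurd (Finset.mem_univ _) h
  simp only [e1, e2, Finset.sum_add_distrib, Finset.sum_ite_eq', Finset.mem_univ, if_true]
  rw [hf (Sum.inr (rt p.2)) (Sum.inl (rt p.1))]
  have e3 : ∑ u : Vx p.1, ∑ v : Vx p.1, (if (UG p).Adj (Sum.inl u) (Sum.inl v) then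
      f (Sum.inl u) (Sum.inl v) else 0) = modG2_S p.1 (fun u v => f (Sum.inl u) (Sum.inl v)) :=
    rfl
  have e4 : ∑ u : Vx p.2, ∑ v : Vx p.2, (if (UG p).Adj (Sum.inr u) (Sum.inr v) then
      f (Sum.inr u) (Sum.inr v) else 0) = modG2_S p.2 (fun u v => f (Sum.inr u) (Sum.inr v)) :=
    rfl
  rw [e3, e4]
  ring

/-! ### the graph is a tree -/

/-- the graph of a rooted tree -/
def modG2_RG (x : Tr) : SimpleGraph (Vx x) where
  Adj := Ad x
  symm := ⟨fun _ _ h => Ad_symm _ _ _ h⟩
  loopless := ⟨fun _ h => Ad_irrefl _ _ h⟩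

theorem modG2_reach : ∀ (x : Tr) (u : Vx x), (modG2_RG x).Reachable u (rt x)
  | BT.leaf _, _ => SimpleGraph.Reachable.refl _
  | BT.node l r, none => SimpleGraph.Reachable.refl _
  | BT.node l r, some (Sum.inl u) => by
    have h := modG2_reach l u
    let φ : modG2_RG l →g modG2_RG (BT.node l r) :=
      ⟨fun u => (some (Sum.inl u) : Option (Vx l ⊕ Vx r)), fun h => h⟩
    have h1 := h.map φ
    have h2 : (modG2_RG (BT.node l r)).Adj (some (Sum.inl (rt l)) : Option (Vx l ⊕ Vx r))
        (none : Option (Vx l ⊕ Vx r)) := rfl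
    exact h1.trans h2.reachable
  | BT.node l r, some (Sum.inr u) => by
    have h := modG2_reach r u
    let φ : modG2_RG r →g modG2_RG (BT.node l r) :=
      ⟨fun u => (some (Sum.inr u) : Option (Vx l ⊕ Vx r)), fun h => h⟩
    have h1 := h.map φ
    have h2 : (modG2_RG (BT.node l r)).Adj (some (Sum.inr (rt r)) : Option (Vx l ⊕ Vx r))
        (none : Option (Vx l ⊕ Vx r)) := rfl
    exact h1.trans h2.reachable

theorem modG2_conn (p : Tr × Tr) : (UG p).Connected := by
  have key : ∀ u, (UG p).Reachable u (Sum.inl (rt p.1)) := by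
    rintro (u | u)
    · let φ : modG2_RG p.1 →g UG p := ⟨fun u => Sum.inl u, fun h => h⟩
      exact (modG2_reach p.1 u).map φ
    · let φ : modG2_RG p.2 →g UG p := ⟨fun u => Sum.inr u, fun h => h⟩
      have h1 := (modG2_reach p.2 u).map φ
      have h2 : (UG p).Adj (Sum.inr (rt p.2)) (Sum.inl (rt p.1)) := ⟨rfl, rfl⟩
      exact h1.trans h2.reachable
  have : Nonempty (Vx p.1 ⊕ Vx p.2) := ⟨Sum.inl (rt p.1)⟩
  exact ⟨fun u v => (key u).trans (key v).symm⟩

theorem modG2_S_one : ∀ x : Tr, modG2_S x (fun _ _ => 1) + 2 = 2 * (Fintype.card (Vx x) : ℝ)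
  | BT.leaf () => by
    rw [modG2_S_leaf, modG2_card_leaf]; norm_num
  | BT.node l r => by
    have hl := modG2_S_one l
    have hr := modG2_S_one r
    rw [modG2_S_node l r (fun _ _ => 1) (fun _ _ => rfl), modG2_card_node]
    push_cast
    linarith

/-- the graph is a tree -/
theorem UG_isTree (p : Tr × Tr) : (UG p).IsTree := by
  classical
  rw [SimpleGraph.isTree_iff_connected_and_card]
  refine ⟨modG2_conn p, ?_⟩
  have h1 := modG2_edge_sum (UG p) (fun _ _ => 1) (fun _ _ => rfl)
  rw [modG2_pair_sum p (fun _ _ => 1) (fun _ _ => rfl)] at h1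
  have h2 : ∑ e ∈ (UG p).edgeFinset,
      Sym2.lift ⟨fun _ _ : Vx p.1 ⊕ Vx p.2 => (1 : ℝ), fun _ _ => rfl⟩ e =
      ((UG p).edgeFinset.card : ℝ) := by
    rw [Finset.card_eq_sum_ones]
    push_cast
    refine Finset.sum_congr rfl fun e _ => ?_
    induction e using Sym2.ind with
    | _ u v => rfl
  rw [h2] at h1
  have h3 := modG2_S_one p.1
  have h4 := modG2_S_one p.2
  have h5 : ((UG p).edgeFinset.card : ℝ) + 1 =
      (Fintype.card (Vx p.1) : ℝ) + Fintype.card (Vx p.2) := by linarith
  have h6 : (UG p).edgeFinset.card + 1 = Fintype.card (Vx p.1) + Fintype.card (Vx p.2) := by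
    exact_mod_cast h5
  rw [Nat.card_eq_fintype_card, Nat.card_eq_fintype_card, Fintype.card_sum,
    ← SimpleGraph.edgeFinset_card]
  exact h6

/-! ### degrees -/

theorem modG2_deg : ∀ (x : Tr) (u : Vx x), ¬ isLf x u →
    (u = rt x ∧ ∃ a b, a ≠ b ∧ Ad x u a ∧ Ad x u b) ∨
    (∃ a b c, a ≠ b ∧ a ≠ c ∧ b ≠ c ∧ Ad x u a ∧ Ad x u b ∧ Ad x u c)
  | BT.leaf _, _, h => absurd trivial h
  | BT.node l r, none, _ =>
    Or.inl ⟨rfl, (some (Sum.inl (rt l)) : Option (Vx l ⊕ Vx r)),
      (some (Sum.inr (rt r)) : Option (Vx l ⊕ Vx r)), fun h => (nomatch h), rfl, rfl⟩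
  | BT.node l r, some (Sum.inl u), h => by
    right
    rcases modG2_deg l u h with ⟨h1, a, b, h2, h3, h4⟩ | ⟨a, b, c, h1, h2, h3, h4, h5, h6⟩
    · exact ⟨(some (Sum.inl a) : Option (Vx l ⊕ Vx r)), (some (Sum.inl b) : Option (Vx l ⊕ Vx r)),
        (none : Option (Vx l ⊕ Vx r)), fun h => h2 (Sum.inl.inj (Option.some.inj h)),
        fun h => (nomatch h), fun h => (nomatch h), h3, h4, h1⟩
    · exact ⟨(some (Sum.inl a) : Option (Vx l ⊕ Vx r)), (some (Sum.inl b) : Option (Vx l ⊕ Vx r)),
        (some (Sum.inl c) : Option (Vx l ⊕ Vx r)), fun h => h1 (Sum.inl.inj (Option.some.inj h)),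
        fun h => h2 (Sum.inl.inj (Option.some.inj h)),
        fun h => h3 (Sum.inl.inj (Option.some.inj h)), h4, h5, h6⟩
  | BT.node l r, some (Sum.inr u), h => by
    right
    rcases modG2_deg r u h with ⟨h1, a, b, h2, h3, h4⟩ | ⟨a, b, c, h1, h2, h3, h4, h5, h6⟩
    · exact ⟨(some (Sum.inr a) : Option (Vx l ⊕ Vx r)), (some (Sum.inr b) : Option (Vx l ⊕ Vx r)),
        (none : Option (Vx l ⊕ Vx r)), fun h => h2 (Sum.inr.inj (Option.some.inj h)),
        fun h => (nomatch h), fun h => (nomatch h), h3, h4, h1⟩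
    · exact ⟨(some (Sum.inr a) : Option (Vx l ⊕ Vx r)), (some (Sum.inr b) : Option (Vx l ⊕ Vx r)),
        (some (Sum.inr c) : Option (Vx l ⊕ Vx r)), fun h => h1 (Sum.inr.inj (Option.some.inj h)),
        fun h => h2 (Sum.inr.inj (Option.some.inj h)),
        fun h => h3 (Sum.inr.inj (Option.some.inj h)), h4, h5, h6⟩

theorem modG2_three {V : Type} [Fintype V] (G : SimpleGraph V) [DecidableRel G.Adj] (u a b c : V)
    (h1 : a ≠ b) (h2 : a ≠ c) (h3 : b ≠ c) (ha : G.Adj u a) (hb : G.Adj u b) (hc : G.Adj u c) :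
    3 ≤ G.degree u := by
  classical
  have h : ({a, b, c} : Finset V) ⊆ G.neighborFinset u := by
    intro x hx
    rw [Finset.mem_insert, Finset.mem_insert, Finset.mem_singleton] at hx
    rw [SimpleGraph.mem_neighborFinset]
    rcases hx with rfl | rfl | rfl
    · exact ha
    · exact hb
    · exact hc
  have h4 := Finset.card_le_card h
  rw [Finset.card_eq_three.2 ⟨a, b, c, h1, h2, h3, rfl⟩] at h4
  rwa [SimpleGraph.card_neighborFinset_eq_degree] at h4

/-- all internal vertices have three neighbours -/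
theorem UG_degree (p : Tr × Tr) [DecidableRel (UG p).Adj] :
    (∀ u : Vx p.1, ¬ isLf p.1 u → 3 ≤ (UG p).degree (Sum.inl u)) ∧
    (∀ u : Vx p.2, ¬ isLf p.2 u → 3 ≤ (UG p).degree (Sum.inr u)) := by
  constructor
  · intro u hu
    rcases modG2_deg p.1 u hu with ⟨h1, a, b, h2, h3, h4⟩ | ⟨a, b, c, h1, h2, h3, h4, h5, h6⟩
    · exact modG2_three (UG p) (Sum.inl u) (Sum.inl a) (Sum.inl b) (Sum.inr (rt p.2))
        (fun h => h2 (Sum.inl.inj h)) (fun h => (nomatch h)) (fun h => (nomatch h)) h3 h4 ⟨h1, rfl⟩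
    · exact modG2_three (UG p) (Sum.inl u) (Sum.inl a) (Sum.inl b) (Sum.inl c)
        (fun h => h1 (Sum.inl.inj h)) (fun h => h2 (Sum.inl.inj h)) (fun h => h3 (Sum.inl.inj h))
        h4 h5 h6
  · intro u hu
    rcases modG2_deg p.2 u hu with ⟨h1, a, b, h2, h3, h4⟩ | ⟨a, b, c, h1, h2, h3, h4, h5, h6⟩
    · exact modG2_three (UG p) (Sum.inr u) (Sum.inr a) (Sum.inr b) (Sum.inl (rt p.1))
        (fun h => h2 (Sum.inr.inj h)) (fun h => (nomatch h)) (fun h => (nomatch h)) h3 h4 ⟨h1, rfl⟩
    · exact modG2_three (UG p) (Sum.inr u) (Sum.inr a) (Sum.inr b) (Sum.inr c)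
        (fun h => h1 (Sum.inr.inj h)) (fun h => h2 (Sum.inr.inj h)) (fun h => h3 (Sum.inr.inj h))
        h4 h5 h6

/-- the edge sum -/
theorem UG_sum {X : Type} (p : ET X × ET X) (w : X → X → ℝ) (hw : ∀ x y, w x y = w y x)
    [DecidableRel (UG (pshape p)).Adj] :
    ∑ e ∈ (UG (pshape p)).edgeFinset,
      Sym2.lift ⟨fun u v => w (plab p u) (plab p v), fun u v => hw _ _⟩ e = pwlen w p := by
  classical
  have h1 := modG2_edge_sum (UG (pshape p)) (fun u v => w (plab p u) (plab p v)) (fun u v => hw _ _)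
  have h2 := modG2_pair_sum (pshape p) (fun u v => w (plab p u) (plab p v)) (fun u v => hw _ _)
  have h3 : 2 * ∑ e ∈ (UG (pshape p)).edgeFinset,
        Sym2.lift ⟨fun u v => w (plab p u) (plab p v), fun u v => hw _ _⟩ e =
      2 * w (plab p (Sum.inl (rt (pshape p).1))) (plab p (Sum.inr (rt (pshape p).2))) +
        modG2_S (pshape p).1 (fun u v => w (plab p (Sum.inl u)) (plab p (Sum.inl v))) +
        modG2_S (pshape p).2 (fun u v => w (plab p (Sum.inr u)) (plab p (Sum.inr v))) := by
    rw [← h1, ← h2]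
    refine Finset.sum_congr rfl fun u _ => Finset.sum_congr rfl fun v _ => ?_
    congr
  have h4 : 2 * w (plab p (Sum.inl (rt (pshape p).1))) (plab p (Sum.inr (rt (pshape p).2))) +
        modG2_S (pshape p).1 (fun u v => w (plab p (Sum.inl u)) (plab p (Sum.inl v))) +
        modG2_S (pshape p).2 (fun u v => w (plab p (Sum.inr u)) (plab p (Sum.inr v))) =
      2 * w (pos p.1) (pos p.2) + 2 * wlen w p.1 + 2 * wlen w p.2 := by
    rw [← modG2_S_wlen w hw p.1, ← modG2_S_wlen w hw p.2, ← modG2_lab_rt p.1, ← modG2_lab_rt p.2]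
    rfl
  rw [h4] at h3
  unfold pwlen
  linarith

/-! ### labelled edges -/

theorem modG2_adj_edges {X : Type} : ∀ (a : ET X) (u v : Vx (shape a)), Ad (shape a) u v →
    (lab a u, lab a v) ∈ edges a ∨ (lab a v, lab a u) ∈ edges a
  | ET.leaf _, _, _, h => (h : False).elim
  | ET.node x l r, none, none, h => (h : False).elim
  | ET.node x l r, none, some (Sum.inl v), h => by
    have h' : v = rt (shape l) := h
    subst h'
    left
    show (x, lab l (rt (shape l))) ∈ edges (ET.node x l r)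
    rw [modG2_lab_rt, edges]
    simp
  | ET.node x l r, none, some (Sum.inr v), h => by
    have h' : v = rt (shape r) := h
    subst h'
    left
    show (x, lab r (rt (shape r))) ∈ edges (ET.node x l r)
    rw [modG2_lab_rt, edges]
    simp
  | ET.node x l r, some (Sum.inl u), none, h => by
    have h' : u = rt (shape l) := h
    subst h'
    right
    show (x, lab l (rt (shape l))) ∈ edges (ET.node x l r)
    rw [modG2_lab_rt, edges]
    simp
  | ET.node x l r, some (Sum.inr u), none, h => by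
    have h' : u = rt (shape r) := h
    subst h'
    right
    show (x, lab r (rt (shape r))) ∈ edges (ET.node x l r)
    rw [modG2_lab_rt, edges]
    simp
  | ET.node x l r, some (Sum.inl u), some (Sum.inl v), h => by
    rcases modG2_adj_edges l u v h with h1 | h1
    · left
      show (lab l u, lab l v) ∈ edges (ET.node x l r)
      rw [edges]
      simp [h1]
    · right
      show (lab l v, lab l u) ∈ edges (ET.node x l r)
      rw [edges]
      simp [h1]
  | ET.node x l r, some (Sum.inr u), some (Sum.inr v), h => by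
    rcases modG2_adj_edges r u v h with h1 | h1
    · left
      show (lab r u, lab r v) ∈ edges (ET.node x l r)
      rw [edges]
      simp [h1]
    · right
      show (lab r v, lab r u) ∈ edges (ET.node x l r)
      rw [edges]
      simp [h1]
  | ET.node x l r, some (Sum.inl u), some (Sum.inr v), h => (h : False).elim
  | ET.node x l r, some (Sum.inr u), some (Sum.inl v), h => (h : False).elim

/-- labels of adjacent vertices -/
theorem UG_adj_pedges {X : Type} (p : ET X × ET X) (u v : Vx (pshape p).1 ⊕ Vx (pshape p).2)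
    (h : (UG (pshape p)).Adj u v) :
    (plab p u, plab p v) ∈ pedges p ∨ (plab p v, plab p u) ∈ pedges p := by
  rcases u with u | u <;> rcases v with v | v
  · rcases modG2_adj_edges p.1 u v h with h1 | h1
    · left
      show (lab p.1 u, lab p.1 v) ∈ pedges p
      rw [pedges]; simp [h1]
    · right
      show (lab p.1 v, lab p.1 u) ∈ pedges p
      rw [pedges]; simp [h1]
  · obtain ⟨h1, h2⟩ : u = rt (shape p.1) ∧ v = rt (shape p.2) := h
    subst h1; subst h2
    left
    show (lab p.1 (rt (shape p.1)), lab p.2 (rt (shape p.2))) ∈ pedges p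
    rw [modG2_lab_rt, modG2_lab_rt, pedges]
    simp
  · obtain ⟨h1, h2⟩ : u = rt (shape p.2) ∧ v = rt (shape p.1) := h
    subst h1; subst h2
    right
    show (lab p.1 (rt (shape p.1)), lab p.2 (rt (shape p.2))) ∈ pedges p
    rw [modG2_lab_rt, modG2_lab_rt, pedges]
    simp
  · rcases modG2_adj_edges p.2 u v h with h1 | h1
    · left
      show (lab p.2 u, lab p.2 v) ∈ pedges p
      rw [pedges]; simp [h1]
    · right
      show (lab p.2 v, lab p.2 u) ∈ pedges p
      rw [pedges]; simp [h1]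

theorem modG2_exists_edge {X : Type} (e : X × X) : ∀ a : ET X, e ∈ edges a →
    ∃ u v, Ad (shape a) u v ∧ lab a u = e.1 ∧ lab a v = e.2
  | ET.leaf _, h => by simp [edges] at h
  | ET.node x l r, h => by
    simp only [edges, List.mem_cons, List.mem_append] at h
    rcases h with h | h | h | h
    · refine ⟨(none : Option (Vx (shape l) ⊕ Vx (shape r))),
        (some (Sum.inl (rt (shape l))) : Option (Vx (shape l) ⊕ Vx (shape r))), rfl, ?_, ?_⟩
      · rw [h]; rfl
      · rw [h]; exact modG2_lab_rt l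
    · refine ⟨(none : Option (Vx (shape l) ⊕ Vx (shape r))),
        (some (Sum.inr (rt (shape r))) : Option (Vx (shape l) ⊕ Vx (shape r))), rfl, ?_, ?_⟩
      · rw [h]; rfl
      · rw [h]; exact modG2_lab_rt r
    · obtain ⟨u, v, h1, h2, h3⟩ := modG2_exists_edge e l h
      exact ⟨(some (Sum.inl u) : Option (Vx (shape l) ⊕ Vx (shape r))),
        (some (Sum.inl v) : Option (Vx (shape l) ⊕ Vx (shape r))), h1, h2, h3⟩
    · obtain ⟨u, v, h1, h2, h3⟩ := modG2_exists_edge e r h
      exact ⟨(some (Sum.inr u) : Option (Vx (shape l) ⊕ Vx (shape r))),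
        (some (Sum.inr v) : Option (Vx (shape l) ⊕ Vx (shape r))), h1, h2, h3⟩

/-- every labelled edge comes from an edge of the graph -/
theorem exists_of_mem_pedges {X : Type} (p : ET X × ET X) (e : X × X) (he : e ∈ pedges p) :
    ∃ u v, (UG (pshape p)).Adj u v ∧ plab p u = e.1 ∧ plab p v = e.2 := by
  simp only [pedges, List.mem_cons, List.mem_append] at he
  rcases he with h | h | h
  · refine ⟨Sum.inl (rt (shape p.1)), Sum.inr (rt (shape p.2)), ⟨rfl, rfl⟩, ?_, ?_⟩
    · rw [h]; exact modG2_lab_rt p.1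
    · rw [h]; exact modG2_lab_rt p.2
  · obtain ⟨u, v, h1, h2, h3⟩ := modG2_exists_edge e p.1 h
    exact ⟨Sum.inl u, Sum.inl v, h1, h2, h3⟩
  · obtain ⟨u, v, h1, h2, h3⟩ := modG2_exists_edge e p.2 h
    exact ⟨Sum.inr u, Sum.inr v, h1, h2, h3⟩

theorem modG2_edges_length {X : Type} : ∀ a : ET X,
    (edges a).length + 1 = Fintype.card (Vx (shape a))
  | ET.leaf _ => rfl
  | ET.node x l r => by
    have hl := modG2_edges_length l
    have hr := modG2_edges_length r
    have h : Fintype.card (Vx (shape (ET.node x l r))) =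
        Fintype.card (Vx (shape l)) + Fintype.card (Vx (shape r)) + 1 := modG2_card_node _ _
    rw [h, edges]
    simp only [List.length_cons, List.length_append]
    omega

/-- number of edges -/
theorem pedges_length {X : Type} (p : ET X × ET X) :
    (pedges p).length + 1 = Fintype.card (Vx (pshape p).1 ⊕ Vx (pshape p).2) := by
  have h1 := modG2_edges_length p.1
  have h2 := modG2_edges_length p.2
  rw [Fintype.card_sum]
  show (pedges p).length + 1 = Fintype.card (Vx (shape p.1)) + Fintype.card (Vx (shape p.2))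
  rw [pedges, List.length_cons, List.length_append]
  omega

theorem modG2_wlen_sum {X : Type} (w : X → X → ℝ) : ∀ a : ET X,
    wlen w a = ((edges a).map (fun e => w e.1 e.2)).sum
  | ET.leaf _ => by simp [wlen, edges]
  | ET.node x l r => by
    rw [wlen, edges, modG2_wlen_sum w l, modG2_wlen_sum w r]
    simp only [List.map_cons, List.map_append, List.sum_cons, List.sum_append]
    ring

/-- sum of a weight over the list of edges -/
theorem pwlen_eq_sum {X : Type} (p : ET X × ET X) (w : X → X → ℝ) :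
    pwlen w p = ((pedges p).map (fun e => w e.1 e.2)).sum := by
  rw [pwlen, pedges, modG2_wlen_sum w p.1, modG2_wlen_sum w p.2]
  simp only [List.map_cons, List.map_append, List.sum_cons, List.sum_append]
  ring

open Classical in
theorem modG2_leaves {X : Type} : ∀ a : ET X,
    leaves a = ∑ u : Vx (shape a), (if isLf (shape a) u then ({lab a u} : Multiset X) else 0)
  | ET.leaf x => by
    have h : ∑ u : Vx (shape (ET.leaf x)),
        (if isLf (shape (ET.leaf x)) u then ({lab (ET.leaf x) u} : Multiset X) else 0) =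
        (if isLf (BT.leaf ()) (() : Unit) then ({x} : Multiset X) else 0) := modG2_sum_leaf _
    rw [h, leaves]
    exact (if_pos trivial).symm
  | ET.node x l r => by
    have h := modG2_sum_node (shape l) (shape r)
      (fun u => if isLf (BT.node (shape l) (shape r)) u then
        ({lab (ET.node x l r) u} : Multiset X) else 0)
    have h' : ∑ u : Vx (shape (ET.node x l r)), (if isLf (shape (ET.node x l r)) u then
        ({lab (ET.node x l r) u} : Multiset X) else 0) =
        (if (False : Prop) then ({x} : Multiset X) else 0) +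
        (∑ u : Vx (shape l), (if isLf (shape l) u then ({lab l u} : Multiset X) else 0) +
        ∑ u : Vx (shape r), (if isLf (shape r) u then ({lab r u} : Multiset X) else 0)) := by
      refine h.trans ?_
      congr 1
      exact if_neg (fun h => h)
    rw [h', if_neg (fun h => h), zero_add, ← modG2_leaves l, ← modG2_leaves r, leaves]

theorem modG2_map_eq {U X : Type} [Fintype U] (P : U → Prop) [DecidablePred P] (g : U → X) :
    ((Finset.univ.filter P).val.map g) = ∑ u, (if P u then ({g u} : Multiset X) else 0) := by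
  rw [← Finset.sum_filter]
  have : ∑ u ∈ Finset.univ.filter P, ({g u} : Multiset X) =
      (((Finset.univ.filter P).val.map g).map fun x => ({x} : Multiset X)).sum := by
    rw [Multiset.map_map]; rfl
  rw [this, Multiset.sum_map_singleton]

/-- Leaf vertices and leaf labels: the multiset of labels of the leaf vertices. -/
theorem leaves_eq_map {X : Type} (p : ET X × ET X)
    [DecidablePred (isLf (pshape p).1)] [DecidablePred (isLf (pshape p).2)] :
    leaves p.1 + leaves p.2 =
      ((Finset.univ.filter (isLf (pshape p).1)).val.map (fun u => plab p (Sum.inl u))) +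
      ((Finset.univ.filter (isLf (pshape p).2)).val.map (fun u => plab p (Sum.inr u))) := by
  classical
  rw [modG2_map_eq, modG2_map_eq, modG2_leaves p.1, modG2_leaves p.2]
  congr 1
  · exact Finset.sum_congr rfl fun u _ => by congr
  · exact Finset.sum_congr rfl fun u _ => by congr

end Pool.Agent.Helper29.Smith
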